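import Pool.Agent.Helper34.GX.Stm

set_option autoImplicit false

/-! Project GX, module GL (helper50): the minorant is at most the von Mangoldt function on the integers near `N` without
square factors above `Z`. -/

namespace Pool.Agent.Helper34.GX

open Finset

namespace Gl

/-- the weight `vv` in logarithms -/
noncomputable def ww (L t : ℝ) : ℝ :=
  2 * (if t ≤ 233 / 400 * L then 1 else 0) - 3 * (if t ≤ 1 / 2 * L then 1 else 0) + (if t ≤ 5 / 12 * L then 1 else 0)

lemma le_pow {N x : ℕ} (hN : 1 ≤ N) (hx : 1 ≤ x) (a : ℝ) :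
    x ≤ ⌊(N : ℝ) ^ a⌋₊ ↔ Real.log x ≤ a * Real.log N := by
  have hN0 : (0 : ℝ) < N := by exact_mod_cast hN
  have hx0 : (0 : ℝ) < x := by exact_mod_cast hx
  rw [Nat.le_floor_iff (by positivity), ← Real.log_le_log_iff hx0 (by positivity), Real.log_rpow hN0]

lemma le_sqrt {N x : ℕ} (hN : 1 ≤ N) (hx : 1 ≤ x) :
    x ≤ Nat.sqrt N ↔ Real.log x ≤ 1 / 2 * Real.log N := by
  have hN0 : (0 : ℝ) < N := by exact_mod_cast hN
  have hx0 : (0 : ℝ) < x := by exact_mod_cast hx
  have h1 : x ≤ Nat.sqrt N ↔ (x : ℝ) * x ≤ N := by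
    rw [Nat.le_sqrt]
    exact_mod_cast Iff.rfl
  rw [h1, ← Real.log_le_log_iff (by positivity) hN0, Real.log_mul hx0.ne' hx0.ne']
  constructor <;> intro h <;> linarith

lemma vv_eq {N x : ℕ} (hN : 1 ≤ N) (hx : 1 ≤ x) : vv N x = ww (Real.log N) (Real.log x) := by
  unfold vv ww
  have h1 : x ≤ T2 N ↔ Real.log x ≤ 233 / 400 * Real.log N := le_pow hN hx _
  have h2 : x ≤ T0 N ↔ Real.log x ≤ 5 / 12 * Real.log N := le_pow hN hx _
  have h3 := le_sqrt hN hx
  simp only [h1, h2, h3]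

lemma ww_le {L t : ℝ} (hL : 0 < L) : ww L t ≤ 2 := by
  unfold ww
  split_ifs <;> linarith

lemma ww_nonpos {L t : ℝ} (hL : 0 < L) (h : t ≤ 1 / 2 * L ∨ 233 / 400 * L < t) : ww L t ≤ 0 := by
  unfold ww
  split_ifs <;> rcases h with h | h <;> linarith

lemma ww_couple {L s t : ℝ} (hL : 0 < L) (h1 : 9998 / 10000 * L ≤ s + t) (h2 : s + t ≤ L) : ww L s + ww L t ≤ 1 := by
  unfold ww
  split_ifs <;> linarith

/-- the sum over the pairs through the ordered list of the prime factors -/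
lemma pr_eq {N m k : ℕ} (h : m.primeFactors.card = k) :
    pr N m = ∑ t ∈ (univ : Finset (Fin k × Fin k)).filter (fun t => t.1 < t.2),
      vv N (m.primeFactors.orderEmbOfFin h t.1 * m.primeFactors.orderEmbOfFin h t.2) := by
  classical
  unfold pr
  symm
  refine Finset.sum_bij (fun t _ => (m.primeFactors.orderEmbOfFin h t.1, m.primeFactors.orderEmbOfFin h t.2)) ?_ ?_ ?_ ?_
  · intro t ht
    rw [mem_filter] at ht
    unfold prs
    rw [mem_filter, mem_product]
    exact ⟨⟨orderEmbOfFin_mem _ _ _, orderEmbOfFin_mem _ _ _⟩, (m.primeFactors.orderEmbOfFin h).lt_iff_lt.2 ht.2⟩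
  · intro s _ t _ hst
    rw [Prod.mk.injEq] at hst
    exact Prod.ext ((m.primeFactors.orderEmbOfFin h).injective hst.1) ((m.primeFactors.orderEmbOfFin h).injective hst.2)
  · intro x hx
    unfold prs at hx
    rw [mem_filter, mem_product] at hx
    have hr : ∀ y ∈ m.primeFactors, ∃ i, m.primeFactors.orderEmbOfFin h i = y := by
      intro y hy
      have := range_orderEmbOfFin m.primeFactors h
      have h2 : y ∈ Set.range (m.primeFactors.orderEmbOfFin h) := by
        rw [this]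
        exact hy
      exact h2
    obtain ⟨i, hi⟩ := hr _ hx.1.1
    obtain ⟨j, hj⟩ := hr _ hx.1.2
    refine ⟨(i, j), ?_, ?_⟩
    · rw [mem_filter]
      refine ⟨mem_univ _, ?_⟩
      have := hx.2
      rw [← hi, ← hj] at this
      exact (m.primeFactors.orderEmbOfFin h).lt_iff_lt.1 this
    · exact Prod.ext hi hj
  · intro t _
    rfl

lemma sum_eq {M : Type*} [AddCommMonoid M] {s : Finset ℕ} {k : ℕ} (h : s.card = k) (f : ℕ → M) :
    ∑ p ∈ s, f p = ∑ i : Fin k, f (s.orderEmbOfFin h i) := by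
  classical
  symm
  refine Finset.sum_bij (fun i _ => s.orderEmbOfFin h i) ?_ ?_ ?_ ?_
  · intro i _
    exact orderEmbOfFin_mem _ _ _
  · intro i _ j _ hij
    exact (s.orderEmbOfFin h).injective hij
  · intro y hy
    have h2 : y ∈ Set.range (s.orderEmbOfFin h) := by
      rw [range_orderEmbOfFin s h]
      exact hy
    obtain ⟨i, hi⟩ := h2
    exact ⟨i, mem_univ _, hi⟩
  · intro _ _
    rfl

/-- everything in logarithms -/
lemma data {N m k : ℕ} (hN : 1 ≤ N) (hm : 2 ≤ m) (hmN : m ≤ N) (hsq : Squarefree m) (hk : m.primeFactors.card = k)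
    (hZ : ∀ p ∈ m.primeFactors, ZZ N < p) :
    ∃ l : Fin k → ℝ, (∀ i, 1 / 6 * Real.log N < l i) ∧ (∀ i j, i < j → l i < l j) ∧ ∑ i, l i = Real.log m ∧
      (om N m : ℝ) = ∑ i, (if l i ≤ 1 / 2 * Real.log N then (1 : ℝ) else 0) ∧
      pr N m = ∑ t ∈ (univ : Finset (Fin k × Fin k)).filter (fun t => t.1 < t.2), ww (Real.log N) (l t.1 + l t.2) := by
  classical
  set e := m.primeFactors.orderEmbOfFin hk with he
  have hN0 : (0 : ℝ) < N := by exact_mod_cast hN
  have hmem : ∀ i, e i ∈ m.primeFactors := fun i => orderEmbOfFin_mem _ _ _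
  have hpos : ∀ i, 1 ≤ e i := fun i => (Nat.prime_of_mem_primeFactors (hmem i)).one_lt.le
  have hpos' : ∀ i, (0 : ℝ) < (e i : ℝ) := fun i => by exact_mod_cast hpos i
  refine ⟨fun i => Real.log (e i), ?_, ?_, ?_, ?_, ?_⟩
  · intro i
    have h1 := hZ _ (hmem i)
    have h2 := ZZ_sixth hN
    have h3 : N < (e i) ^ 6 := lt_of_lt_of_le h2 (Nat.pow_le_pow_left h1 6)
    have h4 : (N : ℝ) < (e i : ℝ) ^ 6 := by exact_mod_cast h3
    have h5 := Real.log_lt_log hN0 h4
    rw [Real.log_pow] at h5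
    push_cast at h5
    linarith
  · intro i j hij
    refine Real.log_lt_log (hpos' i) ?_
    exact_mod_cast e.lt_iff_lt.2 hij
  · have h1 : Real.log m = ∑ p ∈ m.primeFactors, Real.log (p : ℝ) := by
      conv_lhs => rw [← Nat.prod_primeFactors_of_squarefree hsq]
      push_cast
      rw [Real.log_prod]
      intro p hp
      have := (Nat.prime_of_mem_primeFactors hp).pos
      positivity
    rw [h1, sum_eq hk]
  · unfold om
    rw [Finset.card_filter, Nat.cast_sum, sum_eq hk]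
    refine Finset.sum_congr rfl fun i _ => ?_
    have h1 := le_sqrt hN (hpos i)
    simp only [he] at h1
    by_cases h : Real.log ((m.primeFactors.orderEmbOfFin hk) i) ≤ 1 / 2 * Real.log N
    · rw [if_pos (h1.2 h), if_pos h]
      norm_num
    · rw [if_neg (fun h' => h (h1.1 h')), if_neg h]
      norm_num
  · rw [pr_eq hk]
    refine Finset.sum_congr rfl fun t _ => ?_
    have h1 : 1 ≤ e t.1 * e t.2 := Nat.one_le_iff_ne_zero.2 (Nat.mul_ne_zero (by have := hpos t.1; omega) (by have := hpos t.2; omega))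
    rw [vv_eq hN h1, Nat.cast_mul, Real.log_mul (hpos' _).ne' (hpos' _).ne']

lemma pairs2 : (univ : Finset (Fin 2 × Fin 2)).filter (fun t => t.1 < t.2) = {(0, 1)} := by decide

lemma pairs3 : (univ : Finset (Fin 3 × Fin 3)).filter (fun t => t.1 < t.2) = {(0, 1), (0, 2), (1, 2)} := by decide

lemma pairs4 : (univ : Finset (Fin 4 × Fin 4)).filter (fun t => t.1 < t.2) =
    {(0, 1), (0, 2), (0, 3), (1, 2), (1, 3), (2, 3)} := by decide

lemma pairs5 : (univ : Finset (Fin 5 × Fin 5)).filter (fun t => t.1 < t.2) =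
    {(0, 1), (0, 2), (0, 3), (0, 4), (1, 2), (1, 3), (1, 4), (2, 3), (2, 4), (3, 4)} := by decide

lemma k2 {L S : ℝ} (hL : 0 < L) {l : Fin 2 → ℝ} (h6 : ∀ i, 1 / 6 * L < l i) (hlt : ∀ i j, i < j → l i < l j)
    (hs : ∑ i, l i = S) (h1 : 9998 / 10000 * L ≤ S) (h2 : S ≤ L) :
    1 - (∑ i, (if l i ≤ 1 / 2 * L then (1 : ℝ) else 0)) +
      ∑ t ∈ (univ : Finset (Fin 2 × Fin 2)).filter (fun t => t.1 < t.2), ww L (l t.1 + l t.2) ≤ 0 := by
  rw [pairs2, Finset.sum_singleton]
  rw [Fin.sum_univ_two] at hs ⊢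
  have a := hlt 0 1 (by decide)
  have b : ww L (l 0 + l 1) ≤ 0 := ww_nonpos hL (Or.inr (by linarith))
  rw [if_pos (by linarith : l 0 ≤ 1 / 2 * L)]
  have c : (0 : ℝ) ≤ (if l 1 ≤ 1 / 2 * L then (1 : ℝ) else 0) := by split_ifs <;> norm_num
  dsimp only
  linarith

lemma k3 {L S : ℝ} (hL : 0 < L) {l : Fin 3 → ℝ} (h6 : ∀ i, 1 / 6 * L < l i) (hlt : ∀ i j, i < j → l i < l j)
    (hs : ∑ i, l i = S) (h1 : 9998 / 10000 * L ≤ S) (h2 : S ≤ L) :
    1 - (∑ i, (if l i ≤ 1 / 2 * L then (1 : ℝ) else 0)) +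
      ∑ t ∈ (univ : Finset (Fin 3 × Fin 3)).filter (fun t => t.1 < t.2), ww L (l t.1 + l t.2) ≤ 0 := by
  rw [pairs3, Finset.sum_insert (by decide), Finset.sum_insert (by decide), Finset.sum_singleton]
  rw [Fin.sum_univ_three] at hs ⊢
  dsimp only
  have a := hlt 0 1 (by decide)
  have b := hlt 1 2 (by decide)
  have c0 := h6 0
  have c1 := h6 1
  have c2 := h6 2
  rw [if_pos (by linarith : l 0 ≤ 1 / 2 * L), if_pos (by linarith : l 1 ≤ 1 / 2 * L)]
  by_cases h : l 2 ≤ 1 / 2 * L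
  · rw [if_pos h]
    by_cases x : l 0 + l 1 ≤ 1 / 2 * L ∨ 233 / 400 * L < l 0 + l 1
    · by_cases y : l 0 + l 2 ≤ 1 / 2 * L ∨ 233 / 400 * L < l 0 + l 2
      · have e1 := ww_nonpos hL x
        have e2 := ww_nonpos hL y
        have e3 := ww_le (t := l 1 + l 2) hL
        linarith
      · by_cases z : l 1 + l 2 ≤ 1 / 2 * L ∨ 233 / 400 * L < l 1 + l 2
        · have e1 := ww_nonpos hL x
          have e2 := ww_le (t := l 0 + l 2) hL
          have e3 := ww_nonpos hL z
          linarith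
        · push Not at y z
          linarith [y.2, z.2]
    · by_cases y : l 0 + l 2 ≤ 1 / 2 * L ∨ 233 / 400 * L < l 0 + l 2
      · by_cases z : l 1 + l 2 ≤ 1 / 2 * L ∨ 233 / 400 * L < l 1 + l 2
        · have e1 := ww_le (t := l 0 + l 1) hL
          have e2 := ww_nonpos hL y
          have e3 := ww_nonpos hL z
          linarith
        · push Not at x z
          linarith [x.2, z.2]
      · push Not at x y
        linarith [x.2, y.2]
  · rw [if_neg h]
    push Not at h
    have e1 : ww L (l 0 + l 1) ≤ 0 := ww_nonpos hL (Or.inl (by linarith))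
    have e2 : ww L (l 0 + l 2) ≤ 0 := ww_nonpos hL (Or.inr (by linarith))
    have e3 : ww L (l 1 + l 2) ≤ 0 := ww_nonpos hL (Or.inr (by linarith))
    linarith

lemma k4 {L S : ℝ} (hL : 0 < L) {l : Fin 4 → ℝ} (h6 : ∀ i, 1 / 6 * L < l i) (hlt : ∀ i j, i < j → l i < l j)
    (hs : ∑ i, l i = S) (h1 : 9998 / 10000 * L ≤ S) (h2 : S ≤ L) :
    1 - (∑ i, (if l i ≤ 1 / 2 * L then (1 : ℝ) else 0)) +
      ∑ t ∈ (univ : Finset (Fin 4 × Fin 4)).filter (fun t => t.1 < t.2), ww L (l t.1 + l t.2) ≤ 0 := by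
  rw [pairs4, Finset.sum_insert (by decide), Finset.sum_insert (by decide), Finset.sum_insert (by decide),
    Finset.sum_insert (by decide), Finset.sum_insert (by decide), Finset.sum_singleton]
  rw [Fin.sum_univ_four] at hs ⊢
  dsimp only
  have c0 := h6 0
  have c1 := h6 1
  have c2 := h6 2
  have c3 := h6 3
  rw [if_pos (by linarith : l 0 ≤ 1 / 2 * L), if_pos (by linarith : l 1 ≤ 1 / 2 * L),
    if_pos (by linarith : l 2 ≤ 1 / 2 * L), if_pos (by linarith : l 3 ≤ 1 / 2 * L)]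
  have e1 := ww_couple (s := l 0 + l 1) (t := l 2 + l 3) hL (by linarith) (by linarith)
  have e2 := ww_couple (s := l 0 + l 2) (t := l 1 + l 3) hL (by linarith) (by linarith)
  have e3 := ww_couple (s := l 0 + l 3) (t := l 1 + l 2) hL (by linarith) (by linarith)
  linarith

lemma k5 {L S : ℝ} (hL : 0 < L) {l : Fin 5 → ℝ} (h6 : ∀ i, 1 / 6 * L < l i) (hlt : ∀ i j, i < j → l i < l j)
    (hs : ∑ i, l i = S) (h1 : 9998 / 10000 * L ≤ S) (h2 : S ≤ L) :
    1 - (∑ i, (if l i ≤ 1 / 2 * L then (1 : ℝ) else 0)) +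
      ∑ t ∈ (univ : Finset (Fin 5 × Fin 5)).filter (fun t => t.1 < t.2), ww L (l t.1 + l t.2) ≤ 0 := by
  rw [pairs5]
  rw [Fin.sum_univ_five] at hs ⊢
  have c0 := h6 0
  have c1 := h6 1
  have c2 := h6 2
  have c3 := h6 3
  have c4 := h6 4
  rw [if_pos (by linarith : l 0 ≤ 1 / 2 * L), if_pos (by linarith : l 1 ≤ 1 / 2 * L),
    if_pos (by linarith : l 2 ≤ 1 / 2 * L), if_pos (by linarith : l 3 ≤ 1 / 2 * L),
    if_pos (by linarith : l 4 ≤ 1 / 2 * L)]
  have e : ∑ t ∈ ({(0, 1), (0, 2), (0, 3), (0, 4), (1, 2), (1, 3), (1, 4), (2, 3), (2, 4), (3, 4)} : Finset (Fin 5 × Fin 5)),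
      ww L (l t.1 + l t.2) ≤ 0 := by
    refine Finset.sum_nonpos fun t ht => ww_nonpos hL (Or.inl ?_)
    simp only [Finset.mem_insert, Finset.mem_singleton] at ht
    rcases ht with rfl | rfl | rfl | rfl | rfl | rfl | rfl | rfl | rfl | rfl <;> dsimp only <;> linarith
  linarith

end Gl

theorem gm_le : GmLeStm := by
  refine ⟨2, fun N hN2 m hm hmN hlog hsq => ?_⟩
  have hN : 1 ≤ N := by omega
  have hL : 0 < Real.log N := Real.log_pos (by exact_mod_cast hN2)
  have hΛ : 0 ≤ ArithmeticFunction.vonMangoldt m := ArithmeticFunction.vonMangoldt_nonneg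
  unfold gm
  split_ifs with hZ
  swap
  · simpa using hΛ
  have hm0 : m ≠ 0 := by omega
  have hmR : (0 : ℝ) < m := by exact_mod_cast (by omega : 0 < m)
  have hsf : Squarefree m := by
    rw [Nat.squarefree_iff_prime_squarefree]
    intro p hp hpp
    exact hsq p hp (hZ p (Nat.mem_primeFactors.2 ⟨hp, (dvd_mul_right p p).trans hpp, hm0⟩)) hpp
  have hlm : Real.log m ≤ Real.log N := Real.log_le_log hmR (by exact_mod_cast hmN)
  obtain ⟨l, h6, hlt, hs, hom, hpr⟩ := Gl.data hN hm hmN hsf rfl hZ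
  have hk6 : m.primeFactors.card ≤ 5 := by
    by_contra hc
    push Not at hc
    have h1 : ∑ i : Fin m.primeFactors.card, 1 / 6 * Real.log N < ∑ i, l i := by
      refine Finset.sum_lt_sum (fun i _ => (h6 i).le) ⟨⟨0, by omega⟩, mem_univ _, h6 _⟩
    rw [Finset.sum_const, Finset.card_univ, Fintype.card_fin, nsmul_eq_mul] at h1
    have h2 : (6 : ℝ) ≤ (m.primeFactors.card : ℝ) := by exact_mod_cast hc
    nlinarith
  have hk1 : 1 ≤ m.primeFactors.card := by
    rw [Nat.one_le_iff_ne_zero, ne_eq, Finset.card_eq_zero, Nat.primeFactors_eq_empty]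
    omega
  suffices h : m.primeFactors.card = 1 ∨ 1 - (om N m : ℝ) + pr N m ≤ 0 by
    rcases h with h | h
    · have hp : m.Prime := by
        obtain ⟨p, hp⟩ := Finset.card_eq_one.1 h
        have h1 := Nat.prod_primeFactors_of_squarefree hsf
        rw [hp, Finset.prod_singleton] at h1
        have h2 : p ∈ m.primeFactors := by
          rw [hp]
          exact Finset.mem_singleton_self p
        rw [← h1]
        exact Nat.prime_of_mem_primeFactors h2
      have hpr0 : pr N m = 0 := by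
        unfold pr prs
        rw [hp.primeFactors]
        refine Finset.sum_eq_zero fun t ht => ?_
        rw [mem_filter, mem_product, mem_singleton, mem_singleton] at ht
        exfalso
        have h1 := ht.2
        rw [ht.1.1, ht.1.2] at h1
        exact lt_irrefl _ h1
      rw [ArithmeticFunction.vonMangoldt_apply_prime hp, hpr0]
      have h0 : (0 : ℝ) ≤ (om N m : ℝ) := Nat.cast_nonneg _
      nlinarith
    · have : 9998 / 10000 * (Real.log N * (1 - (om N m : ℝ) + pr N m)) ≤ 0 := by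
        have := mul_nonpos_of_nonneg_of_nonpos hL.le h
        linarith
      linarith
  rw [hom, hpr]
  clear hom hpr
  generalize m.primeFactors.card = k at *
  interval_cases k
  · exact Or.inl rfl
  · exact Or.inr (Gl.k2 hL h6 hlt hs hlog hlm)
  · exact Or.inr (Gl.k3 hL h6 hlt hs hlog hlm)
  · exact Or.inr (Gl.k4 hL h6 hlt hs hlog hlm)
  · exact Or.inr (Gl.k5 hL h6 hlt hs hlog hlm)

end Pool.Agent.Helper34.GX
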