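import Pool.Agent.Helper34.GX.Base
import Pool.Graph.R_seed8.R460.GS.Stm
import Pool.Graph.R_seed8.R460.GH.Dec
import Pool.Graph.R_seed8.R460.GR.D2

set_option autoImplicit false

/-! Project GX: the statements of the modules. -/

namespace Pool.Agent.Helper34.GX

open Finset
open Pool.Agent.Y883.GJ
open Pool.Agent.R460.GR (Bd)

/-- WTA: the cofactors -/
def BigStm : Prop := ∃ N₀ : ℕ, ∀ N : ℕ, N₀ ≤ N → Big N ∧ (∀ n ≤ N, ∑ m ∈ mm N n, (1 : ℝ) / m ≤ 256) ∧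
  SP (1 / 6) 1 N ≤ 3

/-- WTB: the local density is bounded and of bounded variation -/
def WsStm : Prop := ∃ (c : ℝ) (N₀ : ℕ), ∀ N : ℕ, N₀ ≤ N → WS (Wm N) c N

/-- WD: the lower bound for the local density -/
def WdStm : Prop := ∀ V : ℕ, ∃ N₀ : ℕ, ∀ N : ℕ, N₀ ≤ N → ∀ n : ℕ, n ≤ N → (N : ℝ) / Real.log N ^ V ≤ n →
  9 / 100 ≤ Wm N n

/-- the squarefree cofactors with `k` prime factors -/
noncomputable def mk (N n k : ℕ) : Finset ℕ := (mm N n).filter (fun m => Squarefree m ∧ m.primeFactors.card = k)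

/-- the cofactors which are not squarefree -/
noncomputable def mns (N n : ℕ) : Finset ℕ := (mm N n).filter (fun m => ¬ Squarefree m)

/-- WDK: the contribution of the cofactors with `k` prime factors -/
def WkStm (k : ℕ) (B : ℝ) : Prop := ∀ V : ℕ, ∃ N₀ : ℕ, ∀ N : ℕ, N₀ ≤ N → ∀ n : ℕ, n ≤ N →
  (N : ℝ) / Real.log N ^ V ≤ n → -B ≤ Real.log N * ∑ m ∈ mk N n k, kap N n m * gg n m

/-- WDN: the contribution of the cofactors which are not squarefree -/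
def WnsStm : Prop := ∀ V : ℕ, ∃ N₀ : ℕ, ∀ N : ℕ, N₀ ≤ N → ∀ n : ℕ, n ≤ N →
  (N : ℝ) / Real.log N ^ V ≤ n → -(1 / 10000) ≤ Real.log N * ∑ m ∈ mns N n, kap N n m * gg n m

/-- the cells of the grid `1 / G` -/
noncomputable def PU (G u N : ℕ) : Finset ℕ := PP ((u : ℝ) / G) (((u : ℝ) + 1) / G) N

noncomputable def SU (G u N : ℕ) : ℝ := SP ((u : ℝ) / G) (((u : ℝ) + 1) / G) N

/-- CELL: the cells -/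
def CellStm (G : ℕ) : Prop := ∀ᶠ N : ℕ in Filter.atTop,
  (∀ u ∈ Ico (G / 6) G, SU G u N ≤ (1 / (u : ℝ) + 1 / ((u : ℝ) + 1)) / 2 + 1 / 1000000) ∧
  ∀ (p b : ℕ), p.Prime → ZZ N < p → G / 6 ≤ b → (p : ℝ) ≤ (N : ℝ) ^ ((b : ℝ) / G) → ∃ u ∈ Ico (G / 6) b, p ∈ PU G u N

/-- APG: the function `gm` in arithmetic progressions with a small difference -/
def ApmStm : Prop := ∀ K U : ℕ, ∃ N₀ : ℕ, ∀ N : ℕ, N₀ ≤ N → ∀ r : ℕ, 1 ≤ r → (r : ℝ) ≤ Real.log N ^ K →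
  ∀ c y : ℕ, y ≤ N → |∑ n ∈ (Icc 1 y).filter (fun n => n ≡ c [MOD r]), gm N n -
    (if c.Coprime r then (∑ n ∈ Icc 1 y, Wm N n) / (Nat.totient r : ℝ) else 0)| ≤ N / Real.log N ^ U

/-- GL: the minorant is at most `Λ` -/
def GmLeStm : Prop := ∃ N₀ : ℕ, ∀ N : ℕ, N₀ ≤ N → ∀ m : ℕ, 2 ≤ m → m ≤ N →
  9998 / 10000 * Real.log N ≤ Real.log m → (∀ p : ℕ, p.Prime → ZZ N < p → ¬ p * p ∣ m) →
  9998 / 10000 * gm N m ≤ ArithmeticFunction.vonMangoldt m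

/-- R2: bilinear sums over all characters which have no large sum -/
def Bil4Stm : Prop := ∀ (A C : ℕ) (ρ : ℝ), 0 < ρ → ∃ K₂ K N₀ : ℕ, ∀ N : ℕ, N₀ ≤ N →
    ∀ (q : ℕ) [NeZero q], (q : ℝ) ≤ (N : ℝ) ^ (5 / 6 - ρ) → ∀ a : ℕ → ℂ,
    (∀ m ∈ Icc 1 N, ‖a m‖ ≤ Real.log N * (m.divisors.card : ℝ)) →
    (∀ m, a m ≠ 0 → (N : ℝ) ^ (1 / 2000 : ℝ) ≤ 2 * m ∧ (m : ℝ) ≤ (N : ℝ) ^ (1 / 6 : ℝ)) →
    ∀ b : ℕ → ℂ, (∀ m ∈ Icc 1 N, ‖b m‖ ≤ Real.log N * (m.divisors.card : ℝ)) →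
    ∀ η : ℝ, |η| ≤ Real.log N ^ C / N → ∀ y : ℕ, y ≤ N →
    ∀ S : Finset (DirichletCharacter ℂ q), (∀ χ ∈ S, ¬ Bd N K₂ K a q χ) →
    ‖∑ m ∈ Icc 1 y, ∑ k ∈ Icc 1 (y / m), (a m * b k) • ev S η (m * k)‖ ^ 2 ≤
      (N : ℝ) ^ 2 / Real.log N ^ A

/-- R3: the number of the primitive characters with a large sum over one of the short classes -/
def Count4Stm : Prop := ∀ (K₂ K : ℕ), ∃ C₃ N₀ : ℕ, ∀ N : ℕ, N₀ ≤ N → ∀ a : ℕ → ℂ,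
    (∀ m ∈ Icc 1 N, ‖a m‖ ≤ Real.log N * (m.divisors.card : ℝ)) →
    (∀ m, a m ≠ 0 → (N : ℝ) ^ (1 / 2000 : ℝ) ≤ 2 * m ∧ (m : ℝ) ≤ (N : ℝ) ^ (1 / 6 : ℝ)) →
    ∀ Ψ : Finset (Σ f : ℕ, DirichletCharacter ℂ f),
    (∀ ψ ∈ Ψ, 1 ≤ ψ.1 ∧ (ψ.1 : ℝ) ≤ (N : ℝ) ^ (5 / 6 : ℝ) ∧ ψ.2.IsPrimitive ∧ Bd N K₂ K a ψ.1 ψ.2) →
    (Ψ.card : ℝ) ≤ Real.log N ^ C₃

/-- R4: few primitive characters have a large sum with the minorant -/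
def MG4Stm : Prop := ∀ (U : ℕ) (ρ : ℝ), 0 < ρ → ∃ C₄ N₀ : ℕ, ∀ N : ℕ, N₀ ≤ N →
    ∀ Ψ : Finset (Σ f : ℕ, DirichletCharacter ℂ f),
    (∀ ψ ∈ Ψ, 1 < ψ.1 ∧ (ψ.1 : ℝ) ≤ (N : ℝ) ^ (5 / 6 - ρ) ∧ ψ.2.IsPrimitive ∧
      ∃ y : ℕ, y ≤ N ∧ N / Real.log N ^ U < ‖∑ n ∈ Icc 1 y, GM N n * ψ.2 (n : ZMod ψ.1)‖) →
    (Ψ.card : ℝ) ≤ Real.log N ^ C₄

end Pool.Agent.Helper34.GX
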