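import Pool.Graph.R_seed8.R453.GS.Wt0
import Pool.Agent.Helper34.GX.Stm

set_option autoImplicit false

/-! Module W2: the cofactors which are primes. -/

namespace Pool.Agent.Helper34.GX

open Finset Filter Topology
open Pool.Agent.R453.GS (ev_log log_floor sum_pow tv log_num)

lemma w2_big : ∀ᶠ N : ℕ in atTop, Big N := by
  filter_upwards [ev_log 50, eventually_ge_atTop 2] with N hL hN
  obtain ⟨a1, a2, a3⟩ := log_floor (γ := 1 / 6) (by norm_num) hN
  have hL0 : 0 < Real.log N := by linarith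
  have hZl : (1 / 7 : ℝ) * Real.log N ≤ Real.log (ZZ N) := by
    unfold ZZ
    linarith
  refine ⟨hN, ?_, hL0, hZl⟩
  by_contra hcon
  have h1 : ZZ N = 1 := by unfold ZZ at *; omega
  rw [h1, Nat.cast_one, Real.log_one] at hZl
  linarith

lemma w2_SP_nonneg (a b : ℝ) (N : ℕ) : 0 ≤ SP a b N := sum_nonneg fun _ _ => by positivity

lemma w2_PP_mem {a b : ℝ} {N p : ℕ} : p ∈ PP a b N ↔ (⌊(N : ℝ) ^ a⌋₊ < p ∧ p ≤ ⌊(N : ℝ) ^ b⌋₊) ∧ p.Prime := by
  unfold PP
  rw [mem_filter, mem_Ioc]

/-- `B loglog N ≤ (1/5000) log N` -/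
lemma w2_loglog (B : ℕ) : ∀ᶠ N : ℕ in atTop, 1 ≤ Real.log N ∧
    B * Real.log (Real.log N) ≤ 1 / 5000 * Real.log N := by
  have hLT : Tendsto (fun N : ℕ => Real.log (N : ℝ)) atTop atTop :=
    Real.tendsto_log_atTop.comp tendsto_natCast_atTop_atTop
  have h5 : ∀ᶠ L : ℝ in atTop, B * Real.log L ≤ 1 / 5000 * L := by
    have h6 := Real.isLittleO_log_id_atTop.bound (show (0 : ℝ) < 1 / (5000 * (B + 1)) by positivity)
    filter_upwards [h6, eventually_ge_atTop 1] with L h7 h8
    have h9 : 0 ≤ Real.log L := Real.log_nonneg h8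
    rw [Real.norm_of_nonneg h9, id, Real.norm_of_nonneg (by linarith)] at h7
    have h10 : (B + 1 : ℝ) * Real.log L ≤ 1 / 5000 * L := by
      calc (B + 1 : ℝ) * Real.log L ≤ (B + 1 : ℝ) * (1 / (5000 * (B + 1)) * L) :=
            mul_le_mul_of_nonneg_left h7 (by positivity)
        _ = 1 / 5000 * L := by field_simp
    linarith
  filter_upwards [hLT.eventually_ge_atTop 1, hLT.eventually h5] with N h1 h2
  exact ⟨h1, h2⟩

/-- a summand -/
lemma w2_term_le {L n m k K D : ℝ} (hL : 0 < L) (hm : 0 < m) (hD : 0 < D) (hk0 : 0 ≤ K) (hkK : k ≤ K)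
    (hlog : D * L ≤ Real.log (n / m)) : k * (L * (1 / (m * Real.log (n / m)))) ≤ K / D * (1 / m) := by
  have h1 : 0 < Real.log (n / m) := lt_of_lt_of_le (by positivity) hlog
  have h2 : L / Real.log (n / m) ≤ 1 / D := by
    rw [div_le_div_iff₀ h1 hD]
    linarith
  have h3 : 0 ≤ L / Real.log (n / m) := by positivity
  have e : k * (L * (1 / (m * Real.log (n / m)))) = k * (L / Real.log (n / m)) * (1 / m) := by
    field_simp
  have e2 : K / D * (1 / m) = K * (1 / D) * (1 / m) := by ring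
  rw [e, e2]
  refine mul_le_mul_of_nonneg_right ?_ (by positivity)
  calc k * (L / Real.log (n / m)) ≤ K * (L / Real.log (n / m)) := mul_le_mul_of_nonneg_right hkK h3
    _ ≤ K * (1 / D) := mul_le_mul_of_nonneg_left h2 hk0

lemma w2_kap {N n p : ℕ} (hp : p.Prime) (hps : p ≤ Nat.sqrt N) (hN : 1 ≤ N) (hn : T2 N < n) :
    kap N n p = -(if n ≤ p * Nat.sqrt N then 1 else 0) := by
  have h1 := T0_le_sqrt hN
  have h2 := sqrt_le_T2 hN
  have hpf : p.primeFactors = {p} := hp.primeFactors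
  have hom : om N p = 1 := by
    unfold om
    rw [hpf, Finset.filter_singleton, if_pos hps, card_singleton]
  have hpr : pr N p = 0 := by
    unfold pr prs
    rw [hpf, Finset.singleton_product_singleton, Finset.filter_singleton, if_neg (by simp)]
    simp
  have hkp : kp N n p = 0 := by
    unfold kp
    rw [hpf, sum_singleton]
    have a1 : ¬ p * n ≤ p * T2 N := by
      rw [not_le]
      exact Nat.mul_lt_mul_of_pos_left hn hp.pos
    have a2 : ¬ p * n ≤ p * Nat.sqrt N := by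
      rw [not_le]
      exact Nat.mul_lt_mul_of_pos_left (by omega) hp.pos
    have a3 : ¬ p * n ≤ p * T0 N := by
      rw [not_le]
      exact Nat.mul_lt_mul_of_pos_left (by omega) hp.pos
    rw [if_neg a1, if_neg a2, if_neg a3]
    norm_num
  unfold kap
  rw [hom, hpr, hkp]
  push_cast
  ring

/-- **W2.** -/
theorem wk1 : WkStm 1 (25 / 10000) := by
  classical
  intro V
  have h4 := sum_pow (α := 4995 / 10000) (β := 1 / 2) (by norm_num) (by norm_num) (ε := 1 / 10000) (by norm_num)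
  obtain ⟨N₀, hN₀⟩ := eventually_atTop.1 (w2_big.and ((w2_loglog V).and h4))
  refine ⟨N₀, fun N hN n hn hnN => ?_⟩
  obtain ⟨hB, ⟨hL1, hBL⟩, hS⟩ := hN₀ N hN
  have hL0 : 0 < Real.log N := hB.L
  have hN1 : 1 ≤ N := by have := hB.two; omega
  have hN0 : (0 : ℝ) < N := by exact_mod_cast hN1
  have hNr1 : (1 : ℝ) ≤ N := by exact_mod_cast hN1
  have hn0' : (0 : ℝ) < n := lt_of_lt_of_le (by positivity) hnN
  have hn0 : 0 < n := by exact_mod_cast hn0'
  have h11 : Real.log ((1 / 2 : ℝ) / (4995 / 10000)) ≤ 11 / 10000 := by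
    have := Real.log_le_sub_one_of_pos (show (0 : ℝ) < (1 / 2 : ℝ) / (4995 / 10000) by norm_num)
    refine this.trans ?_
    norm_num
  have hS2 : SP (4995 / 10000) (1 / 2) N ≤ 12 / 10000 := by
    unfold SP PP
    linarith
  obtain ⟨L, hLd⟩ : ∃ L, L = Real.log (N : ℝ) := ⟨_, rfl⟩
  have hln : (1 - 1 / 5000) * L ≤ Real.log n := by
    have h1 := Real.log_le_log (by positivity) hnN
    rw [Real.log_div hN0.ne' (by positivity), Real.log_pow] at h1
    rw [hLd]
    linarith
  have hpowlog : ∀ a : ℝ, Real.log ((N : ℝ) ^ a) = a * L := fun a => by rw [Real.log_rpow hN0, hLd]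
  have hnpow : ∀ a : ℝ, a < 1 - 1 / 5000 → (N : ℝ) ^ a < n := by
    intro a ha
    rw [← Real.log_lt_log_iff (by positivity) hn0', hpowlog]
    have : a * L < (1 - 1 / 5000) * L := mul_lt_mul_of_pos_right ha (by rw [hLd]; exact hL0)
    linarith
  rw [← hLd] at hL0 hL1 ⊢
  have hsq := sqrt_half (N := N)
  have hT2n : T2 N < n := by
    have h1 : ((T2 N : ℕ) : ℝ) < n := lt_of_le_of_lt T2_real (hnpow _ (by norm_num))
    exact_mod_cast h1
  -- the summands
  have hprime : ∀ m ∈ mk N n 1, m.Prime ∧ m ∈ mm N n := by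
    intro m hm
    unfold mk at hm
    rw [mem_filter] at hm
    obtain ⟨hmm, hsf, hc⟩ := hm
    obtain ⟨p, hp⟩ := card_eq_one.1 hc
    have hpp : p.Prime := by
      have : p ∈ m.primeFactors := by rw [hp]; exact mem_singleton_self p
      exact Nat.prime_of_mem_primeFactors this
    have hprod := Nat.prod_primeFactors_of_squarefree hsf
    rw [hp, prod_singleton] at hprod
    rw [← hprod] at hmm ⊢
    exact ⟨hpp, hmm⟩
  have hterm : ∀ m ∈ mk N n 1, -(if m ∈ PP (4995 / 10000) (1 / 2) N then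
      1 / (4998 / 10000 : ℝ) * (1 / (m : ℝ)) else 0) ≤ L * (kap N n m * gg n m) := by
    intro m hm
    obtain ⟨hp, hmm⟩ := hprime m hm
    rw [mem_mm] at hmm
    obtain ⟨⟨hm1, hm2⟩, hm3, hm4⟩ := hmm
    have hmn0 : (0 : ℝ) < m := by exact_mod_cast hm1
    have hM : m ≤ MM N m := by
      unfold MM
      refine le_trans ?_ (le_max_left _ _)
      rw [hp.primeFactors, sup_singleton]
      exact le_rfl
    have hmmn : m * m < n := lt_of_le_of_lt (Nat.mul_le_mul_left m hM) hm4
    have hms : m ≤ Nat.sqrt N := by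
      rw [Nat.le_sqrt]
      omega
    have hk := w2_kap hp hms hN1 hT2n
    have hmhi : (m : ℝ) ≤ (N : ℝ) ^ (1 / 2 : ℝ) := (by exact_mod_cast hms : (m : ℝ) ≤ Nat.sqrt N).trans hsq
    rw [hk]
    by_cases hind : n ≤ m * Nat.sqrt N
    · rw [if_pos hind]
      have hmlo : (N : ℝ) ^ (4995 / 10000 : ℝ) < m := by
        by_contra hc
        rw [not_lt] at hc
        have e1 : (n : ℝ) ≤ (N : ℝ) ^ (9995 / 10000 : ℝ) := by
          calc (n : ℝ) ≤ (m : ℝ) * Nat.sqrt N := by exact_mod_cast hind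
            _ ≤ (N : ℝ) ^ (4995 / 10000 : ℝ) * (N : ℝ) ^ (1 / 2 : ℝ) := by gcongr
            _ = (N : ℝ) ^ (9995 / 10000 : ℝ) := by
                rw [← Real.rpow_add hN0]
                norm_num
        have e2 := hnpow (9995 / 10000) (by norm_num)
        linarith
      have hmem : m ∈ PP (4995 / 10000) (1 / 2) N := by
        rw [w2_PP_mem]
        refine ⟨⟨?_, Nat.le_floor hmhi⟩, hp⟩
        rw [Nat.floor_lt (by positivity)]
        exact hmlo
      rw [if_pos hmem]
      have h5 : (4998 / 10000 : ℝ) * L ≤ Real.log ((n : ℝ) / m) := by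
        rw [Real.log_div hn0'.ne' hmn0.ne']
        have e1 := Real.log_le_log hmn0 hmhi
        rw [hpowlog] at e1
        linarith
      have h6 := w2_term_le (n := (n : ℝ)) (k := 1) (K := 1) hL0 hmn0 (by norm_num : (0 : ℝ) < 4998 / 10000)
        (by norm_num) le_rfl h5
      unfold gg
      have e : L * (-1 * (1 / ((m : ℝ) * Real.log ((n : ℝ) / m)))) =
        -(1 * (L * (1 / ((m : ℝ) * Real.log ((n : ℝ) / m))))) := by ring
      rw [e]
      exact neg_le_neg h6
    · rw [if_neg hind]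
      simp only [neg_zero, zero_mul, mul_zero]
      split_ifs
      · have : 0 ≤ 1 / (4998 / 10000 : ℝ) * (1 / (m : ℝ)) := by positivity
        linarith
      · simp
  rw [mul_sum]
  refine le_trans ?_ (sum_le_sum hterm)
  rw [sum_neg_distrib]
  refine neg_le_neg ?_
  rw [← sum_filter]
  calc ∑ m ∈ (mk N n 1).filter (fun m => m ∈ PP (4995 / 10000) (1 / 2) N), 1 / (4998 / 10000 : ℝ) * (1 / (m : ℝ))
      ≤ ∑ m ∈ PP (4995 / 10000) (1 / 2) N, 1 / (4998 / 10000 : ℝ) * (1 / (m : ℝ)) := by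
        refine sum_le_sum_of_subset_of_nonneg (fun m hm => (mem_filter.1 hm).2) fun m _ _ => by positivity
    _ = 1 / (4998 / 10000 : ℝ) * SP (4995 / 10000) (1 / 2) N := by rw [← mul_sum]; rfl
    _ ≤ 1 / (4998 / 10000 : ℝ) * (12 / 10000) := mul_le_mul_of_nonneg_left hS2 (by norm_num)
    _ ≤ 25 / 10000 := by norm_num

end Pool.Agent.Helper34.GX
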