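import Pool.Agent.Helper34.GX.Stm
import Pool.Graph.R_pool_sql_team_seeded_47a924f7.T6.H3.FF.Wt2

set_option autoImplicit false

/-! The cells of the grid `1 / G`: the sum of `1 / p` over a cell and the cell of a prime. -/

namespace Pool.Agent.Helper34.GX

open Finset Filter Topology
open Pool.Agent.R453.GS (sum_pow)

lemma cell_mem {a b : ℝ} {N p : ℕ} : p ∈ PP a b N ↔ (⌊(N : ℝ) ^ a⌋₊ < p ∧ p ≤ ⌊(N : ℝ) ^ b⌋₊) ∧ p.Prime := by
  unfold PP
  rw [mem_filter, mem_Ioc]

/-- a prime lies in a cell -/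
lemma cell_locate {G N p b : ℕ} (hG : 6 ∣ G) (hG0 : 0 < G) (hp : p.Prime) (h1 : ZZ N < p) (hb : G / 6 ≤ b)
    (h2 : (p : ℝ) ≤ (N : ℝ) ^ ((b : ℝ) / G)) : ∃ u ∈ Ico (G / 6) b, p ∈ PU G u N := by
  induction b, hb using Nat.le_induction with
  | base =>
    exfalso
    have h3 : p ≤ ZZ N := by
      unfold ZZ
      apply Nat.le_floor
      obtain ⟨k, rfl⟩ := hG
      have hk : 0 < k := by omega
      have e : (((6 * k / 6 : ℕ) : ℝ) / ((6 * k : ℕ) : ℝ) : ℝ) = 1 / 6 := by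
        rw [Nat.mul_div_cancel_left _ (by norm_num)]
        have hk0 : (k : ℝ) ≠ 0 := by exact_mod_cast hk.ne'
        push_cast
        field_simp
      rwa [e] at h2
    omega
  | succ b hb ih =>
    by_cases h3 : (p : ℝ) ≤ (N : ℝ) ^ ((b : ℝ) / G)
    · obtain ⟨u, hu, hpu⟩ := ih h3
      refine ⟨u, ?_, hpu⟩
      rw [mem_Ico] at hu ⊢
      omega
    · refine ⟨b, mem_Ico.2 ⟨hb, by omega⟩, ?_⟩
      unfold PU
      rw [cell_mem]
      refine ⟨⟨?_, ?_⟩, hp⟩
      · by_contra h4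
        rw [not_lt] at h4
        apply h3
        have h5 : (p : ℝ) ≤ ((⌊(N : ℝ) ^ ((b : ℝ) / G)⌋₊ : ℕ) : ℝ) := by exact_mod_cast h4
        exact h5.trans (Nat.floor_le (by positivity))
      · apply Nat.le_floor
        push_cast at h2
        exact h2

/-- CELL -/
theorem cell (G : ℕ) (hG : 6 ∣ G) (hG0 : 0 < G) : CellStm G := by
  have hGr : (0 : ℝ) < G := by exact_mod_cast hG0
  have h1 : ∀ u ∈ Ico (G / 6) G, ∀ᶠ N : ℕ in atTop,
      SU G u N ≤ (1 / (u : ℝ) + 1 / ((u : ℝ) + 1)) / 2 + 1 / 1000000 := by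
    intro u hu
    rw [mem_Ico] at hu
    have hu1 : 0 < u := by omega
    have hu0 : (0 : ℝ) < u := by exact_mod_cast hu1
    have h2 := sum_pow (α := (u : ℝ) / G) (β := ((u : ℝ) + 1) / G) (by positivity) (by
      apply div_le_div_of_nonneg_right _ hGr.le
      linarith) (ε := 1 / 1000000) (by norm_num)
    filter_upwards [h2] with N hN
    unfold SU SP PP
    refine hN.trans ?_
    have e : ((u : ℝ) + 1) / G / ((u : ℝ) / G) = ((u : ℝ) + 1) / u := by field_simp
    rw [e]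
    have h3 := Pool.Agent.T6.H3.FF.log_step (u := u) (by omega)
    linarith
  have h1' := (Filter.eventually_all_finset (Ico (G / 6) G)).2 h1
  filter_upwards [h1'] with N hN
  exact ⟨hN, fun p b hp hZ hb h => cell_locate hG hG0 hp hZ hb h⟩

end Pool.Agent.Helper34.GX
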