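import Mathlib

set_option autoImplicit false

/-! Project GX: numerical upper bounds in fixed point arithmetic. -/

namespace Pool.Agent.Helper34.GX

open Finset

/-- `10 ^ 9` times the upper bound for the sum of `1/p` in the cell `u` (of any grid), rounded up -/
def lN (u : ℕ) : ℕ := (2 * u + 1) * 10 ^ 9 / (2 * u * (u + 1)) + 1 + 1000

/-- the weight of a product of two primes in two cells with the sum `t`, grid `1 / 1200`: upper bound for `-kap` -/
def w3 (t : ℕ) : ℕ :=
  if t + 2 ≤ 500 then 1 else if t + 2 ≤ 599 then 2 else if t + 1 ≤ 600 then 3 else if t + 2 ≤ 699 then 0 else 2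

/-- upper bound for the contribution of the cells `u`, `v`, times `10 ^ 9`, grid `1 / 1200` -/
def t3 (u v : ℕ) : ℕ :=
  if 1200 ≤ u + 2 * v then 0 else
    w3 (u + v) * 30000 * (lN u * lN v) / (max (29994 - 25 * (u + v + 2)) (25 * v) * 10 ^ 9) + 1

theorem num3 : ∑ u ∈ Ico 200 400, ∑ v ∈ Ico u 500, t3 u v ≤ 774000000 := by
  decide +kernel

/-- upper bound for `1` minus the weights of a couple of complementary pairs, one of them in two cells with the
sum `t`, grid `1 / 480` -/
def w4 (t : ℕ) : ℕ :=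
  if t ≤ 198 then 1 else if t ≤ 200 then 2 else if t ≤ 237 then 0 else if t ≤ 239 then 3 else
    if t ≤ 277 then 0 else if t ≤ 279 then 2 else 1

/-- upper bound for the contribution of the cells `u`, `v`, `w`, times `10 ^ 9`, grid `1 / 480` -/
def t4 (u v w : ℕ) : ℕ :=
  if 480 ≤ u + v + 2 * w then 0 else
    (w4 (u + v) + w4 (u + w) + w4 (v + w)) * 60000 * (lN u * lN v * lN w) /
      (max (59988 - 125 * (u + v + w + 3)) (125 * w) * 10 ^ 18) + 1

theorem num4 : ∑ u ∈ Ico 80 120, ∑ v ∈ Ico u 134, ∑ w ∈ Ico v 160, t4 u v w ≤ 108000000 := by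
  decide +kernel

/-- upper bound for the contribution of the cells `u`, `v`, `w`, `x`, times `10 ^ 9`, grid `1 / 240` -/
def t5 (u v w x : ℕ) : ℕ :=
  if 240 ≤ u + v + w + 2 * x then 0 else
    14 * 30000 * (lN u * lN v * lN w * lN x) /
      (max (29994 - 125 * (u + v + w + x + 4)) (125 * x) * 10 ^ 27) + 1

theorem num5 : ∑ u ∈ Ico 40 48, ∑ v ∈ Ico u 50, ∑ w ∈ Ico v 54, ∑ x ∈ Ico w 60, t5 u v w x ≤ 23000000 := by
  decide +kernel

end Pool.Agent.Helper34.GX
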