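import Pool.Agent.Helper34.GX.Wta
import Pool.Agent.Helper34.GX.Gl
import Pool.Agent.Helper34.GX.Cell
import Pool.Agent.Helper34.GX.Num

set_option autoImplicit false

/-! Module W3: the cofactors which are products of two primes. -/

namespace Pool.Agent.Helper34.GX

open Finset Filter Topology
open Pool.Agent.Helper34.GX.Gl (le_pow le_sqrt)

/-- the weight of a pair `y, n / m` for `m = y x` -/
noncomputable def VV (N n x : ℕ) : ℝ :=
  2 * (if n ≤ x * T2 N then 1 else 0) - 3 * (if n ≤ x * Nat.sqrt N then 1 else 0) + (if n ≤ x * T0 N then 1 else 0)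

lemma VV_ge {N n x : ℕ} (hN : 1 ≤ N) : -1 ≤ VV N n x := by
  have h1 := Nat.mul_le_mul_left x (T0_le_sqrt hN)
  have h2 := Nat.mul_le_mul_left x (sqrt_le_T2 hN)
  unfold VV
  split_ifs <;> first | omega | norm_num

lemma VV_ge' {N n x : ℕ} (hN : 1 ≤ N) (h : ¬ n ≤ x * Nat.sqrt N) : 0 ≤ VV N n x := by
  have h1 := Nat.mul_le_mul_left x (T0_le_sqrt hN)
  have h2 := Nat.mul_le_mul_left x (sqrt_le_T2 hN)
  unfold VV
  rw [if_neg h]
  split_ifs <;> first | omega | norm_num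

lemma VV_two {N n x : ℕ} (hN : 1 ≤ N) (h : ¬ n ≤ x * Nat.sqrt N) (h' : n ≤ x * T2 N) : VV N n x = 2 := by
  have h1 := Nat.mul_le_mul_left x (T0_le_sqrt hN)
  unfold VV
  rw [if_neg h, if_pos h', if_neg (by omega)]
  norm_num

lemma VV_zero {N n x : ℕ} (hN : 1 ≤ N) (h : ¬ n ≤ x * T2 N) : VV N n x = 0 := by
  have h1 := Nat.mul_le_mul_left x (T0_le_sqrt hN)
  have h2 := Nat.mul_le_mul_left x (sqrt_le_T2 hN)
  unfold VV
  rw [if_neg h, if_neg (by omega), if_neg (by omega)]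
  norm_num

lemma wk_not {N n x T : ℕ} {a : ℝ} (hN : 1 ≤ N) (hx : 1 ≤ x) (hn : 1 ≤ n) (hT : (T : ℝ) ≤ (N : ℝ) ^ a)
    (h : Real.log x + a * Real.log N < Real.log n) : ¬ n ≤ x * T := by
  intro hc
  have hN0 : (0 : ℝ) < N := by exact_mod_cast hN
  have hx0 : (0 : ℝ) < x := by exact_mod_cast hx
  have hn0 : (0 : ℝ) < n := by exact_mod_cast hn
  have h1 : (n : ℝ) ≤ x * (N : ℝ) ^ a := by
    calc (n : ℝ) ≤ ((x * T : ℕ) : ℝ) := by exact_mod_cast hc
      _ = x * T := by push_cast; ring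
      _ ≤ x * (N : ℝ) ^ a := mul_le_mul_of_nonneg_left hT hx0.le
  have h2 := Real.log_le_log hn0 h1
  rw [Real.log_mul hx0.ne' (by positivity), Real.log_rpow hN0] at h2
  linarith

/-- `n / x` is at most `T₂` -/
lemma wk_le {N n x : ℕ} (hN : 1 ≤ N) (hx : 1 ≤ x) (hnN : n ≤ N) (hL : 1000 ≤ Real.log N)
    (h : 201 / 480 * Real.log N ≤ Real.log x) : n ≤ x * T2 N := by
  have hN0 : (0 : ℝ) < N := by exact_mod_cast hN
  have hx0 : (0 : ℝ) < x := by exact_mod_cast hx
  have h1 : (N : ℝ) ^ (233 / 400 : ℝ) < (T2 N : ℝ) + 1 := Nat.lt_floor_add_one _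
  have h2 : (1 : ℝ) ≤ (N : ℝ) ^ (233 / 400 : ℝ) := Real.one_le_rpow (by exact_mod_cast hN) (by norm_num)
  have h0 : 1 ≤ T2 N := by
    unfold T2
    rw [Nat.one_le_floor_iff]
    exact h2
  have h3 : (1 : ℝ) ≤ T2 N := by exact_mod_cast h0
  have h4 : (N : ℝ) ^ (233 / 400 : ℝ) / 2 ≤ T2 N := by linarith
  have h5 : (N : ℝ) ≤ x * T2 N := by
    refine le_trans ?_ (mul_le_mul_of_nonneg_left h4 hx0.le)
    rw [← Real.log_le_log_iff hN0 (by positivity), Real.log_mul hx0.ne' (by positivity),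
      Real.log_div (by positivity) (by norm_num), Real.log_rpow hN0]
    have := Real.log_two_lt_d9
    linarith
  have h6 : ((n : ℕ) : ℝ) ≤ ((x * T2 N : ℕ) : ℝ) := by
    push_cast
    exact le_trans (by exact_mod_cast hnN) h5
  exact_mod_cast h6

lemma wk_lo {G u N p : ℕ} (hN : 1 ≤ N) (h : p ∈ PU G u N) : (u : ℝ) / G * Real.log N < Real.log p := by
  unfold PU at h
  rw [cell_mem] at h
  obtain ⟨⟨h1, -⟩, h3⟩ := h
  have h4 := (le_pow hN h3.one_le ((u : ℝ) / G)).not.1 (not_le.2 h1)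
  exact not_le.1 h4

lemma wk_hi {G u N p : ℕ} (hN : 1 ≤ N) (h : p ∈ PU G u N) : Real.log p ≤ ((u : ℝ) + 1) / G * Real.log N := by
  unfold PU at h
  rw [cell_mem] at h
  obtain ⟨⟨-, h1⟩, h3⟩ := h
  exact (le_pow hN h3.one_le (((u : ℝ) + 1) / G)).1 h1

/-- cells are ordered -/
lemma wk_cell_le {G N p q u v : ℕ} (hG : 0 < G) (hN : 1 ≤ N) (hp : p ∈ PU G u N) (hq : q ∈ PU G v N) (h : p ≤ q) :
    u ≤ v := by
  have hpp : p.Prime := by
    unfold PU at hp
    rw [cell_mem] at hp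
    exact hp.2
  by_contra hcon
  rw [not_le] at hcon
  have h1 := wk_lo hN hp
  have h2 := wk_hi hN hq
  have h3 : Real.log p ≤ Real.log q := Real.log_le_log (by exact_mod_cast hpp.pos) (by exact_mod_cast h)
  have h4 : (v : ℝ) + 1 ≤ u := by exact_mod_cast hcon
  have h5 : ((v : ℝ) + 1) / G * Real.log N ≤ (u : ℝ) / G * Real.log N :=
    mul_le_mul_of_nonneg_right (div_le_div_of_nonneg_right h4 (by positivity)) (Real.log_natCast_nonneg N)
  linarith

/-- a summand -/
lemma wk_term {L n m k K D : ℝ} (hL : 0 < L) (hm : 0 < m) (hD : 0 < D) (hk0 : 0 ≤ K) (hkK : k ≤ K)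
    (hlog : D * L ≤ Real.log (n / m)) : k * (L * (1 / (m * Real.log (n / m)))) ≤ K / D * (1 / m) := by
  have h1 : 0 < Real.log (n / m) := lt_of_lt_of_le (by positivity) hlog
  have h2 : L / Real.log (n / m) ≤ 1 / D := by
    rw [div_le_div_iff₀ h1 hD]
    linarith
  have h3 : 0 ≤ L / Real.log (n / m) := by positivity
  have e : k * (L * (1 / (m * Real.log (n / m)))) = k * (L / Real.log (n / m)) * (1 / m) := by
    field_simp
  have e2 : K / D * (1 / m) = K * (1 / D) * (1 / m) := by ring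
  rw [e, e2]
  refine mul_le_mul_of_nonneg_right ?_ (by positivity)
  calc k * (L / Real.log (n / m)) ≤ K * (L / Real.log (n / m)) := mul_le_mul_of_nonneg_right hkK h3
    _ ≤ K * (1 / D) := mul_le_mul_of_nonneg_left h2 hk0

/-- the conditions on `N` -/
structure WkC (G V N : ℕ) : Prop where
  big : Big N
  L : 1000 ≤ Real.log N
  V : V * Real.log (Real.log N) ≤ 1 / 5000 * Real.log N
  S : ∀ u ∈ Ico (G / 6) G, SU G u N ≤ (1 / (u : ℝ) + 1 / ((u : ℝ) + 1)) / 2 + 1 / 1000000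
  loc : ∀ (p b : ℕ), p.Prime → ZZ N < p → G / 6 ≤ b → (p : ℝ) ≤ (N : ℝ) ^ ((b : ℝ) / G) →
    ∃ u ∈ Ico (G / 6) b, p ∈ PU G u N

lemma wk_ev (G V : ℕ) (hG : 6 ∣ G) (hG0 : 0 < G) : ∃ N₀ : ℕ, ∀ N : ℕ, N₀ ≤ N → WkC G V N := by
  have hLT : Tendsto (fun N : ℕ => Real.log (N : ℝ)) atTop atTop :=
    Real.tendsto_log_atTop.comp tendsto_natCast_atTop_atTop
  have h5 : ∀ᶠ L : ℝ in atTop, V * Real.log L ≤ 1 / 5000 * L := by
    have h6 := Real.isLittleO_log_id_atTop.bound (show (0 : ℝ) < 1 / (5000 * (V + 1)) by positivity)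
    filter_upwards [h6, eventually_ge_atTop 1] with L h7 h8
    have h9 : 0 ≤ Real.log L := Real.log_nonneg h8
    rw [Real.norm_of_nonneg h9, id, Real.norm_of_nonneg (by linarith)] at h7
    have h10 : (V + 1 : ℝ) * Real.log L ≤ 1 / 5000 * L := by
      calc (V + 1 : ℝ) * Real.log L ≤ (V + 1 : ℝ) * (1 / (5000 * (V + 1)) * L) :=
            mul_le_mul_of_nonneg_left h7 (by positivity)
        _ = 1 / 5000 * L := by field_simp
    linarith
  have h := (big.and ((hLT.eventually_ge_atTop 1000).and (hLT.eventually h5))).and (cell G hG hG0)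
  obtain ⟨N₀, hN₀⟩ := eventually_atTop.1 h
  exact ⟨N₀, fun N hN => ⟨(hN₀ N hN).1.1, (hN₀ N hN).1.2.1, (hN₀ N hN).1.2.2, (hN₀ N hN).2.1, (hN₀ N hN).2.2⟩⟩

/-- the logarithm of `n` -/
lemma wk_logn {G V N n : ℕ} (h : WkC G V N) (hn : (N : ℝ) / Real.log N ^ V ≤ n) :
    1 ≤ n ∧ 4999 / 5000 * Real.log N ≤ Real.log n := by
  have hL := h.L
  have hL0 : 0 < Real.log N := by linarith
  have hN1 := h.big.one
  have hN0 : (0 : ℝ) < N := by exact_mod_cast hN1
  have hn0' : (0 : ℝ) < n := lt_of_lt_of_le (by positivity) hn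
  refine ⟨by exact_mod_cast hn0', ?_⟩
  have h1 := Real.log_le_log (by positivity) hn
  rw [Real.log_div hN0.ne' (by positivity), Real.log_pow] at h1
  have := h.V
  linarith

lemma wk_SU {G V N u : ℕ} (h : WkC G V N) (hu : u ∈ Ico (G / 6) G) (hG : 6 ≤ G) :
    SU G u N ≤ (lN u : ℝ) / 10 ^ 9 := by
  have h1 := h.S u hu
  refine h1.trans ?_
  rw [mem_Ico] at hu
  have hu1 : 1 ≤ u := by omega
  have hu0 : (0 : ℝ) < u := by exact_mod_cast hu1
  rw [le_div_iff₀ (by norm_num)]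
  have h2 : (((2 * u + 1) * 10 ^ 9 : ℕ) : ℝ) / ((2 * u * (u + 1) : ℕ) : ℝ) ≤
      (((2 * u + 1) * 10 ^ 9 / (2 * u * (u + 1)) : ℕ) : ℝ) + 1 := (Nat.lt_floor_add_one _).le.trans (by
        rw [Nat.floor_div_eq_div])
  unfold lN
  push_cast at h2 ⊢
  have h3 : ((1 / (u : ℝ) + 1 / ((u : ℝ) + 1)) / 2 + 1 / 1000000) * 10 ^ 9 =
      (2 * (u : ℝ) + 1) * 10 ^ 9 / (2 * u * (u + 1)) + 1000 := by
    field_simp
    ring
  rw [h3]
  linarith

lemma wk_SU_nonneg (G u N : ℕ) : 0 ≤ SU G u N := SP_nonneg _ _ _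

/-! ### two primes -/

lemma w3_pf {p q : ℕ} (hp : p.Prime) (hq : q.Prime) : (p * q).primeFactors = {p, q} := by
  rw [Nat.primeFactors_mul hp.ne_zero hq.ne_zero, hp.primeFactors, hq.primeFactors]
  rfl

lemma w3_prs {p q : ℕ} (hp : p.Prime) (hq : q.Prime) (hpq : p < q) : prs (p * q) = {(p, q)} := by
  unfold prs
  rw [w3_pf hp hq]
  ext ⟨a, b⟩
  simp only [mem_filter, mem_product, mem_insert, mem_singleton, Prod.mk.injEq]
  constructor
  · rintro ⟨⟨rfl | rfl, rfl | rfl⟩, h⟩ <;> omega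
  · rintro ⟨rfl, rfl⟩
    exact ⟨⟨Or.inl rfl, Or.inr rfl⟩, hpq⟩

lemma w3_om {N p q : ℕ} (hp : p.Prime) (hq : q.Prime) : (om N (p * q) : ℝ) ≤ 2 := by
  have h : om N (p * q) ≤ 2 := by
    unfold om
    refine (card_filter_le _ _).trans ?_
    rw [w3_pf hp hq]
    exact card_le_two
  exact_mod_cast h

lemma w3_kp {N n p q : ℕ} (hp : p.Prime) (hq : q.Prime) (hpq : p < q) :
    kp N n (p * q) = VV N n q + VV N n p := by
  unfold kp
  rw [w3_pf hp hq, sum_pair (by omega)]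
  unfold VV
  have e1 : ∀ T : ℕ, (p * n ≤ p * q * T) = (n ≤ q * T) := fun T => by
    rw [mul_assoc, Nat.mul_le_mul_left_iff hp.pos]
  have e2 : ∀ T : ℕ, (q * n ≤ p * q * T) = (n ≤ p * T) := fun T => by
    rw [mul_comm p q, mul_assoc, Nat.mul_le_mul_left_iff hq.pos]
  simp only [e1, e2]

/-- the weight is at most `w3` -/
lemma w3_kap {G V N n p q t : ℕ} (h : WkC G V N) (hln : 4999 / 5000 * Real.log N ≤ Real.log n) (hn : 1 ≤ n)
    (hp : p.Prime) (hq : q.Prime) (hpq : p < q) (hqh : Real.log q ≤ 5 / 12 * Real.log N)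
    (hlo : (t : ℝ) / 1200 * Real.log N < Real.log ((p * q : ℕ) : ℝ))
    (hhi : Real.log ((p * q : ℕ) : ℝ) ≤ ((t : ℝ) + 2) / 1200 * Real.log N) :
    -(kap N n (p * q)) ≤ (w3 t : ℝ) := by
  have hN1 := h.big.one
  have hL0 := h.big.L
  have hL := h.L
  have hm1 : 1 ≤ p * q := Nat.mul_pos hp.pos hq.pos
  have hom := w3_om (N := N) hp hq
  have hpr : pr N (p * q) = vv N (p * q) := by
    unfold pr
    rw [w3_prs hp hq hpq, sum_singleton]
  have hlp : Real.log p ≤ Real.log q := Real.log_le_log (by exact_mod_cast hp.pos) (by exact_mod_cast hpq.le)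
  have hkp : kp N n (p * q) = 0 := by
    rw [w3_kp hp hq hpq, VV_zero hN1, VV_zero hN1, add_zero]
    · apply wk_not hN1 hp.one_le hn T2_real
      linarith
    · apply wk_not hN1 hq.one_le hn T2_real
      linarith
  have hvv := vv_ge hN1 (p * q)
  have hi0 : (if n ≤ p * q * Nat.sqrt N then (1 : ℝ) else 0) ≤ 1 := by split_ifs <;> norm_num
  unfold kap
  rw [hpr, hkp]
  unfold w3
  by_cases c1 : t + 2 ≤ 500
  · rw [if_pos c1]
    have c1' : (t : ℝ) + 2 ≤ 500 := by exact_mod_cast c1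
    have d1 : Real.log ((p * q : ℕ) : ℝ) ≤ 5 / 12 * Real.log N := by
      refine hhi.trans (mul_le_mul_of_nonneg_right ?_ hL0.le)
      linarith
    have d2 : p * q ≤ T0 N := (le_pow hN1 hm1 _).2 d1
    have d3 : vv N (p * q) = 0 := by
      have := T0_le_sqrt hN1
      have := sqrt_le_T2 hN1
      unfold vv
      rw [if_pos (by omega), if_pos (by omega), if_pos d2]
      norm_num
    have d4 : ¬ n ≤ p * q * Nat.sqrt N := by
      apply wk_not hN1 hm1 hn sqrt_half
      linarith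
    rw [d3, if_neg d4]
    push_cast
    linarith
  rw [if_neg c1]
  by_cases c2 : t + 2 ≤ 599
  · rw [if_pos c2]
    have c2' : (t : ℝ) + 2 ≤ 599 := by exact_mod_cast c2
    have d1 : Real.log ((p * q : ℕ) : ℝ) ≤ 599 / 1200 * Real.log N := by
      refine hhi.trans (mul_le_mul_of_nonneg_right ?_ hL0.le)
      linarith
    have d4 : ¬ n ≤ p * q * Nat.sqrt N := by
      apply wk_not hN1 hm1 hn sqrt_half
      linarith
    rw [if_neg d4]
    push_cast
    linarith
  rw [if_neg c2]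
  by_cases c3 : t + 1 ≤ 600
  · rw [if_pos c3]
    push_cast
    linarith
  rw [if_neg c3]
  have c3' : (600 : ℝ) ≤ t := by exact_mod_cast (by omega : 600 ≤ t)
  have d1 : 1 / 2 * Real.log N < Real.log ((p * q : ℕ) : ℝ) := by
    refine lt_of_le_of_lt (mul_le_mul_of_nonneg_right ?_ hL0.le) hlo
    linarith
  have d2 : ¬ p * q ≤ Nat.sqrt N := by
    rw [le_sqrt hN1 hm1]
    exact not_le.2 d1
  have hT0 := T0_le_sqrt hN1
  by_cases c4 : t + 2 ≤ 699
  · rw [if_pos c4]
    have c4' : (t : ℝ) + 2 ≤ 699 := by exact_mod_cast c4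
    have d3 : Real.log ((p * q : ℕ) : ℝ) ≤ 233 / 400 * Real.log N := by
      refine hhi.trans (mul_le_mul_of_nonneg_right ?_ hL0.le)
      linarith
    have d4 : p * q ≤ T2 N := (le_pow hN1 hm1 _).2 d3
    have d5 : vv N (p * q) = 2 := by
      unfold vv
      rw [if_pos d4, if_neg d2, if_neg (by omega)]
      norm_num
    rw [d5]
    push_cast
    linarith
  · rw [if_neg c4]
    have d5 : 0 ≤ vv N (p * q) := by
      unfold vv
      rw [if_neg d2, if_neg (by omega : ¬ p * q ≤ T0 N)]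
      split_ifs <;> norm_num
    push_cast
    linarith

lemma wk_natdiv (a b : ℕ) : (a : ℝ) / b ≤ ((a / b : ℕ) : ℝ) + 1 := by
  have h := (Nat.lt_floor_add_one ((a : ℝ) / b)).le
  rwa [Nat.floor_div_eq_div] at h

lemma wk_powle {N p : ℕ} {a : ℝ} (hN : 1 ≤ N) (hp : 1 ≤ p) (h : Real.log p ≤ a * Real.log N) :
    (p : ℝ) ≤ (N : ℝ) ^ a := by
  have hN0 : (0 : ℝ) < N := by exact_mod_cast hN
  have hp0 : (0 : ℝ) < p := by exact_mod_cast hp
  rw [← Real.log_le_log_iff hp0 (by positivity), Real.log_rpow hN0]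
  exact h

lemma wk_Z {N p : ℕ} (hN : 1 ≤ N) (hp : 1 ≤ p) (h : ZZ N < p) : 1 / 6 * Real.log N < Real.log p := by
  have h4 := (le_pow hN hp (1 / 6)).not.1 (not_le.2 h)
  exact not_le.1 h4

lemma w3_shape {N n m : ℕ} (hm : m ∈ mk N n 2) : ∃ p q : ℕ, m = p * q ∧ p.Prime ∧ q.Prime ∧ ZZ N < p ∧ ZZ N < q ∧
    p < q ∧ p * q * q < n := by
  unfold mk at hm
  rw [mem_filter] at hm
  obtain ⟨hmm, hsf, hc⟩ := hm
  have key : ∀ x y : ℕ, x < y → m.primeFactors = {x, y} → ∃ p q : ℕ, m = p * q ∧ p.Prime ∧ q.Prime ∧ ZZ N < p ∧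
      ZZ N < q ∧ p < q ∧ p * q * q < n := by
    intro x y hxy hpf
    have hx : x ∈ m.primeFactors := by rw [hpf]; simp
    have hy : y ∈ m.primeFactors := by rw [hpf]; simp
    have hprod := Nat.prod_primeFactors_of_squarefree hsf
    rw [hpf, prod_pair (by omega)] at hprod
    rw [mem_mm] at hmm
    refine ⟨x, y, hprod.symm, Nat.prime_of_mem_primeFactors hx, Nat.prime_of_mem_primeFactors hy, hmm.2.1 x hx,
      hmm.2.1 y hy, hxy, ?_⟩
    rw [hprod]
    exact lt_of_le_of_lt (Nat.mul_le_mul_left m (le_MM hy)) hmm.2.2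
  obtain ⟨x, y, hxy, hpf⟩ := card_eq_two.1 hc
  rcases lt_or_gt_of_ne hxy with h | h
  · exact key x y h hpf
  · exact key y x h (by rw [hpf, pair_comm])

/-- the coefficient of two cells -/
noncomputable def cc3 (u v : ℕ) : ℝ :=
  if 1200 ≤ u + 2 * v then 0 else (w3 (u + v) : ℝ) / (((max (29994 - 25 * (u + v + 2)) (25 * v) : ℕ) : ℝ) / 30000)

lemma cc3_nonneg (u v : ℕ) : 0 ≤ cc3 u v := by
  unfold cc3
  split_ifs <;> positivity

lemma cc3_le {V N u v : ℕ} (h : WkC 1200 V N) (hu : u ∈ Ico 200 1200) (hv : v ∈ Ico 200 1200) :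
    cc3 u v * (SU 1200 u N * SU 1200 v N) ≤ (t3 u v : ℝ) / 10 ^ 9 := by
  have h1 := wk_SU h (u := u) (by simpa using hu) (by norm_num)
  have h2 := wk_SU h (u := v) (by simpa using hv) (by norm_num)
  unfold cc3 t3
  split_ifs with hc
  · simp
  · rw [mem_Ico] at hu hv
    obtain ⟨M, hM⟩ : ∃ M, M = max (29994 - 25 * (u + v + 2)) (25 * v) := ⟨_, rfl⟩
    rw [← hM]
    have hM1 : 1 ≤ M := by
      have := le_max_right (29994 - 25 * (u + v + 2)) (25 * v)
      omega
    have hM0 : (0 : ℝ) < M := by exact_mod_cast hM1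
    have h3 := wk_natdiv (w3 (u + v) * 30000 * (lN u * lN v)) (M * 10 ^ 9)
    rw [le_div_iff₀ (by norm_num)]
    push_cast at h3 ⊢
    refine le_trans ?_ h3
    have h4 : SU 1200 u N * SU 1200 v N ≤ (lN u : ℝ) / 10 ^ 9 * ((lN v : ℝ) / 10 ^ 9) :=
      mul_le_mul h1 h2 (wk_SU_nonneg 1200 v N) (div_nonneg (Nat.cast_nonneg _) (by norm_num))
    calc (w3 (u + v) : ℝ) / ((M : ℝ) / 30000) * (SU 1200 u N * SU 1200 v N) * 10 ^ 9 ≤
        (w3 (u + v) : ℝ) / ((M : ℝ) / 30000) * ((lN u : ℝ) / 10 ^ 9 * ((lN v : ℝ) / 10 ^ 9)) * 10 ^ 9 := by gcongr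
      _ = _ := by
        field_simp
        ring

/-- **W3.** -/
theorem wk2 : WkStm 2 (7750 / 10000) := by
  classical
  intro V
  obtain ⟨N₀, hN₀⟩ := wk_ev 1200 V (by norm_num) (by norm_num)
  refine ⟨N₀, fun N hN n hn hnN => ?_⟩
  have hC := hN₀ N hN
  obtain ⟨hn1, hln⟩ := wk_logn hC hnN
  have hN1 := hC.big.one
  have hL0 := hC.big.L
  have hN0 : (0 : ℝ) < N := by exact_mod_cast hN1
  have hn0 : (0 : ℝ) < n := by exact_mod_cast hn1
  have hln2 : Real.log n ≤ Real.log N := Real.log_le_log hn0 (by exact_mod_cast hn)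
  obtain ⟨T, hT⟩ : ∃ T : Finset (Σ _ : ℕ, Σ _ : ℕ, ℕ × ℕ), T =
      (Ico 200 400).sigma (fun u => (Ico u 500).sigma (fun v => PU 1200 u N ×ˢ PU 1200 v N)) := ⟨_, rfl⟩
  obtain ⟨F, hF⟩ : ∃ F : ℕ → ℝ, F = fun m => -(kap N n m) *
      (Real.log N * (1 / ((m : ℝ) * Real.log ((n : ℝ) / m)))) := ⟨_, rfl⟩
  obtain ⟨H, hH⟩ : ∃ H : (Σ _ : ℕ, Σ _ : ℕ, ℕ × ℕ) → ℝ, H = fun t => cc3 t.1 t.2.1 *
      ((1 : ℝ) / t.2.2.1 * (1 / t.2.2.2)) := ⟨_, rfl⟩
  have hcov := sum_cover (mk N n 2) T (fun t => t.2.2.1 * t.2.2.2) F H (by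
      intro t _
      rw [hH]
      exact mul_nonneg (cc3_nonneg _ _) (by positivity)) (by
      intro m hm
      obtain ⟨p, q, e1, hp, hq, hZp, hZq, hpq, hn3⟩ := w3_shape hm
      have hp0 : (0 : ℝ) < p := by exact_mod_cast hp.pos
      have hq0 : (0 : ℝ) < q := by exact_mod_cast hq.pos
      have lp := wk_Z hN1 hp.one_le hZp
      have lpq : Real.log p ≤ Real.log q := Real.log_le_log hp0 (by exact_mod_cast hpq.le)
      have l3 : Real.log p + 2 * Real.log q < Real.log n := by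
        have h1 : ((p * q * q : ℕ) : ℝ) < n := by exact_mod_cast hn3
        push_cast at h1
        have h2 := Real.log_lt_log (by positivity) h1
        rw [Real.log_mul (by positivity) hq0.ne', Real.log_mul hp0.ne' hq0.ne'] at h2
        linarith
      have hpow1 : (p : ℝ) ≤ (N : ℝ) ^ (((400 : ℕ) : ℝ) / ((1200 : ℕ) : ℝ)) := by
        apply wk_powle hN1 hp.one_le
        push_cast
        linarith
      have hpow2 : (q : ℝ) ≤ (N : ℝ) ^ (((500 : ℕ) : ℝ) / ((1200 : ℕ) : ℝ)) := by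
        apply wk_powle hN1 hq.one_le
        push_cast
        linarith
      obtain ⟨u, hu, hpu⟩ := hC.loc p 400 hp hZp (by norm_num) hpow1
      obtain ⟨v, hv, hqv⟩ := hC.loc q 500 hq hZq (by norm_num) hpow2
      have huv := wk_cell_le (by norm_num) hN1 hpu hqv hpq.le
      rw [mem_Ico] at hu hv
      norm_num at hu hv
      have a1 := wk_lo hN1 hpu
      have a2 := wk_hi hN1 hpu
      have a3 := wk_lo hN1 hqv
      have a4 := wk_hi hN1 hqv
      push_cast at a1 a2 a3 a4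
      have hmreal : (m : ℝ) = p * q := by rw [e1]; push_cast; ring
      have hm0 : (0 : ℝ) < m := by rw [hmreal]; positivity
      have lm : Real.log m = Real.log p + Real.log q := by
        rw [hmreal, Real.log_mul hp0.ne' hq0.ne']
      refine ⟨⟨u, ⟨v, (p, q)⟩⟩, ?_, e1.symm, ?_⟩
      · rw [hT]
        simp only [mem_sigma, mem_product, mem_Ico]
        exact ⟨hu, ⟨huv, hv.2⟩, hpu, hqv⟩
      · rw [hF, hH]
        have hnot : ¬ 1200 ≤ u + 2 * v := by
          intro hc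
          have hcr : (1200 : ℝ) ≤ u + 2 * v := by exact_mod_cast hc
          have k1 : 1200 / 1200 * Real.log N ≤ ((u : ℝ) + 2 * v) / 1200 * Real.log N := by gcongr
          have k2 : ((u : ℝ) + 2 * v) / 1200 * Real.log N = (u : ℝ) / 1200 * Real.log N +
            2 * ((v : ℝ) / 1200 * Real.log N) := by ring
          linarith
        have hk : -(kap N n m) ≤ (w3 (u + v) : ℝ) := by
          rw [e1]
          refine w3_kap (t := u + v) hC hln hn1 hp hq hpq (by linarith) ?_ ?_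
          · push_cast
            rw [Real.log_mul hp0.ne' hq0.ne']
            have : ((u : ℝ) + v) / 1200 * Real.log N = (u : ℝ) / 1200 * Real.log N + (v : ℝ) / 1200 * Real.log N := by
              ring
            linarith
          · push_cast
            rw [Real.log_mul hp0.ne' hq0.ne']
            have : ((u : ℝ) + v + 2) / 1200 * Real.log N = ((u : ℝ) + 1) / 1200 * Real.log N +
                ((v : ℝ) + 1) / 1200 * Real.log N := by
              ring
            linarith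
        have hlnm : Real.log ((n : ℝ) / m) = Real.log n - Real.log p - Real.log q := by
          rw [Real.log_div hn0.ne' hm0.ne', lm]
          ring
        have hD2 : ((25 * v : ℕ) : ℝ) / 30000 * Real.log N ≤ Real.log ((n : ℝ) / m) := by
          rw [hlnm]
          push_cast
          linarith
        have hD1 : ((29994 - 25 * (u + v + 2) : ℕ) : ℝ) / 30000 * Real.log N ≤ Real.log ((n : ℝ) / m) := by
          by_cases hc : 25 * (u + v + 2) ≤ 29994
          · rw [Nat.cast_sub hc, hlnm]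
            push_cast
            linarith
          · rw [Nat.sub_eq_zero_of_le (by omega)]
            refine le_trans ?_ hD2
            rw [Nat.cast_zero, zero_div, zero_mul]
            positivity
        have hDmax : (((max (29994 - 25 * (u + v + 2)) (25 * v) : ℕ) : ℝ) / 30000) * Real.log N ≤
            Real.log ((n : ℝ) / m) := by
          rcases le_total (29994 - 25 * (u + v + 2)) (25 * v) with hc | hc
          · rw [max_eq_right hc]; exact hD2
          · rw [max_eq_left hc]; exact hD1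
        have hDpos : (0 : ℝ) < ((max (29994 - 25 * (u + v + 2)) (25 * v) : ℕ) : ℝ) / 30000 := by
          have h1 : 1 ≤ max (29994 - 25 * (u + v + 2)) (25 * v) := by
            have := le_max_right (29994 - 25 * (u + v + 2)) (25 * v)
            omega
          have h2 : (0 : ℝ) < ((max (29994 - 25 * (u + v + 2)) (25 * v) : ℕ) : ℝ) := by exact_mod_cast h1
          positivity
        have hfin := wk_term (n := (n : ℝ)) hL0 hm0 hDpos (Nat.cast_nonneg _) hk hDmax
        refine hfin.trans (le_of_eq ?_)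
        unfold cc3
        simp only
        rw [if_neg hnot, hmreal, one_div_mul_one_div])
  -- the sum over the cover
  have hsum : ∑ t ∈ T, H t ≤ 774 / 1000 := by
    rw [hT, hH, sum_sigma]
    simp only [sum_sigma, sum_product]
    have e : ∀ u v : ℕ, ∑ x ∈ PU 1200 u N, ∑ y ∈ PU 1200 v N, cc3 u v * ((1 : ℝ) / x * (1 / y)) =
        cc3 u v * (SU 1200 u N * SU 1200 v N) := by
      intro u v
      unfold SU SP PU
      rw [sum_mul_sum, mul_sum]
      refine sum_congr rfl fun x _ => ?_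
      rw [mul_sum]
    simp only [e]
    have h1 : ∑ u ∈ Ico 200 400, ∑ v ∈ Ico u 500, (t3 u v : ℝ) / 10 ^ 9 ≤ 774 / 1000 := by
      have h0 : ((∑ u ∈ Ico 200 400, ∑ v ∈ Ico u 500, t3 u v : ℕ) : ℝ) ≤ ((774000000 : ℕ) : ℝ) := by
        exact_mod_cast num3
      push_cast at h0
      simp only [← sum_div]
      rw [div_le_iff₀ (by norm_num)]
      refine h0.trans ?_
      norm_num
    refine le_trans (sum_le_sum fun u hu => sum_le_sum fun v hv => ?_) h1
    rw [mem_Ico] at hu hv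
    exact cc3_le hC (mem_Ico.2 ⟨hu.1, by omega⟩) (mem_Ico.2 ⟨by omega, by omega⟩)
  have hfinal : Real.log N * ∑ m ∈ mk N n 2, kap N n m * gg n m = -∑ m ∈ mk N n 2, F m := by
    rw [mul_sum, ← sum_neg_distrib, hF]
    refine sum_congr rfl fun m _ => ?_
    unfold gg
    ring
  rw [hfinal]
  linarith

end Pool.Agent.Helper34.GX
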