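import Pool.Agent.Helper34.GX.W3

set_option autoImplicit false

/-! Module W4: the cofactors which are products of three primes. -/

namespace Pool.Agent.Helper34.GX

open Finset Filter Topology
open Pool.Agent.Helper34.GX.Gl (le_pow le_sqrt)

/-- a couple of complementary pairs -/
lemma w4_pair {G V N n x t : ℕ} (h : WkC G V N) (hln : 4999 / 5000 * Real.log N ≤ Real.log n) (hn : 1 ≤ n)
    (hnN : n ≤ N) (hx : 1 ≤ x) (ht : t ≤ 277) (hlo : (t : ℝ) / 480 * Real.log N < Real.log x)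
    (hhi : Real.log x ≤ ((t : ℝ) + 2) / 480 * Real.log N) :
    1 - (vv N x + VV N n x) ≤ (w4 t : ℝ) := by
  have hN1 := h.big.one
  have hL0 := h.big.L
  have hL := h.L
  have hvv := vv_ge hN1 x
  have hVV := VV_ge (N := N) (n := n) (x := x) hN1
  have hhi' : ∀ a : ℝ, (t : ℝ) + 2 ≤ a → Real.log x ≤ a / 480 * Real.log N := fun a ha =>
    hhi.trans (mul_le_mul_of_nonneg_right (by linarith) hL0.le)
  have hlo' : ∀ a : ℝ, a ≤ (t : ℝ) → a / 480 * Real.log N < Real.log x := fun a ha =>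
    lt_of_le_of_lt (mul_le_mul_of_nonneg_right (by linarith) hL0.le) hlo
  have hT0 := T0_le_sqrt hN1
  have hT2 := sqrt_le_T2 hN1
  unfold w4
  by_cases c1 : t ≤ 198
  · rw [if_pos c1]
    have c1' : (t : ℝ) ≤ 198 := by exact_mod_cast c1
    have d1 := hhi' 200 (by linarith)
    have d2 : x ≤ T0 N := (le_pow hN1 hx _).2 (by linarith)
    have d3 : vv N x = 0 := by
      unfold vv
      rw [if_pos (by omega), if_pos (by omega), if_pos d2]
      norm_num
    have d4 : VV N n x = 0 := by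
      apply VV_zero hN1
      apply wk_not hN1 hx hn T2_real
      linarith
    rw [d3, d4]
    norm_num
  rw [if_neg c1]
  by_cases c2 : t ≤ 200
  · rw [if_pos c2]
    have c2' : (t : ℝ) ≤ 200 := by exact_mod_cast c2
    have d1 := hhi' 202 (by linarith)
    have d4 : 0 ≤ VV N n x := by
      apply VV_ge' hN1
      apply wk_not hN1 hx hn sqrt_half
      linarith
    push_cast
    linarith
  rw [if_neg c2]
  by_cases c3 : t ≤ 237
  · rw [if_pos c3]
    have c3' : (t : ℝ) ≤ 237 := by exact_mod_cast c3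
    have c3'' : (201 : ℝ) ≤ t := by exact_mod_cast (by omega : 201 ≤ t)
    have d1 := hhi' 239 (by linarith)
    have d2 := hlo' 201 c3''
    have d4 : VV N n x = 2 := by
      apply VV_two hN1
      · apply wk_not hN1 hx hn sqrt_half
        linarith
      · exact wk_le hN1 hx hnN hL (by linarith)
    push_cast
    linarith
  rw [if_neg c3]
  by_cases c4 : t ≤ 239
  · rw [if_pos c4]
    push_cast
    linarith
  rw [if_neg c4, if_pos ht]
  have c5 : (240 : ℝ) ≤ t := by exact_mod_cast (by omega : 240 ≤ t)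
  have c5' : (t : ℝ) ≤ 277 := by exact_mod_cast ht
  have d1 := hlo' 240 c5
  have d2 := hhi' 279 (by linarith)
  have d3 : ¬ x ≤ Nat.sqrt N := by
    rw [le_sqrt hN1 hx]
    linarith
  have d4 : x ≤ T2 N := (le_pow hN1 hx _).2 (by linarith)
  have d5 : vv N x = 2 := by
    unfold vv
    rw [if_pos d4, if_neg d3, if_neg (by omega)]
    norm_num
  push_cast
  linarith

lemma w4_pf {p q r : ℕ} (hp : p.Prime) (hq : q.Prime) (hr : r.Prime) : (p * q * r).primeFactors = {p, q, r} := by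
  rw [Nat.primeFactors_mul (Nat.mul_ne_zero hp.ne_zero hq.ne_zero) hr.ne_zero, w3_pf hp hq, hr.primeFactors]
  ext x
  simp only [mem_union, mem_insert, mem_singleton]
  tauto

lemma w4_prs {p q r : ℕ} (hp : p.Prime) (hq : q.Prime) (hr : r.Prime) (hpq : p < q) (hqr : q < r) :
    prs (p * q * r) = {(p, q), (p, r), (q, r)} := by
  unfold prs
  rw [w4_pf hp hq hr]
  ext ⟨a, b⟩
  simp only [mem_filter, mem_product, mem_insert, mem_singleton, Prod.mk.injEq]
  constructor
  · rintro ⟨⟨rfl | rfl | rfl, rfl | rfl | rfl⟩, h⟩ <;> omega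
  · rintro (⟨rfl, rfl⟩ | ⟨rfl, rfl⟩ | ⟨rfl, rfl⟩)
    · exact ⟨⟨Or.inl rfl, Or.inr (Or.inl rfl)⟩, hpq⟩
    · exact ⟨⟨Or.inl rfl, Or.inr (Or.inr rfl)⟩, by omega⟩
    · exact ⟨⟨Or.inr (Or.inl rfl), Or.inr (Or.inr rfl)⟩, hqr⟩

lemma w4_om {N p q r : ℕ} (hp : p.Prime) (hq : q.Prime) (hr : r.Prime) : (om N (p * q * r) : ℝ) ≤ 3 := by
  have h : om N (p * q * r) ≤ 3 := by
    unfold om
    refine (card_filter_le _ _).trans ?_
    rw [w4_pf hp hq hr]
    exact card_le_three
  exact_mod_cast h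

lemma w4_pr {N p q r : ℕ} (hp : p.Prime) (hq : q.Prime) (hr : r.Prime) (hpq : p < q) (hqr : q < r) :
    pr N (p * q * r) = vv N (p * q) + vv N (p * r) + vv N (q * r) := by
  unfold pr
  rw [w4_prs hp hq hr hpq hqr, sum_insert, sum_insert, sum_singleton, add_assoc]
  · simp only [mem_singleton, Prod.mk.injEq]
    omega
  · simp only [mem_insert, mem_singleton, Prod.mk.injEq]
    omega

lemma w4_kp {N n p q r : ℕ} (hp : p.Prime) (hq : q.Prime) (hr : r.Prime) (hpq : p < q) (hqr : q < r) :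
    kp N n (p * q * r) = VV N n (q * r) + VV N n (p * r) + VV N n (p * q) := by
  unfold kp
  rw [w4_pf hp hq hr, sum_insert, sum_insert, sum_singleton, ← add_assoc]
  · unfold VV
    have e1 : ∀ T : ℕ, (p * n ≤ p * q * r * T) = (n ≤ q * r * T) := fun T => by
      rw [show p * q * r * T = p * (q * r * T) by ring, Nat.mul_le_mul_left_iff hp.pos]
    have e2 : ∀ T : ℕ, (q * n ≤ p * q * r * T) = (n ≤ p * r * T) := fun T => by
      rw [show p * q * r * T = q * (p * r * T) by ring, Nat.mul_le_mul_left_iff hq.pos]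
    have e3 : ∀ T : ℕ, (r * n ≤ p * q * r * T) = (n ≤ p * q * T) := fun T => by
      rw [show p * q * r * T = r * (p * q * T) by ring, Nat.mul_le_mul_left_iff hr.pos]
    simp only [e1, e2, e3]
  · simp only [mem_singleton]
    omega
  · simp only [mem_insert, mem_singleton]
    omega

/-- the weight -/
lemma w4_kap {N n p q r : ℕ} (hp : p.Prime) (hq : q.Prime) (hr : r.Prime) (hpq : p < q) (hqr : q < r) {a b c : ℝ}
    (h1 : 1 - (vv N (p * q) + VV N n (p * q)) ≤ a) (h2 : 1 - (vv N (p * r) + VV N n (p * r)) ≤ b)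
    (h3 : 1 - (vv N (q * r) + VV N n (q * r)) ≤ c) : -(kap N n (p * q * r)) ≤ a + b + c := by
  have hom := w4_om (N := N) hp hq hr
  have hi0 : (if n ≤ p * q * r * Nat.sqrt N then (1 : ℝ) else 0) ≤ 1 := by split_ifs <;> norm_num
  unfold kap
  rw [w4_pr hp hq hr hpq hqr, w4_kp hp hq hr hpq hqr]
  linarith

lemma w4_shape {N n m : ℕ} (hm : m ∈ mk N n 3) : ∃ p q r : ℕ, m = p * q * r ∧ p.Prime ∧ q.Prime ∧ r.Prime ∧
    ZZ N < p ∧ ZZ N < q ∧ ZZ N < r ∧ p < q ∧ q < r ∧ p * q * r * r < n := by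
  unfold mk at hm
  rw [mem_filter] at hm
  obtain ⟨hmm, hsf, hc⟩ := hm
  have key : ∀ x y z : ℕ, x < y → y < z → m.primeFactors = {x, y, z} → ∃ p q r : ℕ, m = p * q * r ∧ p.Prime ∧
      q.Prime ∧ r.Prime ∧ ZZ N < p ∧ ZZ N < q ∧ ZZ N < r ∧ p < q ∧ q < r ∧ p * q * r * r < n := by
    intro x y z hxy hyz hpf
    have hx : x ∈ m.primeFactors := by rw [hpf]; simp
    have hy : y ∈ m.primeFactors := by rw [hpf]; simp
    have hz : z ∈ m.primeFactors := by rw [hpf]; simp
    have hprod := Nat.prod_primeFactors_of_squarefree hsf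
    rw [hpf, prod_insert (by simp only [mem_insert, mem_singleton]; omega), prod_pair (by omega),
      ← mul_assoc] at hprod
    rw [mem_mm] at hmm
    refine ⟨x, y, z, hprod.symm, Nat.prime_of_mem_primeFactors hx, Nat.prime_of_mem_primeFactors hy,
      Nat.prime_of_mem_primeFactors hz, hmm.2.1 x hx, hmm.2.1 y hy, hmm.2.1 z hz, hxy, hyz, ?_⟩
    rw [hprod]
    exact lt_of_le_of_lt (Nat.mul_le_mul_left m (le_MM hz)) hmm.2.2
  obtain ⟨x, y, z, hxy, hxz, hyz, hpf⟩ := card_eq_three.1 hc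
  have hperm : ∀ a b c : ℕ, (∀ w, (w = x ∨ w = y ∨ w = z) ↔ (w = a ∨ w = b ∨ w = c)) →
      m.primeFactors = {a, b, c} := by
    intro a b c h
    rw [hpf]
    ext w
    simp only [mem_insert, mem_singleton]
    exact h w
  rcases lt_or_gt_of_ne hxy with h | h <;> rcases lt_or_gt_of_ne hxz with h' | h' <;>
    rcases lt_or_gt_of_ne hyz with h'' | h''
  · exact key x y z h h'' hpf
  · exact key x z y h' h'' (hperm _ _ _ (by tauto))
  · omega
  · exact key z x y h' h (hperm _ _ _ (by tauto))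
  · exact key y x z h h' (hperm _ _ _ (by tauto))
  · omega
  · exact key y z x h'' h' (hperm _ _ _ (by tauto))
  · exact key z y x h'' h (hperm _ _ _ (by tauto))

/-- the coefficient of three cells -/
noncomputable def cc4 (u v w : ℕ) : ℝ :=
  if 480 ≤ u + v + 2 * w then 0 else ((w4 (u + v) : ℝ) + w4 (u + w) + w4 (v + w)) /
    (((max (59988 - 125 * (u + v + w + 3)) (125 * w) : ℕ) : ℝ) / 60000)

lemma cc4_nonneg (u v w : ℕ) : 0 ≤ cc4 u v w := by
  unfold cc4
  split_ifs <;> positivity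

lemma w4_num {S₁ S₂ S₃ : ℝ} {A B C K M : ℕ} (hM : 1 ≤ M) (h1 : S₁ ≤ (A : ℝ) / 10 ^ 9) (h2 : S₂ ≤ (B : ℝ) / 10 ^ 9)
    (h3 : S₃ ≤ (C : ℝ) / 10 ^ 9) (h20 : 0 ≤ S₂) (h30 : 0 ≤ S₃) :
    (K : ℝ) / ((M : ℝ) / 60000) * (S₁ * S₂ * S₃) ≤
      ((K * 60000 * (A * B * C) / (M * 10 ^ 18) + 1 : ℕ) : ℝ) / 10 ^ 9 := by
  have hM0 : (0 : ℝ) < M := by exact_mod_cast hM
  have h4 := wk_natdiv (K * 60000 * (A * B * C)) (M * 10 ^ 18)
  rw [le_div_iff₀ (by norm_num)]
  push_cast at h4 ⊢
  refine le_trans ?_ h4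
  have h5 : S₁ * S₂ ≤ (A : ℝ) / 10 ^ 9 * ((B : ℝ) / 10 ^ 9) :=
    mul_le_mul h1 h2 h20 (by positivity)
  have h6 : S₁ * S₂ * S₃ ≤ (A : ℝ) / 10 ^ 9 * ((B : ℝ) / 10 ^ 9) * ((C : ℝ) / 10 ^ 9) :=
    mul_le_mul h5 h3 h30 (by positivity)
  calc (K : ℝ) / ((M : ℝ) / 60000) * (S₁ * S₂ * S₃) * 10 ^ 9 ≤
      (K : ℝ) / ((M : ℝ) / 60000) * ((A : ℝ) / 10 ^ 9 * ((B : ℝ) / 10 ^ 9) * ((C : ℝ) / 10 ^ 9)) * 10 ^ 9 := by gcongr
    _ = _ := by
      field_simp
      ring

lemma cc4_le {V N u v w : ℕ} (h : WkC 480 V N) (hu : u ∈ Ico 80 480) (hv : v ∈ Ico 80 480) (hw : w ∈ Ico 80 480) :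
    cc4 u v w * (SU 480 u N * SU 480 v N * SU 480 w N) ≤ (t4 u v w : ℝ) / 10 ^ 9 := by
  have h1 := wk_SU h (u := u) (by simpa using hu) (by norm_num)
  have h2 := wk_SU h (u := v) (by simpa using hv) (by norm_num)
  have h3 := wk_SU h (u := w) (by simpa using hw) (by norm_num)
  unfold cc4 t4
  split_ifs with hc
  · simp
  · rw [mem_Ico] at hu hv hw
    have hM1 : 1 ≤ max (59988 - 125 * (u + v + w + 3)) (125 * w) := by
      have := le_max_right (59988 - 125 * (u + v + w + 3)) (125 * w)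
      omega
    have hKr : (w4 (u + v) : ℝ) + w4 (u + w) + w4 (v + w) = ((w4 (u + v) + w4 (u + w) + w4 (v + w) : ℕ) : ℝ) := by
      push_cast
      ring
    rw [hKr]
    exact w4_num hM1 h1 h2 h3 (wk_SU_nonneg 480 v N) (wk_SU_nonneg 480 w N)

/-- **W4.** -/
theorem wk3 : WkStm 3 (1085 / 10000) := by
  classical
  intro V
  obtain ⟨N₀, hN₀⟩ := wk_ev 480 V (by norm_num) (by norm_num)
  refine ⟨N₀, fun N hN n hn hnN => ?_⟩
  have hC := hN₀ N hN
  obtain ⟨hn1, hln⟩ := wk_logn hC hnN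
  have hN1 := hC.big.one
  have hL0 := hC.big.L
  have hN0 : (0 : ℝ) < N := by exact_mod_cast hN1
  have hn0 : (0 : ℝ) < n := by exact_mod_cast hn1
  have hln2 : Real.log n ≤ Real.log N := Real.log_le_log hn0 (by exact_mod_cast hn)
  obtain ⟨T, hT⟩ : ∃ T : Finset (Σ _ : ℕ, Σ _ : ℕ, Σ _ : ℕ, ℕ × (ℕ × ℕ)), T =
      (Ico 80 120).sigma (fun u => (Ico u 134).sigma (fun v => (Ico v 160).sigma (fun w =>
        PU 480 u N ×ˢ (PU 480 v N ×ˢ PU 480 w N)))) := ⟨_, rfl⟩
  obtain ⟨F, hF⟩ : ∃ F : ℕ → ℝ, F = fun m => -(kap N n m) *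
      (Real.log N * (1 / ((m : ℝ) * Real.log ((n : ℝ) / m)))) := ⟨_, rfl⟩
  obtain ⟨H, hH⟩ : ∃ H : (Σ _ : ℕ, Σ _ : ℕ, Σ _ : ℕ, ℕ × (ℕ × ℕ)) → ℝ, H = fun t => cc4 t.1 t.2.1 t.2.2.1 *
      ((1 : ℝ) / t.2.2.2.1 * (1 / t.2.2.2.2.1 * (1 / t.2.2.2.2.2))) := ⟨_, rfl⟩
  have hcov := sum_cover (mk N n 3) T (fun t => t.2.2.2.1 * t.2.2.2.2.1 * t.2.2.2.2.2) F H (by
      intro t _
      rw [hH]
      exact mul_nonneg (cc4_nonneg _ _ _) (by positivity)) (by
      intro m hm
      obtain ⟨p, q, r, e1, hp, hq, hr, hZp, hZq, hZr, hpq, hqr, hn3⟩ := w4_shape hm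
      have hp0 : (0 : ℝ) < p := by exact_mod_cast hp.pos
      have hq0 : (0 : ℝ) < q := by exact_mod_cast hq.pos
      have hr0 : (0 : ℝ) < r := by exact_mod_cast hr.pos
      have lp := wk_Z hN1 hp.one_le hZp
      have lq := wk_Z hN1 hq.one_le hZq
      have lpq : Real.log p ≤ Real.log q := Real.log_le_log hp0 (by exact_mod_cast hpq.le)
      have lqr : Real.log q ≤ Real.log r := Real.log_le_log hq0 (by exact_mod_cast hqr.le)
      have l3 : Real.log p + Real.log q + 2 * Real.log r < Real.log n := by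
        have h1 : ((p * q * r * r : ℕ) : ℝ) < n := by exact_mod_cast hn3
        push_cast at h1
        have h2 := Real.log_lt_log (by positivity) h1
        rw [Real.log_mul (by positivity) hr0.ne', Real.log_mul (by positivity) hr0.ne',
          Real.log_mul hp0.ne' hq0.ne'] at h2
        linarith
      have hpow1 : (p : ℝ) ≤ (N : ℝ) ^ (((120 : ℕ) : ℝ) / ((480 : ℕ) : ℝ)) := by
        apply wk_powle hN1 hp.one_le
        push_cast
        linarith
      have hpow2 : (q : ℝ) ≤ (N : ℝ) ^ (((134 : ℕ) : ℝ) / ((480 : ℕ) : ℝ)) := by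
        apply wk_powle hN1 hq.one_le
        push_cast
        linarith
      have hpow3 : (r : ℝ) ≤ (N : ℝ) ^ (((160 : ℕ) : ℝ) / ((480 : ℕ) : ℝ)) := by
        apply wk_powle hN1 hr.one_le
        push_cast
        linarith
      obtain ⟨u, hu, hpu⟩ := hC.loc p 120 hp hZp (by norm_num) hpow1
      obtain ⟨v, hv, hqv⟩ := hC.loc q 134 hq hZq (by norm_num) hpow2
      obtain ⟨w, hw, hrw⟩ := hC.loc r 160 hr hZr (by norm_num) hpow3
      have huv := wk_cell_le (by norm_num) hN1 hpu hqv hpq.le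
      have hvw := wk_cell_le (by norm_num) hN1 hqv hrw hqr.le
      rw [mem_Ico] at hu hv hw
      norm_num at hu hv hw
      have a1 := wk_lo hN1 hpu
      have a2 := wk_hi hN1 hpu
      have a3 := wk_lo hN1 hqv
      have a4 := wk_hi hN1 hqv
      have a5 := wk_lo hN1 hrw
      have a6 := wk_hi hN1 hrw
      push_cast at a1 a2 a3 a4 a5 a6
      have hmreal : (m : ℝ) = p * q * r := by rw [e1]; push_cast; ring
      have hm0 : (0 : ℝ) < m := by rw [hmreal]; positivity
      have lm : Real.log m = Real.log p + Real.log q + Real.log r := by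
        rw [hmreal, Real.log_mul (by positivity) hr0.ne', Real.log_mul hp0.ne' hq0.ne']
      refine ⟨⟨u, ⟨v, ⟨w, (p, (q, r))⟩⟩⟩, ?_, e1.symm, ?_⟩
      · rw [hT]
        simp only [mem_sigma, mem_product, mem_Ico]
        exact ⟨hu, ⟨huv, hv.2⟩, ⟨hvw, hw.2⟩, hpu, hqv, hrw⟩
      · rw [hF, hH]
        have hnot : ¬ 480 ≤ u + v + 2 * w := by
          intro hc
          have hcr : (480 : ℝ) ≤ u + v + 2 * w := by exact_mod_cast hc
          have k1 : 480 / 480 * Real.log N ≤ ((u : ℝ) + v + 2 * w) / 480 * Real.log N := by gcongr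
          have k2 : ((u : ℝ) + v + 2 * w) / 480 * Real.log N = (u : ℝ) / 480 * Real.log N +
            (v : ℝ) / 480 * Real.log N + 2 * ((w : ℝ) / 480 * Real.log N) := by ring
          linarith
        have hpair : ∀ (y z i j : ℕ), 1 ≤ y → 1 ≤ z → i + j ≤ 277 → (i : ℝ) / 480 * Real.log N < Real.log y →
            Real.log y ≤ ((i : ℝ) + 1) / 480 * Real.log N → (j : ℝ) / 480 * Real.log N < Real.log z →
            Real.log z ≤ ((j : ℝ) + 1) / 480 * Real.log N →
            1 - (vv N (y * z) + VV N n (y * z)) ≤ (w4 (i + j) : ℝ) := by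
          intro y z i j hy hz hij b1 b2 b3 b4
          have hy0 : (0 : ℝ) < y := by exact_mod_cast hy
          have hz0 : (0 : ℝ) < z := by exact_mod_cast hz
          refine w4_pair (t := i + j) hC hln hn1 hn (Nat.mul_pos hy hz) hij ?_ ?_
          · push_cast
            rw [Real.log_mul hy0.ne' hz0.ne']
            have : ((i : ℝ) + j) / 480 * Real.log N = (i : ℝ) / 480 * Real.log N + (j : ℝ) / 480 * Real.log N := by
              ring
            linarith
          · push_cast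
            rw [Real.log_mul hy0.ne' hz0.ne']
            have : ((i : ℝ) + j + 2) / 480 * Real.log N = ((i : ℝ) + 1) / 480 * Real.log N +
                ((j : ℝ) + 1) / 480 * Real.log N := by
              ring
            linarith
        have hk : -(kap N n m) ≤ (w4 (u + v) : ℝ) + w4 (u + w) + w4 (v + w) := by
          rw [e1]
          exact w4_kap hp hq hr hpq hqr (hpair p q u v hp.one_le hq.one_le (by omega) a1 a2 a3 a4)
            (hpair p r u w hp.one_le hr.one_le (by omega) a1 a2 a5 a6)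
            (hpair q r v w hq.one_le hr.one_le (by omega) a3 a4 a5 a6)
        have hlnm : Real.log ((n : ℝ) / m) = Real.log n - Real.log p - Real.log q - Real.log r := by
          rw [Real.log_div hn0.ne' hm0.ne', lm]
          ring
        have hD2 : ((125 * w : ℕ) : ℝ) / 60000 * Real.log N ≤ Real.log ((n : ℝ) / m) := by
          rw [hlnm]
          push_cast
          linarith
        have hD1 : ((59988 - 125 * (u + v + w + 3) : ℕ) : ℝ) / 60000 * Real.log N ≤ Real.log ((n : ℝ) / m) := by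
          by_cases hc : 125 * (u + v + w + 3) ≤ 59988
          · rw [Nat.cast_sub hc, hlnm]
            push_cast
            linarith
          · rw [Nat.sub_eq_zero_of_le (by omega)]
            refine le_trans ?_ hD2
            rw [Nat.cast_zero, zero_div, zero_mul]
            positivity
        have hDmax : (((max (59988 - 125 * (u + v + w + 3)) (125 * w) : ℕ) : ℝ) / 60000) * Real.log N ≤
            Real.log ((n : ℝ) / m) := by
          rcases le_total (59988 - 125 * (u + v + w + 3)) (125 * w) with hc | hc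
          · rw [max_eq_right hc]; exact hD2
          · rw [max_eq_left hc]; exact hD1
        have hDpos : (0 : ℝ) < ((max (59988 - 125 * (u + v + w + 3)) (125 * w) : ℕ) : ℝ) / 60000 := by
          have h1 : 1 ≤ max (59988 - 125 * (u + v + w + 3)) (125 * w) := by
            have := le_max_right (59988 - 125 * (u + v + w + 3)) (125 * w)
            omega
          have h2 : (0 : ℝ) < ((max (59988 - 125 * (u + v + w + 3)) (125 * w) : ℕ) : ℝ) := by exact_mod_cast h1
          exact div_pos h2 (by norm_num)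
        have hfin := wk_term (n := (n : ℝ)) hL0 hm0 hDpos
          (add_nonneg (add_nonneg (Nat.cast_nonneg _) (Nat.cast_nonneg _)) (Nat.cast_nonneg _)) hk hDmax
        refine hfin.trans (le_of_eq ?_)
        unfold cc4
        simp only
        rw [if_neg hnot, hmreal, one_div_mul_one_div, one_div_mul_one_div, mul_assoc])
  -- the sum over the cover
  have hsum : ∑ t ∈ T, H t ≤ 108 / 1000 := by
    rw [hT, hH, sum_sigma]
    simp only [sum_sigma, sum_product]
    have e : ∀ u v w : ℕ, ∑ x ∈ PU 480 u N, ∑ y ∈ PU 480 v N, ∑ z ∈ PU 480 w N, cc4 u v w *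
        ((1 : ℝ) / x * (1 / y * (1 / z))) = cc4 u v w * (SU 480 u N * SU 480 v N * SU 480 w N) := by
      intro u v w
      unfold SU SP PU
      rw [sum_mul_sum, sum_mul, mul_sum]
      refine sum_congr rfl fun x _ => ?_
      rw [sum_mul, mul_sum]
      refine sum_congr rfl fun y _ => ?_
      rw [mul_sum, mul_sum]
      refine sum_congr rfl fun z _ => ?_
      ring
    simp only [e]
    have h1 : ∑ u ∈ Ico 80 120, ∑ v ∈ Ico u 134, ∑ w ∈ Ico v 160, (t4 u v w : ℝ) / 10 ^ 9 ≤ 108 / 1000 := by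
      have h0 : ((∑ u ∈ Ico 80 120, ∑ v ∈ Ico u 134, ∑ w ∈ Ico v 160, t4 u v w : ℕ) : ℝ) ≤ ((108000000 : ℕ) : ℝ) := by
        exact_mod_cast num4
      push_cast at h0
      simp only [← sum_div]
      rw [div_le_iff₀ (by norm_num)]
      refine h0.trans ?_
      norm_num
    refine le_trans (sum_le_sum fun u hu => sum_le_sum fun v hv => sum_le_sum fun w hw => ?_) h1
    rw [mem_Ico] at hu hv hw
    exact cc4_le hC (mem_Ico.2 ⟨hu.1, by omega⟩) (mem_Ico.2 ⟨by omega, by omega⟩) (mem_Ico.2 ⟨by omega, by omega⟩)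
  have hfinal : Real.log N * ∑ m ∈ mk N n 3, kap N n m * gg n m = -∑ m ∈ mk N n 3, F m := by
    rw [mul_sum, ← sum_neg_distrib, hF]
    refine sum_congr rfl fun m _ => ?_
    unfold gg
    ring
  rw [hfinal]
  linarith

end Pool.Agent.Helper34.GX
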