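import Pool.Agent.Helper34.GX.Stm
import Pool.Agent.Helper34.GX.Cell

set_option autoImplicit false

/-! Project GX: the contribution of the cofactors with four prime factors to the local density. -/

namespace Pool.Agent.Helper34.GX.W5

open Finset Filter Topology
open Pool.Agent.Helper34.GX

/-- upper bound for the sum of `1/p` for `N ^ (u / 240) < p ≤ N ^ ((u + 1) / 240)` -/
def lQ (u : ℕ) : ℚ := (1 / (u : ℚ) + 1 / ((u : ℚ) + 1)) / 2 + 1 / 1000000

/-- upper bound for the weight of a product of four primes -/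
def c5 (u v w z : ℕ) : ℚ :=
  if 240 ≤ u + v + w + 2 * z then 0 else
    14 / max (1 - 1 / 5000 - ((u : ℚ) + v + w + z + 4) / 240) ((z : ℚ) / 240)

theorem num5 : ∑ u ∈ Ico 40 60, ∑ v ∈ Ico u 60, ∑ w ∈ Ico v 60, ∑ z ∈ Ico w 60,
    c5 u v w z * (lQ u * lQ v * lQ w * lQ z) ≤ 232 / 10000 := by
  decide +kernel

/-- the four primes of a squarefree cofactor -/
lemma four {m : ℕ} (hsq : Squarefree m) (hc : m.primeFactors.card = 4) :
    ∃ p q r s : ℕ, (p.Prime ∧ q.Prime ∧ r.Prime ∧ s.Prime) ∧ (p < q ∧ q < r ∧ r < s) ∧ m = p * q * r * s ∧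
      (p ∈ m.primeFactors ∧ q ∈ m.primeFactors ∧ r ∈ m.primeFactors ∧ s ∈ m.primeFactors) := by
  obtain ⟨e, he⟩ : ∃ e, e = m.primeFactors.orderEmbOfFin hc := ⟨_, rfl⟩
  have hmem : ∀ i, e i ∈ m.primeFactors := fun i => by rw [he]; exact Finset.orderEmbOfFin_mem _ hc i
  have hpr : ∀ i, (e i).Prime := fun i => Nat.prime_of_mem_primeFactors (hmem i)
  have hlt : ∀ i j : Fin 4, i < j → e i < e j := fun i j h => e.strictMono h
  refine ⟨e 0, e 1, e 2, e 3, ⟨hpr 0, hpr 1, hpr 2, hpr 3⟩, ⟨hlt _ _ (by decide), hlt _ _ (by decide),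
    hlt _ _ (by decide)⟩, ?_, hmem 0, hmem 1, hmem 2, hmem 3⟩
  have h2 := Finset.map_orderEmbOfFin_univ m.primeFactors hc
  calc m = ∏ p ∈ m.primeFactors, p := (Nat.prod_primeFactors_of_squarefree hsq).symm
    _ = ∏ p ∈ univ.map (m.primeFactors.orderEmbOfFin hc).toEmbedding, p := by rw [h2]
    _ = ∏ i : Fin 4, e i := by rw [prod_map, he]; rfl
    _ = e 0 * e 1 * e 2 * e 3 := by rw [Fin.prod_univ_four]

lemma prs_card {n : ℕ} (h : n.primeFactors.card = 4) : (prs n).card ≤ 6 := by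
  unfold prs
  obtain ⟨S, hS⟩ : ∃ S, S = n.primeFactors := ⟨_, rfl⟩
  rw [← hS] at h ⊢
  have h1 : ((S ×ˢ S).filter (fun t : ℕ × ℕ => t.2 < t.1)).card =
      ((S ×ˢ S).filter (fun t : ℕ × ℕ => t.1 < t.2)).card := by
    refine Finset.card_bij (fun t _ => t.swap) ?_ ?_ ?_
    · intro t ht
      simp only [mem_filter, mem_product, Prod.fst_swap, Prod.snd_swap] at ht ⊢
      exact ⟨⟨ht.1.2, ht.1.1⟩, ht.2⟩
    · intro a _ b _ hab
      exact Prod.swap_injective hab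
    · intro t ht
      refine ⟨t.swap, ?_, Prod.swap_swap t⟩
      simp only [mem_filter, mem_product, Prod.fst_swap, Prod.snd_swap] at ht ⊢
      exact ⟨⟨ht.1.2, ht.1.1⟩, ht.2⟩
  have h2 : Disjoint ((S ×ˢ S).filter (fun t : ℕ × ℕ => t.1 < t.2))
      ((S ×ˢ S).filter (fun t : ℕ × ℕ => t.2 < t.1)) := by
    rw [Finset.disjoint_filter]
    intro t _ h
    omega
  have h3 : ((S ×ˢ S).filter (fun t : ℕ × ℕ => t.1 < t.2)) ∪
      ((S ×ˢ S).filter (fun t : ℕ × ℕ => t.2 < t.1)) ⊆ S.offDiag := by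
    intro t ht
    simp only [mem_union, mem_filter, mem_product, mem_offDiag] at ht ⊢
    rcases ht with ⟨⟨a, b⟩, c⟩ | ⟨⟨a, b⟩, c⟩
    · exact ⟨a, b, by omega⟩
    · exact ⟨a, b, by omega⟩
  have h4 := card_le_card h3
  rw [card_union_of_disjoint h2, h1, offDiag_card, h] at h4
  omega

lemma kap_ge {N n m : ℕ} (hN : 1 ≤ N) (h : m.primeFactors.card = 4) : -14 ≤ kap N n m := by
  have h1 : (om N m : ℝ) ≤ 4 := by
    have : om N m ≤ 4 := by
      unfold om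
      exact (card_filter_le _ _).trans h.le
    exact_mod_cast this
  have h2 : -6 ≤ pr N m := by
    unfold pr
    have h3 : ∑ t ∈ prs m, (-1 : ℝ) ≤ ∑ t ∈ prs m, vv N (t.1 * t.2) := sum_le_sum fun t _ => vv_ge hN _
    rw [sum_const, nsmul_eq_mul] at h3
    have h4 : ((prs m).card : ℝ) ≤ 6 := by exact_mod_cast prs_card h
    linarith
  have h3 : -4 ≤ kp N n m := by
    unfold kp
    have h3 : ∑ p ∈ m.primeFactors, (-1 : ℝ) ≤ ∑ p ∈ m.primeFactors,
        (2 * (if p * n ≤ m * T2 N then 1 else 0) - 3 * (if p * n ≤ m * Nat.sqrt N then 1 else 0) +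
          (if p * n ≤ m * T0 N then 1 else 0)) := by
      refine sum_le_sum fun p _ => ?_
      have k1 : m * Nat.sqrt N ≤ m * T2 N := Nat.mul_le_mul_left _ (sqrt_le_T2 hN)
      split_ifs with a b c <;> first | omega | norm_num
    rw [sum_const, nsmul_eq_mul, h] at h3
    push_cast at h3
    linarith
  unfold kap
  split_ifs <;> linarith

lemma PP_mem {a b : ℝ} {N p : ℕ} : p ∈ PP a b N ↔ (⌊(N : ℝ) ^ a⌋₊ < p ∧ p ≤ ⌊(N : ℝ) ^ b⌋₊) ∧ p.Prime := by
  unfold PP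
  rw [mem_filter, mem_Ioc]

lemma PP_lo {a b : ℝ} {N p : ℕ} (h : p ∈ PP a b N) : (N : ℝ) ^ a < p := by
  have h1 : (N : ℝ) ^ a < (⌊(N : ℝ) ^ a⌋₊ : ℝ) + 1 := Nat.lt_floor_add_one _
  have h2 : ((⌊(N : ℝ) ^ a⌋₊ : ℕ) : ℝ) + 1 ≤ p := by exact_mod_cast (PP_mem.1 h).1.1
  linarith

lemma PP_hi {a b : ℝ} {N p : ℕ} (h : p ∈ PP a b N) : (p : ℝ) ≤ (N : ℝ) ^ b := by
  have h1 : ((⌊(N : ℝ) ^ b⌋₊ : ℕ) : ℝ) ≤ (N : ℝ) ^ b := Nat.floor_le (by positivity)
  have h2 : (p : ℝ) ≤ ((⌊(N : ℝ) ^ b⌋₊ : ℕ) : ℝ) := by exact_mod_cast (PP_mem.1 h).1.2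
  linarith

/-- the cells -/
noncomputable def PV (u N : ℕ) : Finset ℕ := PP ((u : ℝ) / 240) (((u : ℝ) + 1) / 240) N

noncomputable def SV (u N : ℕ) : ℝ := SP ((u : ℝ) / 240) (((u : ℝ) + 1) / 240) N

lemma PU_eq (u N : ℕ) : PU 240 u N = PV u N := by
  unfold PU PV
  norm_num

lemma SU_eq (u N : ℕ) : SU 240 u N = SV u N := by
  unfold SU SV
  norm_num

lemma SV_nonneg (u N : ℕ) : 0 ≤ SV u N := by
  unfold SV SP
  exact sum_nonneg fun _ _ => by positivity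

lemma sum_four (A B C D : Finset ℕ) (f : ℕ → ℝ) :
    ∑ x ∈ A, ∑ y ∈ B, ∑ a ∈ C, ∑ b ∈ D, f x * (f y * (f a * f b)) =
      (∑ x ∈ A, f x) * (∑ x ∈ B, f x) * (∑ x ∈ C, f x) * (∑ x ∈ D, f x) := by
  simp only [← mul_sum, ← sum_mul]
  ring

/-- cells are ordered -/
lemma cell_le {N p q u v : ℕ} (hN : 1 ≤ N) (hp : p ∈ PV u N) (hq : q ∈ PV v N) (h : p ≤ q) : u ≤ v := by
  by_contra hcon
  rw [not_le] at hcon
  have h1 := PP_lo hp
  have h2 := PP_hi hq
  have h3 : (N : ℝ) ^ (((v : ℝ) + 1) / 240) ≤ (N : ℝ) ^ ((u : ℝ) / 240) := by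
    apply Real.rpow_le_rpow_of_exponent_le (by exact_mod_cast hN)
    have : (v : ℝ) + 1 ≤ u := by exact_mod_cast hcon
    linarith
  have h4 : (p : ℝ) ≤ q := by exact_mod_cast h
  linarith

/-- a summand -/
lemma term_le {L n m k K D : ℝ} (hL : 0 < L) (hm : 0 < m) (hD : 0 < D) (hk0 : 0 ≤ K) (hkK : k ≤ K)
    (hlog : D * L ≤ Real.log (n / m)) : k * (L * (1 / (m * Real.log (n / m)))) ≤ K / D * (1 / m) := by
  have h1 : 0 < Real.log (n / m) := lt_of_lt_of_le (by positivity) hlog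
  have h2 : L * (1 / (m * Real.log (n / m))) ≤ 1 / D * (1 / m) := by
    rw [mul_one_div, one_div_mul_one_div, div_le_div_iff₀ (by positivity) (by positivity)]
    have := mul_le_mul_of_nonneg_left hlog hm.le
    nlinarith
  calc k * (L * (1 / (m * Real.log (n / m)))) ≤ K * (L * (1 / (m * Real.log (n / m)))) :=
        mul_le_mul_of_nonneg_right hkK (by positivity)
    _ ≤ K * (1 / D * (1 / m)) := mul_le_mul_of_nonneg_left h2 hk0
    _ = _ := by ring

/-- comparison of sums -/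
lemma sum_cover {ι : Type*} [DecidableEq ι] (s : Finset ℕ) (T : Finset ι) (φ : ι → ℕ) (F : ℕ → ℝ) (G : ι → ℝ)
    (hG : ∀ t ∈ T, 0 ≤ G t) (hc : ∀ m ∈ s, ∃ t ∈ T, φ t = m ∧ F m ≤ G t) :
    ∑ m ∈ s, F m ≤ ∑ t ∈ T, G t := by
  rcases s.eq_empty_or_nonempty with hs | ⟨m₀, hm₀⟩
  · rw [hs, sum_empty]
    exact sum_nonneg hG
  obtain ⟨t₀, -, -⟩ := hc m₀ hm₀
  have : Nonempty ι := ⟨t₀⟩
  choose! f hf using hc
  have h1 : Set.InjOn f s := by
    intro a ha b hb hab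
    rw [← (hf a ha).2.1, ← (hf b hb).2.1, hab]
  calc ∑ m ∈ s, F m ≤ ∑ m ∈ s, G (f m) := sum_le_sum fun m hm => (hf m hm).2.2
    _ = ∑ t ∈ s.image f, G t := (sum_image h1).symm
    _ ≤ ∑ t ∈ T, G t := by
        apply sum_le_sum_of_subset_of_nonneg
        · intro t ht
          rw [mem_image] at ht
          obtain ⟨m, hm, rfl⟩ := ht
          exact (hf m hm).1
        · intro t ht _
          exact hG t ht

lemma c5_nonneg (u v w z : ℕ) : 0 ≤ c5 u v w z := by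
  unfold c5
  split_ifs
  · exact le_rfl
  · apply div_nonneg (by norm_num)
    exact le_max_of_le_right (by positivity)

lemma lQ_nonneg (u : ℕ) : 0 ≤ lQ u := by
  unfold lQ
  positivity

lemma gg_nonneg {N n m : ℕ} (hm : m ∈ mm N n) : 0 ≤ gg n m := by
  have h1 := (mem_mm.1 hm).1
  have hm0 : (0 : ℝ) < m := by exact_mod_cast h1.1
  have h2 : (1 : ℝ) ≤ (n : ℝ) / m := by
    rw [le_div_iff₀ hm0, one_mul]
    exact_mod_cast h1.2
  have h3 := Real.log_nonneg h2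
  unfold gg
  positivity

/-- eventually all numerical conditions -/
lemma ev_all (hC : CellStm 240) (B : ℕ) : ∀ᶠ N : ℕ in atTop, 2 ≤ N ∧ 1 ≤ Real.log N ∧
    B * Real.log (Real.log N) ≤ 1 / 5000 * Real.log N ∧ (∀ u ∈ Ico 40 60, SV u N ≤ (lQ u : ℝ)) ∧
    ∀ (p : ℕ), p.Prime → ZZ N < p → (p : ℝ) ≤ (N : ℝ) ^ ((60 : ℝ) / 240) → ∃ u ∈ Ico 40 60, p ∈ PV u N := by
  have hLT : Tendsto (fun N : ℕ => Real.log (N : ℝ)) atTop atTop :=
    Real.tendsto_log_atTop.comp tendsto_natCast_atTop_atTop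
  have h5 : ∀ᶠ L : ℝ in atTop, B * Real.log L ≤ 1 / 5000 * L := by
    have h6 := Real.isLittleO_log_id_atTop.bound (show (0 : ℝ) < 1 / (5000 * (B + 1)) by positivity)
    filter_upwards [h6, eventually_ge_atTop 1] with L h7 h8
    have h9 : 0 ≤ Real.log L := Real.log_nonneg h8
    rw [Real.norm_of_nonneg h9, id, Real.norm_of_nonneg (by linarith)] at h7
    have h10 : (B + 1 : ℝ) * Real.log L ≤ 1 / 5000 * L := by
      calc (B + 1 : ℝ) * Real.log L ≤ (B + 1 : ℝ) * (1 / (5000 * (B + 1)) * L) :=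
            mul_le_mul_of_nonneg_left h7 (by positivity)
        _ = 1 / 5000 * L := by field_simp
    linarith
  filter_upwards [eventually_ge_atTop 2, hLT.eventually_ge_atTop 1, hLT.eventually h5, hC] with N h2 hL hBL hC
  refine ⟨h2, hL, hBL, fun u hu => ?_, fun p hp hZ hpN => ?_⟩
  · rw [mem_Ico] at hu
    have := hC.1 u (mem_Ico.2 ⟨by omega, by omega⟩)
    rw [SU_eq] at this
    unfold lQ
    push_cast
    exact this
  · obtain ⟨u, hu, hpu⟩ := hC.2 p 60 hp hZ (by norm_num) (by norm_num at hpN ⊢; exact hpN)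
    rw [PU_eq] at hpu
    exact ⟨u, by simpa using hu, hpu⟩

/-- **W5** -/
theorem wk4_of (hC : CellStm 240) : WkStm 4 (232 / 10000) := by
  classical
  intro B
  obtain ⟨N₀, hN₀⟩ := eventually_atTop.1 (ev_all hC B)
  refine ⟨N₀, fun N hN n hn hnN => ?_⟩
  obtain ⟨hN2, hL1, hBL, hS, hloc⟩ := hN₀ N hN
  have hL0 : 0 < Real.log N := by linarith
  have hN1 : 1 ≤ N := by omega
  have hN0 : (0 : ℝ) < N := by exact_mod_cast hN1
  have hNr1 : (1 : ℝ) ≤ N := by exact_mod_cast hN1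
  have hn0' : (0 : ℝ) < n := lt_of_lt_of_le (by positivity) hnN
  obtain ⟨L, hLd⟩ : ∃ L, L = Real.log (N : ℝ) := ⟨_, rfl⟩
  have hln : (1 - 1 / 5000) * L ≤ Real.log n := by
    have h1 := Real.log_le_log (by positivity) hnN
    rw [Real.log_div hN0.ne' (by positivity), Real.log_pow] at h1
    rw [hLd]
    linarith
  have hpowlog : ∀ a : ℝ, Real.log ((N : ℝ) ^ a) = a * L := fun a => by rw [Real.log_rpow hN0, hLd]
  rw [← hLd] at hL0 hL1
  -- the function to be estimated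
  obtain ⟨F, hF⟩ : ∃ F : ℕ → ℝ, F = fun m : ℕ => 14 * (L * (1 / ((m : ℝ) * Real.log ((n : ℝ) / m)))) := ⟨_, rfl⟩
  -- the cover
  obtain ⟨T5, hT5⟩ : ∃ T5 : Finset (Σ _ : ℕ, Σ _ : ℕ, Σ _ : ℕ, Σ _ : ℕ, ℕ × (ℕ × (ℕ × ℕ))), T5 =
    (Ico 40 60).sigma (fun u => (Ico u 60).sigma (fun v => (Ico v 60).sigma (fun w => (Ico w 60).sigma (fun z =>
      PV u N ×ˢ (PV v N ×ˢ (PV w N ×ˢ PV z N)))))) := ⟨_, rfl⟩
  obtain ⟨G5, hG5⟩ : ∃ G5 : (Σ _ : ℕ, Σ _ : ℕ, Σ _ : ℕ, Σ _ : ℕ, ℕ × (ℕ × (ℕ × ℕ))) → ℝ, G5 = fun t =>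
    (c5 t.1 t.2.1 t.2.2.1 t.2.2.2.1 : ℝ) *
    ((1 : ℝ) / t.2.2.2.2.1 * (1 / t.2.2.2.2.2.1 * (1 / t.2.2.2.2.2.2.1 * (1 / t.2.2.2.2.2.2.2)))) := ⟨_, rfl⟩
  have hcov := sum_cover (mk N n 4) T5 (fun t => t.2.2.2.2.1 * t.2.2.2.2.2.1 * t.2.2.2.2.2.2.1 * t.2.2.2.2.2.2.2) F
    G5 (by
      intro t _
      simp only [hG5]
      have : (0 : ℝ) ≤ (c5 t.1 t.2.1 t.2.2.1 t.2.2.2.1 : ℝ) := by exact_mod_cast c5_nonneg _ _ _ _
      positivity) (by
      intro m hm
      unfold mk at hm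
      rw [mem_filter] at hm
      obtain ⟨hmm, hsq, hcard⟩ := hm
      obtain ⟨⟨hm1, hmn⟩, hZ, hMM⟩ := mem_mm.1 hmm
      have hmn0 : (0 : ℝ) < m := by exact_mod_cast hm1
      obtain ⟨p, q, r, s, ⟨h1, h2, h3, h4⟩, ⟨h5, h6, h7⟩, e1, g1, g2, g3, g4⟩ := four hsq hcard
      have hsM : s ≤ MM N m := (Finset.le_sup (f := id) g4).trans (le_max_left _ _)
      have hms : p * q * r * s * s < n := by
        rw [← e1]
        exact lt_of_le_of_lt (Nat.mul_le_mul_left _ hsM) hMM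
      have hp0 : (0 : ℝ) < p := by exact_mod_cast h1.pos
      have hq0 : (0 : ℝ) < q := by exact_mod_cast h2.pos
      have hr0 : (0 : ℝ) < r := by exact_mod_cast h3.pos
      have hs0 : (0 : ℝ) < s := by exact_mod_cast h4.pos
      have hlow : ∀ x : ℕ, ZZ N < x → (N : ℝ) ^ (1 / 6 : ℝ) < x := by
        intro x hx
        have k2 : (N : ℝ) ^ (1 / 6 : ℝ) < ((ZZ N : ℕ) : ℝ) + 1 := Nat.lt_floor_add_one _
        have k3 : ((ZZ N : ℕ) : ℝ) + 1 ≤ x := by exact_mod_cast hx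
        linarith
      have hlp := hlow p (hZ p g1)
      have hlq := hlow q (hZ q g2)
      have hlr := hlow r (hZ r g3)
      have hpqrss : (p : ℝ) * q * r * s * s < N := by exact_mod_cast lt_of_lt_of_le hms hn
      have hshi : (s : ℝ) ≤ (N : ℝ) ^ ((60 : ℝ) / 240) := by
        by_contra hc
        rw [not_le] at hc
        have k5 : 0 < (N : ℝ) ^ ((60 : ℝ) / 240) := Real.rpow_pos_of_pos hN0 _
        have k6 : (N : ℝ) ^ (1 / 6 : ℝ) * (N : ℝ) ^ (1 / 6 : ℝ) * (N : ℝ) ^ (1 / 6 : ℝ) *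
            (N : ℝ) ^ ((60 : ℝ) / 240) * (N : ℝ) ^ ((60 : ℝ) / 240) = N := by
          rw [← Real.rpow_add hN0, ← Real.rpow_add hN0, ← Real.rpow_add hN0, ← Real.rpow_add hN0]
          norm_num
        have k7 : (N : ℝ) ^ (1 / 6 : ℝ) * (N : ℝ) ^ (1 / 6 : ℝ) * (N : ℝ) ^ (1 / 6 : ℝ) *
            (N : ℝ) ^ ((60 : ℝ) / 240) * (N : ℝ) ^ ((60 : ℝ) / 240) ≤ p * q * r * s * s := by gcongr
        linarith
      have hrhi : (r : ℝ) ≤ (N : ℝ) ^ ((60 : ℝ) / 240) := le_trans (by exact_mod_cast h7.le) hshi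
      have hqhi : (q : ℝ) ≤ (N : ℝ) ^ ((60 : ℝ) / 240) := le_trans (by exact_mod_cast h6.le) hrhi
      have hphi : (p : ℝ) ≤ (N : ℝ) ^ ((60 : ℝ) / 240) := le_trans (by exact_mod_cast h5.le) hqhi
      obtain ⟨u, hu, hpu⟩ := hloc p h1 (hZ p g1) hphi
      obtain ⟨v, hv, hqv⟩ := hloc q h2 (hZ q g2) hqhi
      obtain ⟨w, hw, hrw⟩ := hloc r h3 (hZ r g3) hrhi
      obtain ⟨z, hz, hsz⟩ := hloc s h4 (hZ s g4) hshi
      have huv := cell_le hN1 hpu hqv h5.le
      have hvw := cell_le hN1 hqv hrw h6.le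
      have hwz := cell_le hN1 hrw hsz h7.le
      rw [mem_Ico] at hu hv hw hz
      refine ⟨⟨u, ⟨v, ⟨w, ⟨z, (p, (q, (r, s)))⟩⟩⟩⟩, ?_, e1.symm, ?_⟩
      · rw [hT5]
        simp only [mem_sigma, mem_product, mem_Ico]
        exact ⟨hu, ⟨huv, hv.2⟩, ⟨hvw, hw.2⟩, ⟨hwz, hz.2⟩, hpu, hqv, hrw, hsz⟩
      · simp only [hF, hG5]
        have hplo := PP_lo hpu
        have hqlo := PP_lo hqv
        have hrlo := PP_lo hrw
        have hslo := PP_lo hsz
        have hpH := PP_hi hpu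
        have hqH := PP_hi hqv
        have hrH := PP_hi hrw
        have hsH := PP_hi hsz
        have hmreal : (m : ℝ) = p * q * r * s := by rw [e1]; push_cast; ring
        have hnot : ¬ 240 ≤ u + v + w + 2 * z := by
          intro hc
          have hcr : (240 : ℝ) ≤ u + v + w + 2 * z := by exact_mod_cast hc
          have k1 : (N : ℝ) ≤ (N : ℝ) ^ ((u : ℝ) / 240) * (N : ℝ) ^ ((v : ℝ) / 240) * (N : ℝ) ^ ((w : ℝ) / 240) *
              (N : ℝ) ^ ((z : ℝ) / 240) * (N : ℝ) ^ ((z : ℝ) / 240) := by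
            rw [← Real.rpow_add hN0, ← Real.rpow_add hN0, ← Real.rpow_add hN0, ← Real.rpow_add hN0]
            calc (N : ℝ) = (N : ℝ) ^ (1 : ℝ) := (Real.rpow_one _).symm
              _ ≤ _ := Real.rpow_le_rpow_of_exponent_le hNr1 (by linarith)
          have k2 : (N : ℝ) ^ ((u : ℝ) / 240) * (N : ℝ) ^ ((v : ℝ) / 240) * (N : ℝ) ^ ((w : ℝ) / 240) *
              (N : ℝ) ^ ((z : ℝ) / 240) * (N : ℝ) ^ ((z : ℝ) / 240) ≤ p * q * r * s * s := by
            gcongr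
          linarith
        have hD1 : (1 - 1 / 5000 - ((u : ℝ) + v + w + z + 4) / 240) * L ≤ Real.log ((n : ℝ) / m) := by
          rw [hmreal, Real.log_div hn0'.ne' (by positivity), Real.log_mul (by positivity) hs0.ne',
            Real.log_mul (by positivity) hr0.ne', Real.log_mul hp0.ne' hq0.ne']
          have k1 := Real.log_le_log hp0 hpH
          have k2 := Real.log_le_log hq0 hqH
          have k3 := Real.log_le_log hr0 hrH
          have k4 := Real.log_le_log hs0 hsH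
          rw [hpowlog] at k1 k2 k3 k4
          linarith
        have hD2 : ((z : ℝ) / 240) * L ≤ Real.log ((n : ℝ) / m) := by
          have k1 := Real.log_le_log (by positivity) hslo.le
          rw [hpowlog] at k1
          refine k1.trans (Real.log_le_log hs0 ?_)
          rw [le_div_iff₀ hmn0, hmreal]
          have : ((p * q * r * s * s : ℕ) : ℝ) ≤ n := by exact_mod_cast hms.le
          push_cast at this
          linarith
        have hDmax : (max (1 - 1 / 5000 - ((u : ℝ) + v + w + z + 4) / 240) ((z : ℝ) / 240)) * L ≤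
            Real.log ((n : ℝ) / m) := by
          rcases max_cases (1 - 1 / 5000 - ((u : ℝ) + v + w + z + 4) / 240) ((z : ℝ) / 240) with ⟨k, -⟩ | ⟨k, -⟩
          · rw [k]; exact hD1
          · rw [k]; exact hD2
        have hz0 : (0 : ℝ) < (z : ℝ) / 240 := by
          have : (0 : ℝ) < z := by exact_mod_cast (by omega : 0 < z)
          positivity
        have hc5 : (c5 u v w z : ℝ) = 14 / max (1 - 1 / 5000 - ((u : ℝ) + v + w + z + 4) / 240) ((z : ℝ) / 240) := by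
          unfold c5
          rw [if_neg hnot]
          push_cast
          norm_num
        have hfin := term_le (n := (n : ℝ)) (k := 14) (K := 14) hL0 hmn0
          (lt_of_lt_of_le hz0 (le_max_right (1 - 1 / 5000 - ((u : ℝ) + v + w + z + 4) / 240) _))
          (by norm_num) le_rfl hDmax
        rw [← hc5] at hfin
        refine hfin.trans (le_of_eq ?_)
        rw [hmreal, one_div_mul_one_div, one_div_mul_one_div, one_div_mul_one_div]
        congr 2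
        ring)
  have hsum5 : ∑ t ∈ T5, G5 t ≤ 232 / 10000 := by
    rw [hT5, hG5, sum_sigma]
    simp only [sum_sigma, sum_product]
    have e : ∀ u v w z : ℕ, ∑ x ∈ PV u N, ∑ y ∈ PV v N, ∑ a ∈ PV w N, ∑ b ∈ PV z N,
        (c5 u v w z : ℝ) * ((1 : ℝ) / x * (1 / y * (1 / a * (1 / b)))) =
        (c5 u v w z : ℝ) * (SV u N * SV v N * SV w N * SV z N) := by
      intro u v w z
      have k1 := sum_four (PV u N) (PV v N) (PV w N) (PV z N) (fun x => (1 : ℝ) / x)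
      have k2 : ∀ u : ℕ, SV u N = ∑ x ∈ PV u N, (1 : ℝ) / x := fun _ => rfl
      rw [k2, k2, k2, k2, ← k1]
      simp only [mul_sum]
    simp only [e]
    have h0 : (((∑ u ∈ Ico 40 60, ∑ v ∈ Ico u 60, ∑ w ∈ Ico v 60, ∑ z ∈ Ico w 60,
        c5 u v w z * (lQ u * lQ v * lQ w * lQ z) : ℚ)) : ℝ) ≤ ((232 / 10000 : ℚ) : ℝ) := Rat.cast_le.2 num5
    have h1 : ∑ u ∈ Ico 40 60, ∑ v ∈ Ico u 60, ∑ w ∈ Ico v 60, ∑ z ∈ Ico w 60,
        (c5 u v w z : ℝ) * ((lQ u : ℝ) * (lQ v : ℝ) * (lQ w : ℝ) * (lQ z : ℝ)) ≤ 232 / 10000 := by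
      refine le_trans (le_of_eq ?_) (h0.trans (le_of_eq ?_))
      · push_cast
        rfl
      · push_cast
        rfl
    refine le_trans (sum_le_sum fun u hu => sum_le_sum fun v hv => sum_le_sum fun w hw =>
      sum_le_sum fun z hz => ?_) h1
    rw [mem_Ico] at hu hv hw hz
    have k1 := hS u (mem_Ico.2 ⟨hu.1, by omega⟩)
    have k2 := hS v (mem_Ico.2 ⟨by omega, by omega⟩)
    have k2' := hS w (mem_Ico.2 ⟨by omega, by omega⟩)
    have k2'' := hS z (mem_Ico.2 ⟨by omega, by omega⟩)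
    have k3 : (0 : ℝ) ≤ (c5 u v w z : ℝ) := by exact_mod_cast c5_nonneg _ _ _ _
    have l1 : (0 : ℝ) ≤ (lQ u : ℝ) := by exact_mod_cast lQ_nonneg _
    have l2 : (0 : ℝ) ≤ (lQ v : ℝ) := by exact_mod_cast lQ_nonneg _
    have l3 : (0 : ℝ) ≤ (lQ w : ℝ) := by exact_mod_cast lQ_nonneg _
    have s1 := SV_nonneg u N
    have s2 := SV_nonneg v N
    have s3 := SV_nonneg w N
    have s4 := SV_nonneg z N
    have m1 := mul_le_mul k1 k2 s2 l1
    have m2 := mul_le_mul m1 k2' s3 (mul_nonneg l1 l2)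
    have m3 := mul_le_mul m2 k2'' s4 (mul_nonneg (mul_nonneg l1 l2) l3)
    exact mul_le_mul_of_nonneg_left m3 k3
  -- all summands
  have hlast : -(∑ m ∈ mk N n 4, F m) ≤ L * ∑ m ∈ mk N n 4, kap N n m * gg n m := by
    rw [mul_sum, ← sum_neg_distrib]
    refine sum_le_sum fun m hm => ?_
    unfold mk at hm
    rw [mem_filter] at hm
    have k1 := kap_ge (N := N) (n := n) hN1 hm.2.2
    have k2 := gg_nonneg hm.1
    have k3 : 0 ≤ L * gg n m := mul_nonneg hL0.le k2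
    have k4 : F m = 14 * (L * gg n m) := by rw [hF]; rfl
    rw [k4]
    nlinarith
  rw [← hLd]
  linarith

end Pool.Agent.Helper34.GX.W5

namespace Pool.Agent.Helper34.GX

/-- W5: the contribution of the cofactors with four prime factors -/
theorem wk4 : WkStm 4 (232 / 10000) := W5.wk4_of (cell 240 (by norm_num) (by norm_num))

end Pool.Agent.Helper34.GX
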