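import Mathlib.Analysis.PSeries
import Mathlib.NumberTheory.Harmonic.Bounds
import Pool.Agent.Helper34.GX.W2

set_option autoImplicit false

/-! Module WNS: the cofactors which are not squarefree. -/

namespace Pool.Agent.Helper34.GX

open Finset Filter Topology
open Pool.Agent.R453.GS (ev_log log_floor sum_pow tv log_num)

/-- at most five prime factors -/
lemma wns_card {N m : ℕ} (hN : 1 ≤ N) (hm : 1 ≤ m) (hmN : m ≤ N) (h : ∀ p ∈ m.primeFactors, ZZ N < p) :
    m.primeFactors.card ≤ 5 := by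
  by_contra hcon
  rw [not_le] at hcon
  have h1 : (ZZ N + 1) ^ m.primeFactors.card ≤ ∏ p ∈ m.primeFactors, p :=
    Finset.pow_card_le_prod _ _ _ fun p hp => h p hp
  have h2 : ∏ p ∈ m.primeFactors, p ≤ m := Nat.le_of_dvd (by omega) (Nat.prod_primeFactors_dvd m)
  have h3 : (ZZ N + 1) ^ 6 ≤ (ZZ N + 1) ^ m.primeFactors.card := Nat.pow_le_pow_right (by omega) hcon
  have h4 := ZZ_sixth hN
  omega

lemma wns_ind {N a b : ℕ} (hN : 1 ≤ N) :
    |2 * (if a ≤ b * T2 N then (1 : ℝ) else 0) - 3 * (if a ≤ b * Nat.sqrt N then 1 else 0) +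
      (if a ≤ b * T0 N then 1 else 0)| ≤ 2 := by
  have h1 : b * T0 N ≤ b * Nat.sqrt N := Nat.mul_le_mul_left _ (T0_le_sqrt hN)
  have h2 : b * Nat.sqrt N ≤ b * T2 N := Nat.mul_le_mul_left _ (sqrt_le_T2 hN)
  rw [abs_le]
  split_ifs with a b c <;> first | omega | (constructor <;> norm_num)

lemma wns_kap {N n m : ℕ} (hN : 1 ≤ N) (hn : n ≤ N) (hm : m ∈ mm N n) : |kap N n m| ≤ 66 := by
  rw [mem_mm] at hm
  obtain ⟨⟨h1, h2⟩, h3, -⟩ := hm
  have hc := wns_card hN h1 (h2.trans hn) h3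
  have hcr : (m.primeFactors.card : ℝ) ≤ 5 := by exact_mod_cast hc
  have hom : (om N m : ℝ) ≤ 5 := by
    have : om N m ≤ m.primeFactors.card := card_filter_le _ _
    exact_mod_cast this.trans hc
  have hom0 : (0 : ℝ) ≤ om N m := Nat.cast_nonneg _
  have hpr : |pr N m| ≤ 50 := by
    unfold pr
    refine (abs_sum_le_sum_abs _ _).trans ?_
    have e1 : ∑ t ∈ prs m, |vv N (t.1 * t.2)| ≤ ∑ _t ∈ prs m, (2 : ℝ) := sum_le_sum fun t _ => vv_abs hN _
    refine e1.trans ?_
    rw [sum_const, nsmul_eq_mul]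
    have e2 : (prs m).card ≤ m.primeFactors.card * m.primeFactors.card := by
      unfold prs
      refine (card_filter_le _ _).trans ?_
      rw [card_product]
    have e3 : (prs m).card ≤ 25 := e2.trans (by
      calc m.primeFactors.card * m.primeFactors.card ≤ 5 * 5 := Nat.mul_le_mul hc hc
        _ = 25 := rfl)
    have e4 : ((prs m).card : ℝ) ≤ 25 := by exact_mod_cast e3
    linarith
  have hkp : |kp N n m| ≤ 10 := by
    unfold kp
    refine (abs_sum_le_sum_abs _ _).trans ?_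
    have e1 : ∑ p ∈ m.primeFactors, |2 * (if p * n ≤ m * T2 N then (1 : ℝ) else 0) -
        3 * (if p * n ≤ m * Nat.sqrt N then 1 else 0) + (if p * n ≤ m * T0 N then 1 else 0)| ≤
        ∑ _p ∈ m.primeFactors, (2 : ℝ) := sum_le_sum fun p _ => wns_ind hN
    refine e1.trans ?_
    rw [sum_const, nsmul_eq_mul]
    linarith
  rw [abs_le] at hpr hkp ⊢
  unfold kap
  split_ifs <;> constructor <;> linarith [hpr.1, hpr.2, hkp.1, hkp.2]

lemma wns_term {N n m : ℕ} (hB : Big N) (hm : m ∈ mm N n) :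
    0 ≤ Real.log N * gg n m ∧ Real.log N * gg n m ≤ 7 / m := by
  rw [mem_mm] at hm
  obtain ⟨⟨h1, h2⟩, -, h4⟩ := hm
  have hZ : (2 : ℝ) ≤ ZZ N := by exact_mod_cast hB.Z2
  have hL := hB.L
  have hm0 : (0 : ℝ) < m := by exact_mod_cast h1
  have h3 : ((ZZ N : ℕ) : ℝ) < (n : ℝ) / m := by
    rw [lt_div_iff₀ hm0]
    have h5 : ZZ N * m < n := by
      refine lt_of_le_of_lt ?_ h4
      rw [mul_comm]
      exact Nat.mul_le_mul_left _ (le_max_right _ _)
    exact_mod_cast h5
  have h4' : Real.log N / 7 ≤ Real.log ((n : ℝ) / m) := by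
    have := Real.log_le_log (by linarith) h3.le
    have := hB.Zl
    linarith
  have h5 : 0 < Real.log ((n : ℝ) / m) := by linarith
  unfold gg
  refine ⟨by positivity, ?_⟩
  rw [mul_one_div, div_le_div_iff₀ (by positivity) hm0]
  nlinarith

lemma wns_sum {N n : ℕ} (hB : Big N) (hn : n ≤ N) :
    ∑ m ∈ mns N n, (1 : ℝ) / m ≤ (1 / (ZZ N : ℝ)) * (1 + Real.log N) := by
  classical
  have hN1 : 1 ≤ N := by have := hB.two; omega
  have hZ0 : ZZ N ≠ 0 := by have := hB.Z2; omega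
  have hex : ∀ m ∈ mns N n, ∃ t ∈ Ioc (ZZ N) N ×ˢ Icc 1 N, m = t.1 ^ 2 * t.2 := by
    intro m hm
    unfold mns at hm
    rw [mem_filter, mem_mm] at hm
    obtain ⟨⟨⟨h1, h2⟩, h3, -⟩, h5⟩ := hm
    rw [Nat.squarefree_iff_prime_squarefree] at h5
    push Not at h5
    obtain ⟨p, hp, k, hk⟩ := h5
    have hk0 : k ≠ 0 := by
      rintro rfl
      omega
    have hpm : p ∣ m := by rw [hk, mul_assoc]; exact dvd_mul_right _ _
    have hple : p ≤ m := Nat.le_of_dvd (by omega) hpm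
    have hkm : k ≤ m := by
      rw [hk]
      exact Nat.le_mul_of_pos_left _ (Nat.mul_pos hp.pos hp.pos)
    refine ⟨(p, k), ?_, ?_⟩
    · rw [mem_product, mem_Ioc, mem_Icc]
      refine ⟨⟨h3 p (Nat.mem_primeFactors.2 ⟨hp, hpm, by omega⟩), ?_⟩, ?_, ?_⟩
      · show p ≤ N
        omega
      · show 1 ≤ k
        omega
      · show k ≤ N
        omega
    · show m = p ^ 2 * k
      rw [sq]
      exact hk
  choose! f hf1 hf2 using hex
  have hinj : Set.InjOn f (mns N n) := by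
    intro a ha b hb hab
    rw [hf2 a ha, hf2 b hb, hab]
  calc ∑ m ∈ mns N n, (1 : ℝ) / m = ∑ m ∈ mns N n, (1 : ℝ) / (((f m).1 : ℝ) ^ 2 * (f m).2) := by
        refine sum_congr rfl fun m hm => ?_
        conv_lhs => rw [hf2 m hm]
        push_cast
        rfl
    _ = ∑ t ∈ (mns N n).image f, (1 : ℝ) / ((t.1 : ℝ) ^ 2 * t.2) :=
        (sum_image (f := fun t : ℕ × ℕ => (1 : ℝ) / ((t.1 : ℝ) ^ 2 * t.2)) hinj).symm
    _ ≤ ∑ t ∈ Ioc (ZZ N) N ×ˢ Icc 1 N, (1 : ℝ) / ((t.1 : ℝ) ^ 2 * t.2) := by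
        refine sum_le_sum_of_subset_of_nonneg (fun t ht => ?_) fun t _ _ => by positivity
        rw [mem_image] at ht
        obtain ⟨m, hm, rfl⟩ := ht
        exact hf1 m hm
    _ = (∑ p ∈ Ioc (ZZ N) N, ((p : ℝ) ^ 2)⁻¹) * ∑ k ∈ Icc 1 N, ((k : ℝ))⁻¹ := by
        rw [sum_mul_sum, sum_product]
        refine sum_congr rfl fun p _ => sum_congr rfl fun k _ => ?_
        rw [one_div, mul_inv]
    _ ≤ (1 / (ZZ N : ℝ)) * (1 + Real.log N) := by
        have e1 : ∑ p ∈ Ioc (ZZ N) N, ((p : ℝ) ^ 2)⁻¹ ≤ 1 / (ZZ N : ℝ) := by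
          have := sum_Ioc_inv_sq_le_sub (α := ℝ) hZ0 (ZZ_le hN1)
          have h6 : (0 : ℝ) ≤ (N : ℝ)⁻¹ := by positivity
          rw [one_div]
          linarith
        have e2 : ∑ k ∈ Icc 1 N, ((k : ℝ))⁻¹ ≤ 1 + Real.log N := by
          have h7 := harmonic_le_one_add_log N
          rw [harmonic_eq_sum_Icc] at h7
          push_cast at h7
          exact h7
        refine mul_le_mul e1 e2 (sum_nonneg fun _ _ => by positivity) (by positivity)

/-- **WNS.** -/
theorem wns : WnsStm := by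
  intro V
  obtain ⟨N₀, hN₀⟩ := eventually_atTop.1 (w2_big.and (ev_log 1000000000))
  refine ⟨N₀, fun N hN n hn hnN => ?_⟩
  obtain ⟨hB, hL⟩ := hN₀ N hN
  have hN1 : 1 ≤ N := by have := hB.two; omega
  obtain ⟨L, hLd⟩ : ∃ L, L = Real.log (N : ℝ) := ⟨_, rfl⟩
  have hsum := wns_sum hB hn
  have hZ : L ^ 2 / 98 ≤ (ZZ N : ℝ) := by
    have h1 := hB.Zl
    have hZpos : (0 : ℝ) < ZZ N := by
      have : 0 < ZZ N := by have := hB.Z2; omega
      exact_mod_cast this
    have h2 := Real.exp_le_exp.2 h1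
    rw [Real.exp_log hZpos, ← hLd] at h2
    have h3 := Real.quadratic_le_exp_of_nonneg (x := 1 / 7 * L) (by rw [hLd]; linarith)
    have h4 : (1 / 7 * L) ^ 2 / 2 = L ^ 2 / 98 := by ring
    have h5 : 0 ≤ 1 / 7 * L := by rw [hLd]; linarith
    linarith
  rw [← hLd] at hL hsum
  have hZpos : (0 : ℝ) < ZZ N := lt_of_lt_of_le (by positivity) hZ
  have habs : |L * ∑ m ∈ mns N n, kap N n m * gg n m| ≤ 1 / 10000 := by
    rw [mul_sum]
    refine (abs_sum_le_sum_abs _ _).trans ?_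
    calc ∑ m ∈ mns N n, |L * (kap N n m * gg n m)| ≤ ∑ m ∈ mns N n, 462 * ((1 : ℝ) / m) := by
          refine sum_le_sum fun m hm => ?_
          have hmm : m ∈ mm N n := (mem_filter.1 hm).1
          have h1 := wns_kap hN1 hn hmm
          have h2 := wns_term hB hmm
          rw [← hLd] at h2
          have e : L * (kap N n m * gg n m) = kap N n m * (L * gg n m) := by ring
          rw [e, abs_mul, abs_of_nonneg h2.1]
          calc |kap N n m| * (L * gg n m) ≤ 66 * (7 / m) := mul_le_mul h1 h2.2 h2.1 (by norm_num)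
            _ = 462 * ((1 : ℝ) / m) := by ring
      _ = 462 * ∑ m ∈ mns N n, (1 : ℝ) / m := by rw [mul_sum]
      _ ≤ 462 * ((1 / (ZZ N : ℝ)) * (1 + L)) := mul_le_mul_of_nonneg_left hsum (by norm_num)
      _ ≤ 462 * ((1 / (L ^ 2 / 98)) * (1 + L)) := by
          refine mul_le_mul_of_nonneg_left ?_ (by norm_num)
          refine mul_le_mul_of_nonneg_right ?_ (by linarith)
          exact one_div_le_one_div_of_le (by positivity) hZ
      _ ≤ 462 * ((1 / (L ^ 2 / 98)) * (2 * L)) := by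
          refine mul_le_mul_of_nonneg_left ?_ (by norm_num)
          refine mul_le_mul_of_nonneg_left (by linarith) (by positivity)
      _ = 90552 / L := by
          field_simp
          norm_num
      _ ≤ 1 / 10000 := by
          rw [div_le_div_iff₀ (by linarith) (by norm_num)]
          linarith
  rw [← hLd]
  have := (abs_le.1 habs).1
  linarith

end Pool.Agent.Helper34.GX
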