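import Pool.Agent.Helper34.GX.Wd
import Pool.Agent.Helper34.GX.W2
import Pool.Agent.Helper34.GX.W3
import Pool.Agent.Helper34.GX.W4
import Pool.Agent.Helper34.GX.W5
import Pool.Agent.Helper34.GX.WNS

set_option autoImplicit false

/-! Project GX: the lower bound for the local density. -/

namespace Pool.Agent.Helper34.GX

/-- WD: the lower bound for the local density -/
theorem wd : WdStm := wd_of wk1 wk2 wk3 wk4 wns

end Pool.Agent.Helper34.GX
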