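import Pool.Graph.R_seed8.R453.GS.Apg1
import Pool.Agent.Helper34.GX.Stm

set_option autoImplicit false

/-! The minorant in arithmetic progressions to small moduli. -/

namespace Pool.Agent.Helper34.GX.APG

open Finset Filter Topology
open Pool.Agent.H442R2.EHI (lis)
open Pool.Agent.R453.GS (pap inv_class lis_sub cmp2 sup_mul sum_pow log_num)

/-- the weight of a rough number -/
noncomputable def wt (N n : ℕ) : ℝ := 1 - (om N n : ℝ) + pr N n

lemma le_MM' {N m p : ℕ} (h : p ∈ m.primeFactors) : p ≤ MM N m :=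
  (Finset.le_sup (f := id) h).trans (le_max_left _ _)

lemma mm_mono' {N n y : ℕ} (h : n ≤ y) : mm N n ⊆ mm N y := by
  intro m hm
  rw [mem_mm] at hm ⊢
  exact ⟨⟨hm.1.1, hm.1.2.trans h⟩, hm.2.1, hm.2.2.trans_le h⟩

/-- a rough number has at most five different prime factors -/
lemma card_rough {N n : ℕ} (hN : 1 ≤ N) (hn : 1 ≤ n) (hnN : n ≤ N)
    (h : ∀ p ∈ n.primeFactors, ZZ N < p) : n.primeFactors.card ≤ 5 := by
  by_contra hcon
  have h6 : 6 ≤ n.primeFactors.card := by omega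
  have h1 : (ZZ N + 1) ^ n.primeFactors.card ≤ ∏ p ∈ n.primeFactors, p := by
    rw [← Finset.prod_const]
    exact Finset.prod_le_prod' (fun p hp => h p hp)
  have h2 : ∏ p ∈ n.primeFactors, p ≤ n := Nat.le_of_dvd (by omega) (Nat.prod_primeFactors_dvd n)
  have h3 : (ZZ N + 1) ^ 6 ≤ (ZZ N + 1) ^ n.primeFactors.card :=
    Nat.pow_le_pow_right (by omega) h6
  have h4 := ZZ_sixth hN
  omega

lemma pr_eq (N n : ℕ) : pr N n = ∑ a ∈ n.primeFactors, ∑ b ∈ n.primeFactors,
    if a < b then vv N (a * b) else 0 := by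
  unfold pr prs
  rw [sum_filter, sum_product]

/-- the bound of the weight -/
lemma wt_abs {N n : ℕ} (hN : 1 ≤ N) (hn : 1 ≤ n) (hnN : n ≤ N)
    (h : ∀ p ∈ n.primeFactors, ZZ N < p) : |wt N n| ≤ 55 := by
  have h5 := card_rough hN hn hnN h
  have h5r : (n.primeFactors.card : ℝ) ≤ 5 := by exact_mod_cast h5
  have hom : om N n ≤ 5 := (card_filter_le _ _).trans h5
  have homr : (om N n : ℝ) ≤ 5 := by exact_mod_cast hom
  have hom0 : (0 : ℝ) ≤ om N n := Nat.cast_nonneg _
  have hpr : |pr N n| ≤ 50 := by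
    rw [pr_eq]
    refine (abs_sum_le_sum_abs _ _).trans ?_
    have h1 : ∀ a ∈ n.primeFactors, |∑ b ∈ n.primeFactors, if a < b then vv N (a * b) else 0| ≤ 10 := by
      intro a _
      refine (abs_sum_le_sum_abs _ _).trans ?_
      refine (sum_le_card_nsmul _ _ 2 ?_).trans ?_
      · intro b _
        split_ifs
        · exact vv_abs hN _
        · simp
      · rw [nsmul_eq_mul]
        linarith
    refine (sum_le_card_nsmul _ _ _ h1).trans ?_
    rw [nsmul_eq_mul]
    linarith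
  unfold wt
  rw [abs_le] at hpr ⊢
  constructor <;> linarith [hpr.1, hpr.2]

/-- the pairs of a product with a large prime -/
lemma pr_mul {N m p : ℕ} (hm : m ≠ 0) (hp : p.Prime) (h : MM N m < p) :
    pr N (m * p) = pr N m + ∑ q ∈ m.primeFactors, vv N (q * p) := by
  have hnot : p ∉ m.primeFactors := fun hc => by
    have := le_MM' (N := N) hc
    omega
  have hlt : ∀ q ∈ m.primeFactors, q < p := fun q hq => lt_of_le_of_lt (le_MM' (N := N) hq) h
  have hpf : (m * p).primeFactors = insert p m.primeFactors := by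
    rw [Nat.primeFactors_mul hm hp.ne_zero, hp.primeFactors]
    ext x
    simp only [mem_union, mem_singleton, mem_insert]
    tauto
  rw [pr_eq, pr_eq, hpf, sum_insert hnot, sum_insert hnot]
  have e1 : ∑ b ∈ m.primeFactors, (if p < b then vv N (p * b) else 0) = 0 := by
    apply sum_eq_zero
    intro b hb
    rw [if_neg (by have := hlt b hb; omega)]
  have e2 : ∀ a ∈ m.primeFactors, ∑ b ∈ insert p m.primeFactors, (if a < b then vv N (a * b) else 0) =
      vv N (a * p) + ∑ b ∈ m.primeFactors, (if a < b then vv N (a * b) else 0) := by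
    intro a ha
    rw [sum_insert hnot, if_pos (hlt a ha)]
  rw [e1, sum_congr rfl e2, sum_add_distrib, if_neg (lt_irrefl p)]
  ring

/-- the rough numbers in a class -/
noncomputable def RR (N r c y : ℕ) : Finset ℕ :=
  (Icc 1 y).filter (fun n => n ≡ c [MOD r] ∧ ∀ p ∈ n.primeFactors, ZZ N < p)

/-- the primes for a cofactor -/
noncomputable def AA (N r c y m : ℕ) : Finset ℕ :=
  (Ioc (MM N m) (y / m)).filter (fun p => p.Prime ∧ m * p ≡ c [MOD r])

lemma sig_mem {N r c y : ℕ} {x : Σ _ : ℕ, ℕ} (h : x ∈ (mm N y).sigma (fun m => AA N r c y m)) :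
    x.1 * x.2 ∈ RR N r c y := by
  obtain ⟨m, p⟩ := x
  rw [mem_sigma] at h
  obtain ⟨h1, h2⟩ := h
  simp only at h1 h2 ⊢
  rw [mem_mm] at h1
  unfold AA at h2
  rw [mem_filter, mem_Ioc] at h2
  obtain ⟨⟨h3, h4⟩, h5, h6⟩ := h2
  unfold RR
  rw [mem_filter, mem_Icc]
  have hm0 : 0 < m := h1.1.1
  refine ⟨⟨Nat.mul_pos hm0 h5.pos, ?_⟩, h6, ?_⟩
  · calc m * p ≤ m * (y / m) := Nat.mul_le_mul_left _ h4
      _ ≤ y := Nat.mul_div_le y m
  · intro q hq
    show ZZ N < q
    rw [Nat.primeFactors_mul hm0.ne' h5.ne_zero, h5.primeFactors, mem_union, mem_singleton] at hq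
    rcases hq with hq | hq
    · exact h1.2.1 q hq
    · rw [hq]
      exact lt_of_le_of_lt (le_max_right _ _) h3

lemma sig_inj {N r c y : ℕ} : Set.InjOn (fun x : Σ _ : ℕ, ℕ => x.1 * x.2)
    ((mm N y).sigma (fun m => AA N r c y m)) := by
  rintro ⟨m, p⟩ h ⟨m', p'⟩ h' heq
  rw [mem_coe, mem_sigma] at h h'
  obtain ⟨h1, h2⟩ := h
  obtain ⟨h1', h2'⟩ := h'
  simp only at h1 h2 h1' h2' heq
  rw [mem_mm] at h1 h1'
  unfold AA at h2 h2'
  rw [mem_filter, mem_Ioc] at h2 h2'
  have hm0 : m ≠ 0 := by have := h1.1.1; omega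
  have hm0' : m' ≠ 0 := by have := h1'.1.1; omega
  have e1 := sup_mul hm0 h2.2.1 ((le_max_left _ _).trans h2.1.1.le)
  have e2 := sup_mul hm0' h2'.2.1 ((le_max_left _ _).trans h2'.1.1.le)
  have e3 : p = p' := by rw [← e1, ← e2, heq]
  subst e3
  have e4 : m = m' := Nat.eq_of_mul_eq_mul_right h2.2.1.pos heq
  subst e4
  rfl

lemma card_le {N r c y : ℕ} (hZ : 1 ≤ ZZ N) :
    (RR N r c y).card ≤ ∑ m ∈ mm N y, (AA N r c y m).card + 1 + y / ZZ N := by
  rw [← card_sigma]
  have hsub : RR N r c y ⊆ (((mm N y).sigma (fun m => AA N r c y m)).image (fun x => x.1 * x.2) ∪ {1}) ∪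
      (Icc 1 (y / ZZ N)).image (fun m => m * m.primeFactors.sup id) := by
    intro n hn
    unfold RR at hn
    rw [mem_filter, mem_Icc] at hn
    obtain ⟨⟨h1, h2⟩, h3, h4⟩ := hn
    rw [mem_union, mem_union]
    rcases Nat.eq_or_lt_of_le h1 with h5 | h5
    · left; right
      rw [mem_singleton]
      exact h5.symm
    have hne : n.primeFactors.Nonempty := Nat.nonempty_primeFactors.2 h5
    obtain ⟨p, hp, hps⟩ := Finset.exists_mem_eq_sup n.primeFactors hne id
    have hpp : p.Prime := Nat.prime_of_mem_primeFactors hp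
    obtain ⟨m, hm⟩ := Nat.dvd_of_mem_primeFactors hp
    have hps' : n.primeFactors.sup id = p := hps
    have hm0 : m ≠ 0 := by
      intro h
      rw [h, mul_zero] at hm
      omega
    have hZp := h4 p hp
    have hmn : m * p = n := by rw [hm, mul_comm]
    have hsup : m.primeFactors.sup id ≤ p := by
      rw [← hps', hm]
      apply Finset.sup_mono
      rw [Nat.primeFactors_mul hpp.ne_zero hm0]
      exact subset_union_right
    rcases Nat.eq_or_lt_of_le hsup with h6 | h6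
    · right
      rw [mem_image]
      refine ⟨m, ?_, by rw [h6]; exact hmn⟩
      rw [mem_Icc]
      refine ⟨Nat.pos_of_ne_zero hm0, ?_⟩
      rw [Nat.le_div_iff_mul_le (by omega)]
      calc m * ZZ N ≤ m * p := Nat.mul_le_mul_left _ hZp.le
        _ ≤ y := by rw [hmn]; exact h2
    · left; left
      rw [mem_image]
      have hMp : MM N m < p := max_lt h6 hZp
      have hpy : p ≤ y / m := by
        rw [Nat.le_div_iff_mul_le (Nat.pos_of_ne_zero hm0), mul_comm, hmn]
        exact h2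
      refine ⟨⟨m, p⟩, ?_, hmn⟩
      rw [mem_sigma]
      refine ⟨?_, ?_⟩
      · show m ∈ mm N y
        rw [mem_mm]
        refine ⟨⟨Nat.pos_of_ne_zero hm0, ?_⟩, ?_, ?_⟩
        · refine le_trans ?_ h2
          rw [← hmn]
          exact Nat.le_mul_of_pos_right _ hpp.pos
        · intro q hq
          apply h4 q
          rw [hm, Nat.primeFactors_mul hpp.ne_zero hm0]
          exact mem_union_right _ hq
        · calc m * MM N m < m * p := Nat.mul_lt_mul_of_pos_left hMp (Nat.pos_of_ne_zero hm0)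
            _ ≤ y := by rw [hmn]; exact h2
      · show p ∈ AA N r c y m
        unfold AA
        rw [mem_filter, mem_Ioc]
        refine ⟨⟨hMp, hpy⟩, hpp, ?_⟩
        rw [hmn]
        exact h3
  refine (card_le_card hsub).trans ?_
  refine (card_union_le _ _).trans ?_
  refine add_le_add ((card_union_le _ _).trans ?_) ?_
  · rw [card_singleton]
    exact Nat.add_le_add_right card_image_le _
  · refine card_image_le.trans ?_
    rw [Nat.card_Icc, Nat.add_sub_cancel]

/-- no rough numbers in a class which is not coprime to the modulus -/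
lemma RR_empty {N r c y : ℕ} (hr : 1 ≤ r) (hrZ : r ≤ ZZ N) (hc : ¬ c.Coprime r) : RR N r c y = ∅ := by
  rw [eq_empty_iff_forall_notMem]
  intro n hn
  unfold RR at hn
  rw [mem_filter, mem_Icc] at hn
  obtain ⟨⟨h1, _⟩, h3, h4⟩ := hn
  obtain ⟨l, hl, hlc, hlr⟩ := Nat.Prime.not_coprime_iff_dvd.1 hc
  have h5 : l ∣ n := (h3.dvd_iff hlr).2 hlc
  have h6 := h4 l (Nat.mem_primeFactors.2 ⟨hl, h5, by omega⟩)
  have h7 := Nat.le_of_dvd (by omega) hlr
  omega

/-- rough numbers are coprime to small numbers -/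
lemma rough_coprime {N r m : ℕ} (hr : 1 ≤ r) (hrZ : r ≤ ZZ N) (hm : 1 ≤ m)
    (h : ∀ p ∈ m.primeFactors, ZZ N < p) : m.Coprime r := by
  by_contra hcon
  obtain ⟨l, hl, hlm, hlr⟩ := Nat.Prime.not_coprime_iff_dvd.1 hcon
  have h6 := h l (Nat.mem_primeFactors.2 ⟨hl, hlm, by omega⟩)
  have h7 := Nat.le_of_dvd (by omega) hlr
  omega

/-- the number of the prime factors of a product -/
lemma om_mul {N m p : ℕ} (hm : m ≠ 0) (hp : p.Prime) (h : MM N m < p) :
    om N (m * p) = om N m + (if p ≤ Nat.sqrt N then 1 else 0) := by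
  have hnot : p ∉ m.primeFactors := fun hc => by
    have := le_MM' (N := N) hc
    omega
  unfold om
  rw [Nat.primeFactors_mul hm hp.ne_zero, hp.primeFactors, filter_union, card_union_of_disjoint]
  · congr 1
    rw [filter_singleton]
    split_ifs <;> simp
  · rw [disjoint_left]
    intro x hx hx'
    rw [mem_filter] at hx hx'
    rw [mem_singleton] at hx'
    rw [hx'.1] at hx
    exact hnot hx.1

/-- the primes with a condition -/
lemma count_AA {N r c y m q T : ℕ} (hm : 1 ≤ m) (hq : 1 ≤ q) :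
    ∑ p ∈ AA N r c y m, (if q * p ≤ T then (1 : ℝ) else 0) = ((AA N r c (min y (m * T / q)) m).card : ℝ) := by
  rw [← sum_filter, sum_const, nsmul_eq_mul, mul_one]
  congr 2
  unfold AA
  have key : ∀ p : ℕ, (p ≤ (min y (m * T / q)) / m) ↔ (p ≤ y / m ∧ q * p ≤ T) := by
    intro p
    rw [Nat.le_div_iff_mul_le (by omega), Nat.le_div_iff_mul_le (by omega), le_min_iff,
      Nat.le_div_iff_mul_le (by omega)]
    constructor
    · rintro ⟨h1, h2⟩
      refine ⟨h1, ?_⟩
      have h3 : m * (q * p) ≤ m * T := by calc m * (q * p) = p * m * q := by ring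
                                            _ ≤ m * T := h2
      exact Nat.le_of_mul_le_mul_left h3 (by omega)
    · rintro ⟨h1, h2⟩
      refine ⟨h1, ?_⟩
      calc p * m * q = m * (q * p) := by ring
        _ ≤ m * T := Nat.mul_le_mul_left _ h2
  ext p
  simp only [mem_filter, mem_Ioc, key p]
  tauto

/-- the count of the pairs with one cofactor -/
noncomputable def cnt (F : ℕ → ℝ) (N y m : ℕ) : ℝ :=
  wt N m * F y - F (min y (m * Nat.sqrt N)) + ∑ q ∈ m.primeFactors,
    (2 * F (min y (m * T2 N / q)) - 3 * F (min y (m * Nat.sqrt N / q)) + F (min y (m * T0 N / q)))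

/-- the sum over the large primes -/
lemma sum_AA {N r c y m : ℕ} (hm : 1 ≤ m) :
    ∑ p ∈ AA N r c y m, wt N (m * p) = cnt (fun z => ((AA N r c z m).card : ℝ)) N y m := by
  have h1 : ∀ p ∈ AA N r c y m, wt N (m * p) = wt N m - (if 1 * p ≤ Nat.sqrt N then 1 else 0) +
      ∑ q ∈ m.primeFactors, (2 * (if q * p ≤ T2 N then 1 else 0) -
        3 * (if q * p ≤ Nat.sqrt N then 1 else 0) + (if q * p ≤ T0 N then 1 else 0)) := by
    intro p hp
    unfold AA at hp
    rw [mem_filter, mem_Ioc] at hp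
    unfold wt
    rw [om_mul (by omega) hp.2.1 hp.1.1, pr_mul (by omega) hp.2.1 hp.1.1, one_mul]
    unfold vv
    push_cast
    ring
  rw [sum_congr rfl h1, sum_add_distrib, sum_sub_distrib, sum_const, nsmul_eq_mul,
    count_AA hm (le_refl 1), Nat.div_one, sum_comm]
  have h2 : ∀ q ∈ m.primeFactors, ∑ p ∈ AA N r c y m, ((2 : ℝ) * (if q * p ≤ T2 N then 1 else 0) -
        3 * (if q * p ≤ Nat.sqrt N then 1 else 0) + (if q * p ≤ T0 N then 1 else 0)) =
      2 * ((AA N r c (min y (m * T2 N / q)) m).card : ℝ) -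
        3 * ((AA N r c (min y (m * Nat.sqrt N / q)) m).card : ℝ) +
        ((AA N r c (min y (m * T0 N / q)) m).card : ℝ) := by
    intro q hq
    have hq1 : 1 ≤ q := (Nat.prime_of_mem_primeFactors hq).pos
    rw [sum_add_distrib, sum_sub_distrib, ← mul_sum, ← mul_sum, count_AA hm hq1, count_AA hm hq1,
      count_AA hm hq1]
  rw [sum_congr rfl h2]
  unfold cnt
  ring

lemma sum_gm {N r c y : ℕ} : ∑ n ∈ (Icc 1 y).filter (fun n => n ≡ c [MOD r]), gm N n =
    Real.log N * ∑ n ∈ RR N r c y, wt N n := by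
  unfold gm RR wt
  rw [← sum_filter, filter_filter, mul_sum]

/-- the sum over the rough numbers -/
lemma sum_RR {N r c y : ℕ} (hB : Big N) (hy : y ≤ N) :
    |∑ n ∈ RR N r c y, wt N n - ∑ m ∈ mm N y, cnt (fun z => ((AA N r c z m).card : ℝ)) N y m| ≤
      55 * (1 + N / ZZ N) := by
  have hZ2 := hB.Z2
  have hN1 : 1 ≤ N := by have := hB.two; omega
  have hZr : (0 : ℝ) < ZZ N := by exact_mod_cast (by omega : 0 < ZZ N)
  have hyr : (y : ℝ) ≤ N := by exact_mod_cast hy
  obtain ⟨S, hS⟩ : ∃ S, S = (mm N y).sigma (fun m => AA N r c y m) := ⟨_, rfl⟩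
  have e1 : ∑ m ∈ mm N y, cnt (fun z => ((AA N r c z m).card : ℝ)) N y m =
      ∑ n ∈ S.image (fun x => x.1 * x.2), wt N n := by
    rw [hS, sum_image sig_inj, sum_sigma]
    refine sum_congr rfl fun m hm => ?_
    rw [mem_mm] at hm
    exact (sum_AA hm.1.1).symm
  have hsub : S.image (fun x => x.1 * x.2) ⊆ RR N r c y := by
    intro n hn
    rw [mem_image] at hn
    obtain ⟨x, hx, rfl⟩ := hn
    exact sig_mem (by rw [← hS]; exact hx)
  rw [e1, ← sum_sdiff hsub, add_sub_cancel_right]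
  refine (abs_sum_le_sum_abs _ _).trans ?_
  have h1 : ∀ n ∈ RR N r c y \ S.image (fun x => x.1 * x.2), |wt N n| ≤ 55 := by
    intro n hn
    have hn' := (mem_sdiff.1 hn).1
    unfold RR at hn'
    rw [mem_filter, mem_Icc] at hn'
    exact wt_abs hN1 hn'.1.1 (hn'.1.2.trans hy) hn'.2.2
  refine (sum_le_card_nsmul _ _ _ h1).trans ?_
  rw [nsmul_eq_mul, mul_comm]
  refine mul_le_mul_of_nonneg_left ?_ (by norm_num)
  have h2 : ((RR N r c y \ S.image (fun x => x.1 * x.2)).card : ℝ) + (S.card : ℝ) = (RR N r c y).card := by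
    have h3 := card_sdiff_add_card_eq_card hsub
    rw [card_image_of_injOn (by rw [hS]; exact sig_inj)] at h3
    exact_mod_cast h3
  have h4 : ((RR N r c y).card : ℝ) ≤ (S.card : ℝ) + 1 + ((y / ZZ N : ℕ) : ℝ) := by
    have h5 := card_le (N := N) (r := r) (c := c) (y := y) (by omega)
    rw [← card_sigma, ← hS] at h5
    exact_mod_cast h5
  have h6 : ((y / ZZ N : ℕ) : ℝ) ≤ N / ZZ N := Nat.cast_div_le.trans (div_le_div_of_nonneg_right hyr hZr.le)
  linarith

/-- a truncated sum -/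
lemma sum_trunc {N m y q T : ℕ} (hq : 1 ≤ q) :
    ∑ n ∈ Ioc (m * MM N m) y, (if q * n ≤ m * T then (1 : ℝ) else 0) * gg n m =
      ∑ n ∈ Ioc (m * MM N m) (min y (m * T / q)), gg n m := by
  simp only [ite_mul, one_mul, zero_mul]
  rw [← sum_filter]
  apply sum_congr _ fun _ _ => rfl
  ext n
  simp only [mem_filter, mem_Ioc, le_min_iff]
  rw [Nat.le_div_iff_mul_le (by omega), mul_comm n q]
  tauto

/-- the main term -/
lemma sum_Wm {N y : ℕ} (hB : Big N) : ∑ n ∈ Icc 1 y, Wm N n =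
    Real.log N * ∑ m ∈ mm N y, cnt (fun z => ∑ n ∈ Ioc (m * MM N m) z, gg n m) N y m := by
  unfold Wm
  rw [← mul_sum]
  congr 1
  have h1 : ∀ n ∈ Icc 1 y, ∑ m ∈ mm N n, kap N n m * gg n m =
      ∑ m ∈ mm N y, if m ∈ mm N n then kap N n m * gg n m else 0 := by
    intro n hn
    rw [mem_Icc] at hn
    rw [← sum_filter]
    apply sum_congr _ fun _ _ => rfl
    ext m
    rw [mem_filter]
    constructor
    · intro h
      exact ⟨mm_mono' hn.2 h, h⟩
    · exact fun h => h.2
  rw [sum_congr rfl h1, sum_comm]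
  apply sum_congr rfl
  intro m hm
  rw [← sum_filter]
  rw [mem_mm] at hm
  have hM : 2 ≤ MM N m := hB.Z2.trans (le_max_right _ _)
  have e1 : (Icc 1 y).filter (fun n => m ∈ mm N n) = Ioc (m * MM N m) y := by
    ext n
    rw [mem_filter, mem_Icc, mem_Ioc, mem_mm]
    have g1 : m * 2 ≤ m * MM N m := Nat.mul_le_mul_left _ hM
    have g2 : 1 ≤ m := hm.1.1
    constructor
    · rintro ⟨⟨h2, h3⟩, _, _, h4⟩
      exact ⟨h4, h3⟩
    · rintro ⟨h2, h3⟩
      exact ⟨⟨by omega, h3⟩, ⟨g2, by omega⟩, hm.2.1, h2⟩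
  rw [e1]
  have e2 : ∀ n ∈ Ioc (m * MM N m) y, kap N n m * gg n m = wt N m * gg n m -
      (if 1 * n ≤ m * Nat.sqrt N then (1 : ℝ) else 0) * gg n m + ∑ q ∈ m.primeFactors,
        (2 * ((if q * n ≤ m * T2 N then (1 : ℝ) else 0) * gg n m) -
          3 * ((if q * n ≤ m * Nat.sqrt N then (1 : ℝ) else 0) * gg n m) +
          (if q * n ≤ m * T0 N then (1 : ℝ) else 0) * gg n m) := by
    intro n _
    unfold kap kp wt
    rw [add_mul, sum_mul, sub_mul, one_mul]
    congr 1
    apply sum_congr rfl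
    intro q _
    ring
  rw [sum_congr rfl e2, sum_add_distrib, sum_sub_distrib, ← mul_sum, sum_trunc (le_refl 1), Nat.div_one,
    sum_comm]
  have e3 : ∀ q ∈ m.primeFactors, ∑ n ∈ Ioc (m * MM N m) y,
      (2 * ((if q * n ≤ m * T2 N then (1 : ℝ) else 0) * gg n m) -
          3 * ((if q * n ≤ m * Nat.sqrt N then (1 : ℝ) else 0) * gg n m) +
          (if q * n ≤ m * T0 N then (1 : ℝ) else 0) * gg n m) =
      2 * (∑ n ∈ Ioc (m * MM N m) (min y (m * T2 N / q)), gg n m) -
        3 * (∑ n ∈ Ioc (m * MM N m) (min y (m * Nat.sqrt N / q)), gg n m) +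
        ∑ n ∈ Ioc (m * MM N m) (min y (m * T0 N / q)), gg n m := by
    intro q hq
    have hq1 : 1 ≤ q := (Nat.prime_of_mem_primeFactors hq).pos
    rw [sum_add_distrib, sum_sub_distrib, ← mul_sum, ← mul_sum, sum_trunc hq1, sum_trunc hq1,
      sum_trunc hq1]
  rw [sum_congr rfl e3]
  unfold cnt
  rfl

/-- the comparison of two counts -/
lemma cnt_sub {F G : ℕ → ℝ} {N y m : ℕ} {f E : ℝ} (hN : 1 ≤ N) (hm : 1 ≤ m) (hmN : m ≤ N)
    (hr : ∀ p ∈ m.primeFactors, ZZ N < p) (hy : y ≤ N)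
    (h : ∀ z, z ≤ N → |F z - G z / f| ≤ E) : |cnt F N y m - cnt G N y m / f| ≤ 86 * E := by
  have hE : 0 ≤ E := (abs_nonneg _).trans (h 0 (Nat.zero_le _))
  have e : cnt F N y m - cnt G N y m / f = wt N m * (F y - G y / f) -
      (F (min y (m * Nat.sqrt N)) - G (min y (m * Nat.sqrt N)) / f) + ∑ q ∈ m.primeFactors,
        (2 * (F (min y (m * T2 N / q)) - G (min y (m * T2 N / q)) / f) -
          3 * (F (min y (m * Nat.sqrt N / q)) - G (min y (m * Nat.sqrt N / q)) / f) +
          (F (min y (m * T0 N / q)) - G (min y (m * T0 N / q)) / f)) := by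
    have e4 : ∑ q ∈ m.primeFactors,
        (2 * (F (min y (m * T2 N / q)) - G (min y (m * T2 N / q)) / f) -
          3 * (F (min y (m * Nat.sqrt N / q)) - G (min y (m * Nat.sqrt N / q)) / f) +
          (F (min y (m * T0 N / q)) - G (min y (m * T0 N / q)) / f)) =
        ∑ q ∈ m.primeFactors, (2 * F (min y (m * T2 N / q)) - 3 * F (min y (m * Nat.sqrt N / q)) +
          F (min y (m * T0 N / q))) - (∑ q ∈ m.primeFactors, (2 * G (min y (m * T2 N / q)) -
          3 * G (min y (m * Nat.sqrt N / q)) + G (min y (m * T0 N / q)))) / f := by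
      rw [sum_div, ← sum_sub_distrib]
      apply sum_congr rfl
      intro q _
      ring
    rw [e4]
    unfold cnt
    ring
  rw [e]
  have hy' : ∀ z, min y z ≤ N := fun z => (min_le_left _ _).trans hy
  have a1 : |wt N m * (F y - G y / f)| ≤ 55 * E := by
    rw [abs_mul]
    exact mul_le_mul (wt_abs hN hm hmN hr) (h y hy) (abs_nonneg _) (by norm_num)
  have a2 := h _ (hy' (m * Nat.sqrt N))
  have a3 : |∑ q ∈ m.primeFactors, (2 * (F (min y (m * T2 N / q)) - G (min y (m * T2 N / q)) / f) -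
          3 * (F (min y (m * Nat.sqrt N / q)) - G (min y (m * Nat.sqrt N / q)) / f) +
          (F (min y (m * T0 N / q)) - G (min y (m * T0 N / q)) / f))| ≤ 30 * E := by
    refine (abs_sum_le_sum_abs _ _).trans ?_
    refine (sum_le_card_nsmul _ _ (6 * E) ?_).trans ?_
    · intro q _
      have b1 := h _ (hy' (m * T2 N / q))
      have b2 := h _ (hy' (m * Nat.sqrt N / q))
      have b3 := h _ (hy' (m * T0 N / q))
      rw [abs_le] at b1 b2 b3 ⊢
      constructor <;> linarith [b1.1, b1.2, b2.1, b2.2, b3.1, b3.2]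
    · rw [nsmul_eq_mul]
      have h5 : (m.primeFactors.card : ℝ) ≤ 5 := by exact_mod_cast card_rough hN hm hmN hr
      nlinarith
  rw [abs_le] at a1 a2 a3 ⊢
  constructor <;> linarith [a1.1, a1.2, a2.1, a2.2, a3.1, a3.2]

/-- eventually all numerical conditions -/
lemma ev_num (hbig : BigStm) (K U x0 : ℕ) : ∀ᶠ N : ℕ in atTop, Big N ∧ 1 ≤ Real.log N ∧
    (∀ n ≤ N, ∑ m ∈ mm N n, (1 : ℝ) / m ≤ 256) ∧
    x0 ≤ ZZ N ∧ 7 ^ (K + 1) ≤ Real.log N ∧ Real.log N ^ K ≤ ZZ N ∧
    200000 * 7 ^ (U + 2) ≤ Real.log N ∧ 100000 * Real.log N ^ (U + 2) ≤ ZZ N := by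
  have hLT : Tendsto (fun N : ℕ => Real.log (N : ℝ)) atTop atTop :=
    Real.tendsto_log_atTop.comp tendsto_natCast_atTop_atTop
  obtain ⟨N1, hN1⟩ := hbig
  have hpow : ∀ (k : ℕ) (c : ℝ), ∀ᶠ N : ℕ in atTop, c * Real.log N ^ k ≤ ZZ N := by
    intro k c
    have h := (isLittleO_log_rpow_rpow_atTop (k : ℝ) (show (0 : ℝ) < 1 / 6 by norm_num)).bound
      (show 0 < 1 / (2 * (|c| + 1)) by positivity)
    filter_upwards [(tendsto_natCast_atTop_atTop (R := ℝ)).eventually h, hLT.eventually_ge_atTop 1,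
      eventually_ge_atTop 2] with N h1 h2 h3
    rw [Real.rpow_natCast, Real.norm_of_nonneg (by positivity),
      Real.norm_of_nonneg (Real.rpow_nonneg (Nat.cast_nonneg N) _)] at h1
    have hN1 : (1 : ℝ) ≤ N := by exact_mod_cast (by omega : 1 ≤ N)
    have h4 : (1 : ℝ) ≤ (N : ℝ) ^ (1 / 6 : ℝ) := Real.one_le_rpow hN1 (by norm_num)
    have h5 : (N : ℝ) ^ (1 / 6 : ℝ) < (ZZ N : ℝ) + 1 := Nat.lt_floor_add_one _
    have h6 : (1 : ℝ) ≤ ZZ N := by exact_mod_cast (Nat.one_le_floor_iff _).2 h4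
    have h7 : c * Real.log N ^ k ≤ (|c| + 1) * Real.log N ^ k := by
      apply mul_le_mul_of_nonneg_right _ (by positivity)
      linarith [le_abs_self c]
    have h8 : (|c| + 1) * Real.log N ^ k ≤ (|c| + 1) * (1 / (2 * (|c| + 1)) * (N : ℝ) ^ (1 / 6 : ℝ)) :=
      mul_le_mul_of_nonneg_left h1 (by positivity)
    have h9 : (|c| + 1) * (1 / (2 * (|c| + 1)) * (N : ℝ) ^ (1 / 6 : ℝ)) = (N : ℝ) ^ (1 / 6 : ℝ) / 2 := by
      field_simp
    linarith
  have hx := hpow 0 x0
  filter_upwards [eventually_ge_atTop N1, hLT.eventually_ge_atTop 1, hx, hLT.eventually_ge_atTop (7 ^ (K + 1)),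
    hpow K 1, hLT.eventually_ge_atTop (200000 * 7 ^ (U + 2)), hpow (U + 2) 100000] with N h1 h2 h4 h5 h6 h7 h8
  refine ⟨(hN1 N h1).1, h2, (hN1 N h1).2.1, ?_, h5, by simpa using h6, h7, h8⟩
  rw [pow_zero, mul_one] at h4
  exact_mod_cast h4

theorem apm_of (hbig : BigStm) : ApmStm := by
  intro K U
  obtain ⟨x0, hpap⟩ := pap (K + 1) (U + 2)
  obtain ⟨N₀, hN₀⟩ := eventually_atTop.1 (ev_num hbig K U x0)
  refine ⟨N₀, fun N hN r hr hrN c y hy => ?_⟩
  obtain ⟨hB, hL1, hS3, hx0, h4K, hKZ, hU4, hUZ⟩ := hN₀ N hN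
  have hZ2 := hB.Z2
  have hL0 : 0 < Real.log N := hB.L
  have hN1 : 1 ≤ N := by have := hB.two; omega
  have hrZ : r ≤ ZZ N := by exact_mod_cast hrN.trans hKZ
  rw [sum_gm]
  by_cases hc : c.Coprime r
  swap
  · rw [RR_empty hr hrZ hc, if_neg hc]
    simp only [sum_empty, mul_zero, sub_zero, abs_zero]
    positivity
  rw [if_pos hc, sum_Wm hB]
  obtain ⟨L, hLd⟩ : ∃ L, L = Real.log (N : ℝ) := ⟨_, rfl⟩
  rw [← hLd] at hL1 hL0 hrN h4K hKZ hU4 hUZ ⊢
  have hNr : (0 : ℝ) < N := by exact_mod_cast hN1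
  have hZr : (0 : ℝ) < ZZ N := by exact_mod_cast (by omega : 0 < ZZ N)
  have hZ2r : (2 : ℝ) ≤ ZZ N := by exact_mod_cast hZ2
  have hZl : L / 7 ≤ Real.log (ZZ N) := by have := hB.Zl; rw [← hLd] at this; linarith
  have hφ : (1 : ℝ) ≤ (Nat.totient r : ℝ) := by exact_mod_cast Nat.totient_pos.2 hr
  have hyr : (y : ℝ) ≤ N := by exact_mod_cast hy
  -- the number of cofactors
  have hmcard : ((mm N y).card : ℝ) ≤ N / ZZ N := by
    have h1 : (mm N y).card ≤ y / ZZ N := by
      have hsub : mm N y ⊆ Icc 1 (y / ZZ N) := by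
        intro m hm
        rw [mem_mm] at hm
        rw [mem_Icc, Nat.le_div_iff_mul_le (by omega)]
        refine ⟨hm.1.1, ?_⟩
        exact (lt_of_le_of_lt (Nat.mul_le_mul_left _ (le_max_right _ _)) hm.2.2).le
      refine (Finset.card_le_card hsub).trans ?_
      rw [Nat.card_Icc, Nat.add_sub_cancel]
    calc ((mm N y).card : ℝ) ≤ ((y / ZZ N : ℕ) : ℝ) := by exact_mod_cast h1
      _ ≤ (y : ℝ) / ZZ N := Nat.cast_div_le
      _ ≤ N / ZZ N := div_le_div_of_nonneg_right hyr hZr.le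
  -- one cofactor
  obtain ⟨e, he⟩ : ∃ e : ℝ, e = 2 * 7 ^ (U + 2) / L ^ (U + 2) * N := ⟨_, rfl⟩
  have he0 : 0 ≤ e := by rw [he]; positivity
  have hone : ∀ m ∈ mm N y, ∀ y' : ℕ, y' ≤ N → |((AA N r c y' m).card : ℝ) -
      (∑ n ∈ Ioc (m * MM N m) y', gg n m) / (Nat.totient r : ℝ)| ≤ e * ((1 : ℝ) / m) + 14 / L := by
    intro m hm y' hy'
    rw [mem_mm] at hm
    obtain ⟨⟨hm1, _⟩, hm2, _⟩ := hm
    have hm0 : (0 : ℝ) < m := by exact_mod_cast hm1
    rcases Nat.lt_or_ge (m * MM N m) y' with hm3 | hm3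
    swap
    · have e1 : AA N r c y' m = ∅ := by
        unfold AA
        rw [Ioc_eq_empty, filter_empty]
        rw [not_lt]
        calc y' / m ≤ (m * MM N m) / m := Nat.div_le_div_right hm3
          _ = MM N m := Nat.mul_div_cancel_left _ hm1
      rw [e1, Ioc_eq_empty (by omega)]
      simp only [card_empty, Nat.cast_zero, sum_empty, zero_div, sub_zero, abs_zero]
      positivity
    have hy'r : (y' : ℝ) ≤ N := by exact_mod_cast hy'
    obtain ⟨c', hc', hcc⟩ := inv_class hr (rough_coprime hr hrZ hm1 hm2) hc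
    have hMZ : ZZ N ≤ MM N m := le_max_right _ _
    have hMY : MM N m ≤ y' / m := by
      rw [Nat.le_div_iff_mul_le hm1, mul_comm]
      exact le_of_lt hm3
    have hcard : ((AA N r c y' m).card : ℝ) =
        (((Icc 1 (y' / m)).filter (fun p => p.Prime ∧ p ≡ c' [MOD r])).card : ℝ) -
        (((Icc 1 (MM N m)).filter (fun p => p.Prime ∧ p ≡ c' [MOD r])).card : ℝ) := by
      have e1 : (Icc 1 (y' / m)).filter (fun p => p.Prime ∧ p ≡ c' [MOD r]) =
          (Icc 1 (MM N m)).filter (fun p => p.Prime ∧ p ≡ c' [MOD r]) ∪ AA N r c y' m := by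
        unfold AA
        ext p
        simp only [mem_union, mem_filter, mem_Icc, mem_Ioc, hcc p]
        constructor
        · rintro ⟨⟨h1, h2⟩, h3⟩
          rcases Nat.lt_or_ge (MM N m) p with h | h
          · exact Or.inr ⟨⟨h, h2⟩, h3⟩
          · exact Or.inl ⟨⟨h1, h⟩, h3⟩
        · rintro (⟨⟨h1, h2⟩, h3⟩ | ⟨⟨h1, h2⟩, h3⟩)
          · exact ⟨⟨h1, h2.trans hMY⟩, h3⟩
          · exact ⟨⟨h3.1.pos, h2⟩, h3⟩
      have hd : Disjoint ((Icc 1 (MM N m)).filter (fun p => p.Prime ∧ p ≡ c' [MOD r])) (AA N r c y' m) := by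
        rw [disjoint_left]
        intro p h1 h2
        rw [mem_filter, mem_Icc] at h1
        unfold AA at h2
        rw [mem_filter, mem_Ioc] at h2
        omega
      rw [e1, card_union_of_disjoint hd]
      push_cast
      ring
    have hcond : ∀ x : ℕ, ZZ N ≤ x → |(((Icc 1 x).filter (fun p => p.Prime ∧ p ≡ c' [MOD r])).card : ℝ) -
        lis x / (Nat.totient r : ℝ)| ≤ x * (7 ^ (U + 2) / L ^ (U + 2)) := by
      intro x hx
      have hxr : (ZZ N : ℝ) ≤ x := by exact_mod_cast hx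
      have hx0' : (0 : ℝ) < x := by linarith
      have hlx : L / 7 ≤ Real.log x := hZl.trans (Real.log_le_log hZr hxr)
      have hlx0 : 0 < Real.log x := by linarith
      have hrx : (r : ℝ) ≤ Real.log x ^ (K + 1) := by
        calc (r : ℝ) ≤ L ^ K := hrN
          _ ≤ L ^ K * (L / 7 ^ (K + 1)) := by
            apply le_mul_of_one_le_right (by positivity)
            rw [one_le_div (by positivity)]
            exact h4K
          _ = (L / 7) ^ (K + 1) := by rw [div_pow, pow_succ L]; field_simp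
          _ ≤ Real.log x ^ (K + 1) := pow_le_pow_left₀ (by positivity) hlx _
      refine (hpap x (hx0.trans hx) r hr hrx c' hc').trans ?_
      rw [div_eq_mul_one_div]
      apply mul_le_mul_of_nonneg_left _ hx0'.le
      calc 1 / Real.log x ^ (U + 2) ≤ 1 / (L / 7) ^ (U + 2) :=
            one_div_le_one_div_of_le (by positivity) (pow_le_pow_left₀ (by positivity) hlx _)
        _ = 7 ^ (U + 2) / L ^ (U + 2) := by rw [div_pow, one_div_div]
    have h1 := hcond _ hMZ
    have h2 := hcond _ (hMZ.trans hMY)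
    have hlis := lis_sub (a := MM N m) (b := y' / m) (by omega) hMY
    have hYr : ((y' / m : ℕ) : ℝ) ≤ N * (1 / m) := by
      rw [mul_one_div]
      exact Nat.cast_div_le.trans (div_le_div_of_nonneg_right hy'r hm0.le)
    have hMr : ((MM N m : ℕ) : ℝ) ≤ N * (1 / m) := le_trans (by exact_mod_cast hMY) hYr
    have he' : 0 < (7 : ℝ) ^ (U + 2) / L ^ (U + 2) := by positivity
    have h3 := mul_le_mul_of_nonneg_right hYr he'.le
    have h4 := mul_le_mul_of_nonneg_right hMr he'.le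
    have e3 : e * ((1 : ℝ) / m) =
        N * (1 / m) * (7 ^ (U + 2) / L ^ (U + 2)) + N * (1 / m) * (7 ^ (U + 2) / L ^ (U + 2)) := by rw [he]; ring
    have h5 : |∑ n ∈ Ioc (m * MM N m) y', gg n m - ∑ k ∈ Ioc (MM N m) (y' / m), 1 / Real.log k| ≤ 14 / L := by
      refine (cmp2 hm1 (hZ2.trans (le_max_right _ _)) hm3).trans ?_
      have h2 : L / 7 ≤ Real.log (MM N m) := hZl.trans
        (Real.log_le_log hZr (by exact_mod_cast (le_max_right _ _ : ZZ N ≤ MM N m)))
      calc 2 / Real.log (MM N m) ≤ 2 / (L / 7) := div_le_div_of_nonneg_left (by norm_num) (by positivity) h2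
        _ = 14 / L := by field_simp; norm_num
    rw [hcard]
    have e2 : ∀ a b p q f T : ℝ, a - b - T / f = (a - p / f) - (b - q / f) - (T - (p - q)) / f := by
      intros; ring
    rw [e2 _ _ (lis (y' / m)) (lis (MM N m)), hlis]
    have h6 : |(∑ n ∈ Ioc (m * MM N m) y', gg n m - ∑ k ∈ Ioc (MM N m) (y' / m), 1 / Real.log k) /
        (Nat.totient r : ℝ)| ≤ 14 / L := by
      rw [abs_div, abs_of_pos (show (0 : ℝ) < (Nat.totient r : ℝ) by linarith)]
      exact (div_le_self (abs_nonneg _) hφ).trans h5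
    refine (abs_sub _ _).trans (add_le_add ((abs_sub _ _).trans ?_) h6)
    rw [e3]
    linarith
  -- the sum over the cofactors
  have hsum : |∑ m ∈ mm N y, cnt (fun z => ((AA N r c z m).card : ℝ)) N y m -
      (∑ m ∈ mm N y, cnt (fun z => ∑ n ∈ Ioc (m * MM N m) z, gg n m) N y m) / (Nat.totient r : ℝ)| ≤
        86 * (e * 256 + 14 / L * (N / ZZ N)) := by
    rw [sum_div, ← sum_sub_distrib]
    refine (abs_sum_le_sum_abs _ _).trans ?_
    have h1 : ∀ m ∈ mm N y, |cnt (fun z => ((AA N r c z m).card : ℝ)) N y m -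
      cnt (fun z => ∑ n ∈ Ioc (m * MM N m) z, gg n m) N y m / (Nat.totient r : ℝ)| ≤
        86 * (e * ((1 : ℝ) / m) + 14 / L) := by
      intro m hm
      have h4 := mem_mm.1 hm
      exact cnt_sub hN1 h4.1.1 (h4.1.2.trans hy) h4.2.1 hy (fun z hz => hone m hm z hz)
    refine (sum_le_sum h1).trans ?_
    rw [← mul_sum, sum_add_distrib, ← mul_sum, sum_const, nsmul_eq_mul]
    have h2 := mul_le_mul_of_nonneg_left (hS3 y hy) he0
    have h3 : ((mm N y).card : ℝ) * (14 / L) ≤ 14 / L * (N / ZZ N) := by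
      rw [mul_comm]
      exact mul_le_mul_of_nonneg_left hmcard (by positivity)
    linarith
  have hcount := sum_RR (r := r) (c := c) hB hy
  obtain ⟨P, hP⟩ : ∃ P, P = ∑ m ∈ mm N y, cnt (fun z => ((AA N r c z m).card : ℝ)) N y m := ⟨_, rfl⟩
  obtain ⟨T, hT⟩ : ∃ T, T = ∑ m ∈ mm N y, cnt (fun z => ∑ n ∈ Ioc (m * MM N m) z, gg n m) N y m := ⟨_, rfl⟩
  obtain ⟨R, hR⟩ : ∃ R, R = ∑ n ∈ RR N r c y, wt N n := ⟨_, rfl⟩
  rw [← hP, ← hR] at hcount
  rw [← hP, ← hT] at hsum
  rw [← hR, ← hT]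
  have e1 : L * R - L * T / (Nat.totient r : ℝ) = L * (R - P) + L * (P - T / (Nat.totient r : ℝ)) := by ring
  rw [e1]
  have b1 : |L * (R - P)| ≤ L * (55 * (1 + N / ZZ N)) := by
    rw [abs_mul, abs_of_pos hL0]
    exact mul_le_mul_of_nonneg_left hcount hL0.le
  have b2 : |L * (P - T / (Nat.totient r : ℝ))| ≤ L * (86 * (e * 256 + 14 / L * (N / ZZ N))) := by
    rw [abs_mul, abs_of_pos hL0]
    exact mul_le_mul_of_nonneg_left hsum hL0.le
  have b3 : L * (86 * (e * 256 + 14 / L * (N / ZZ N))) = 22016 * (L * e) + 1204 * (N / ZZ N) := by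
    field_simp
    ring
  have hNZ1 : 1 ≤ N / (ZZ N : ℝ) := by
    rw [one_le_div hZr]
    exact_mod_cast ZZ_le hN1
  have c1 : N / (ZZ N : ℝ) ≤ N / (100000 * L ^ (U + 2)) := div_le_div_of_nonneg_left hNr.le (by positivity) hUZ
  have c2 : N / (100000 * L ^ (U + 2)) * (1314 * L) ≤ N / L ^ U * (1 / 10) := by
    have e : N / (100000 * L ^ (U + 2)) * (1314 * L) = N / L ^ U * (1314 / 100000) * (1 / L) := by
      rw [pow_add]
      field_simp
    rw [e]
    have : 1 / L ≤ 1 := by rw [div_le_one hL0]; exact hL1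
    have h0 : 0 ≤ N / L ^ U := by positivity
    nlinarith
  have c3 : 22016 * (L * e) ≤ N / L ^ U * (44032 / 200000) := by
    have e' : 22016 * (L * e) = N / L ^ U * (44032 / 200000) * (200000 * 7 ^ (U + 2) / L) := by
      rw [he, pow_add L]
      field_simp
      ring
    rw [e']
    have : 200000 * 7 ^ (U + 2) / L ≤ 1 := by rw [div_le_one hL0]; exact hU4
    have h0 : 0 ≤ N / L ^ U * (44032 / 200000) := by positivity
    nlinarith
  have c4 : L * (55 * (1 + N / ZZ N)) + 1204 * (N / ZZ N) ≤ N / (ZZ N : ℝ) * (1314 * L) := by nlinarith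
  have c5 : N / (ZZ N : ℝ) * (1314 * L) ≤ N / L ^ U * (1 / 10) :=
    (mul_le_mul_of_nonneg_right c1 (by positivity)).trans c2
  have h0 : 0 < N / L ^ U := by positivity
  refine (abs_add_le _ _).trans ?_
  linarith

end Pool.Agent.Helper34.GX.APG

namespace Pool.Agent.Helper34.GX

/-- module APG (helper36) -/
theorem apm_of (hbig : BigStm) : ApmStm := APG.apm_of hbig

end Pool.Agent.Helper34.GX
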