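import Pool.Graph.R_seed8.R460.GH.Dec
import Pool.Graph.R_seed8.R460.GS.Stm

set_option autoImplicit false

/-!
Project GX: the lower bound for the number of Goldbach representations in the residue classes of every modulus up to
`N ^ (5/6 - ρ)`. The definitions of the minorant.

Notation: `Z = N ^ (1/6)`, `W = N ^ (1/2000)`, `T₀ = N ^ (5/12)`, `T₂ = N ^ (233/400)`; `vv` is the weight of the
pairs of primes: `0` up to `T₀`, `-1` on `(T₀, √N]`, `2` on `(√N, T₂]`, `0` beyond `T₂`; `gm N n` is `log N` times `1`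
minus the number of the different prime factors of `n` up to `√N` plus the sum of `vv` over the products of the pairs of
different prime factors of `n`, if `n` has no prime factors up to `Z`, and `0` otherwise.
-/

namespace Pool.Agent.Helper34.GX

open Finset
open Pool.Agent.R460.GH (af qz)
open Pool.Agent.R460.GS (ro)

/-- `N ^ (1 / 2000)` -/
noncomputable def WW (N : ℕ) : ℕ := ⌊(N : ℝ) ^ (1 / 2000 : ℝ)⌋₊

/-- `N ^ (1 / 6)` -/
noncomputable def ZZ (N : ℕ) : ℕ := ⌊(N : ℝ) ^ (1 / 6 : ℝ)⌋₊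

/-- `N ^ (5 / 12)` -/
noncomputable def T0 (N : ℕ) : ℕ := ⌊(N : ℝ) ^ (5 / 12 : ℝ)⌋₊

/-- `N ^ (233 / 400)` -/
noncomputable def T2 (N : ℕ) : ℕ := ⌊(N : ℝ) ^ (233 / 400 : ℝ)⌋₊

/-- the number of the prime factors up to `√N` -/
def om (N n : ℕ) : ℕ := (n.primeFactors.filter (fun p => p ≤ Nat.sqrt N)).card

/-- the weight of the pairs of primes: `0` up to `T₀`, `-1` on `(T₀, √N]`, `2` on `(√N, T₂]`, `0` beyond -/
noncomputable def vv (N x : ℕ) : ℝ :=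
  2 * (if x ≤ T2 N then 1 else 0) - 3 * (if x ≤ Nat.sqrt N then 1 else 0) + (if x ≤ T0 N then 1 else 0)

/-- the pairs of different prime factors -/
def prs (n : ℕ) : Finset (ℕ × ℕ) := (n.primeFactors ×ˢ n.primeFactors).filter (fun t => t.1 < t.2)

/-- the sum over the pairs of different prime factors -/
noncomputable def pr (N n : ℕ) : ℝ := ∑ t ∈ prs n, vv N (t.1 * t.2)

/-- the minorant -/
noncomputable def gm (N n : ℕ) : ℝ :=
  if ∀ p ∈ n.primeFactors, ZZ N < p then Real.log N * (1 - (om N n : ℝ) + pr N n) else 0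

/-- the same with complex values -/
noncomputable def GM (N n : ℕ) : ℂ := ((gm N n : ℝ) : ℂ)

open Classical in
/-- the products of two different primes above `Z`, with the weight `vv` -/
noncomputable def hz (Z N n : ℕ) : ℂ :=
  if ∃ p p' : ℕ, p.Prime ∧ p'.Prime ∧ Z < p ∧ p < p' ∧ n = p * p' then ((vv N n : ℝ) : ℂ) else 0

/-- the operation `f - q * f + h * f` -/
noncomputable def op (Z P N : ℕ) (f : ArithmeticFunction ℂ) : ArithmeticFunction ℂ :=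
  f - af (qz Z P) * f + af (hz Z N) * f

/-- the sieve function -/
noncomputable def F1 (Z P N : ℕ) : ArithmeticFunction ℂ := op Z P N (af (fun n => ((ro Z n : ℝ) : ℂ)))

/-! ### The local density -/

/-- bounded variation, signed weights -/
structure WS (W : ℕ → ℝ) (c : ℝ) (N : ℕ) : Prop where
  h1 : ∀ n ≤ N, |W n| ≤ c
  h2 : ∑ n ∈ range N, |W (n + 1) - W n| ≤ c

lemma WS.nn {W : ℕ → ℝ} {c : ℝ} {N : ℕ} (h : WS W c N) : 0 ≤ c := (abs_nonneg _).trans (h.h1 0 (Nat.zero_le _))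

/-- the lower bound for the largest prime -/
noncomputable def MM (N m : ℕ) : ℕ := max (m.primeFactors.sup id) (ZZ N)

/-- the cofactors -/
noncomputable def mm (N n : ℕ) : Finset ℕ :=
  (Icc 1 n).filter (fun m => (∀ p ∈ m.primeFactors, ZZ N < p) ∧ m * MM N m < n)

/-- the density of the primes at `n / m`, divided by `m` -/
noncomputable def gg (n m : ℕ) : ℝ := 1 / ((m : ℝ) * Real.log ((n : ℝ) / m))

/-- the weight of the pairs `p, n / m` for the prime factors `p` of the cofactor `m` -/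
noncomputable def kp (N n m : ℕ) : ℝ :=
  ∑ p ∈ m.primeFactors, (2 * (if p * n ≤ m * T2 N then 1 else 0) - 3 * (if p * n ≤ m * Nat.sqrt N then 1 else 0) +
    (if p * n ≤ m * T0 N then 1 else 0))

/-- the weight -/
noncomputable def kap (N n m : ℕ) : ℝ :=
  (1 - (om N m : ℝ) + pr N m) - (if n ≤ m * Nat.sqrt N then 1 else 0) + kp N n m

/-- the local density of the minorant -/
noncomputable def Wm (N n : ℕ) : ℝ := Real.log N * ∑ m ∈ mm N n, kap N n m * gg n m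

lemma mem_mm {N n m : ℕ} : m ∈ mm N n ↔ (1 ≤ m ∧ m ≤ n) ∧ (∀ p ∈ m.primeFactors, ZZ N < p) ∧
    m * MM N m < n := by
  unfold mm
  rw [mem_filter, mem_Icc]

/-- large `N` -/
structure Big (N : ℕ) : Prop where
  two : 2 ≤ N
  Z2 : 2 ≤ ZZ N
  L : 0 < Real.log N
  Zl : (1 / 7 : ℝ) * Real.log N ≤ Real.log (ZZ N)

/-- the primes between two powers -/
noncomputable def PP (a b : ℝ) (N : ℕ) : Finset ℕ := (Ioc ⌊(N : ℝ) ^ a⌋₊ ⌊(N : ℝ) ^ b⌋₊).filter Nat.Prime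

noncomputable def SP (a b : ℝ) (N : ℕ) : ℝ := ∑ p ∈ PP a b N, (1 : ℝ) / p

/-! ### Elementary bounds used in all modules -/

lemma one_le_WW {N : ℕ} (hN : 1 ≤ N) : 1 ≤ WW N := by
  unfold WW
  rw [Nat.one_le_floor_iff]
  exact Real.one_le_rpow (by exact_mod_cast hN) (by norm_num)

lemma WW_le {N : ℕ} (hN : 1 ≤ N) : WW N ≤ ZZ N := by
  unfold WW ZZ
  refine Nat.floor_le_floor ?_
  exact Real.rpow_le_rpow_of_exponent_le (by exact_mod_cast hN) (by norm_num)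

lemma ZZ_real {N : ℕ} : (ZZ N : ℝ) ≤ (N : ℝ) ^ (1 / 6 : ℝ) := Nat.floor_le (by positivity)

lemma WW_real {N : ℕ} : (WW N : ℝ) ≤ (N : ℝ) ^ (1 / 2000 : ℝ) := Nat.floor_le (by positivity)

lemma T0_real {N : ℕ} : (T0 N : ℝ) ≤ (N : ℝ) ^ (5 / 12 : ℝ) := Nat.floor_le (by positivity)

lemma T2_real {N : ℕ} : (T2 N : ℝ) ≤ (N : ℝ) ^ (233 / 400 : ℝ) := Nat.floor_le (by positivity)

lemma ZZ_le {N : ℕ} (hN : 1 ≤ N) : ZZ N ≤ N := by
  have h1 : (ZZ N : ℝ) ≤ N := by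
    refine ZZ_real.trans ?_
    calc (N : ℝ) ^ (1 / 6 : ℝ) ≤ (N : ℝ) ^ (1 : ℝ) :=
          Real.rpow_le_rpow_of_exponent_le (by exact_mod_cast hN) (by norm_num)
      _ = N := Real.rpow_one _
  exact_mod_cast h1

lemma WW_sq_le {N : ℕ} (hN : 1 ≤ N) : WW N * WW N ≤ ZZ N := by
  unfold ZZ
  apply Nat.le_floor
  have h1 := WW_real (N := N)
  have hN0 : (0 : ℝ) < N := by exact_mod_cast hN
  push_cast
  calc (WW N : ℝ) * WW N ≤ (N : ℝ) ^ (1 / 2000 : ℝ) * (N : ℝ) ^ (1 / 2000 : ℝ) :=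
        mul_le_mul h1 h1 (Nat.cast_nonneg _) (by positivity)
    _ = (N : ℝ) ^ (1 / 1000 : ℝ) := by
        rw [← Real.rpow_add hN0]
        norm_num
    _ ≤ (N : ℝ) ^ (1 / 6 : ℝ) := Real.rpow_le_rpow_of_exponent_le (by exact_mod_cast hN) (by norm_num)

lemma ZZ_sixth {N : ℕ} (hN : 1 ≤ N) : N < (ZZ N + 1) ^ 6 := by
  have h1 : (N : ℝ) ^ (1 / 6 : ℝ) < (ZZ N : ℝ) + 1 := Nat.lt_floor_add_one _
  have hN0 : (0 : ℝ) < N := by exact_mod_cast hN
  have h3 : ((N : ℝ) ^ (1 / 6 : ℝ)) ^ 6 < ((ZZ N : ℝ) + 1) ^ 6 := by gcongr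
  have h4 : ((N : ℝ) ^ (1 / 6 : ℝ)) ^ 6 = N := by
    rw [← Real.rpow_natCast, ← Real.rpow_mul hN0.le]
    norm_num
  rw [h4] at h3
  exact_mod_cast h3

lemma ZZ_le_sqrt {N : ℕ} (hN : 1 ≤ N) : ZZ N ≤ Nat.sqrt N := by
  rw [Nat.le_sqrt]
  have h1 := ZZ_real (N := N)
  have hN0 : (0 : ℝ) < N := by exact_mod_cast hN
  have h2 : (ZZ N : ℝ) * ZZ N ≤ N := by
    calc (ZZ N : ℝ) * ZZ N ≤ (N : ℝ) ^ (1 / 6 : ℝ) * (N : ℝ) ^ (1 / 6 : ℝ) :=
          mul_le_mul h1 h1 (Nat.cast_nonneg _) (by positivity)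
      _ = (N : ℝ) ^ (1 / 3 : ℝ) := by
          rw [← Real.rpow_add hN0]
          norm_num
      _ ≤ (N : ℝ) ^ (1 : ℝ) := Real.rpow_le_rpow_of_exponent_le (by exact_mod_cast hN) (by norm_num)
      _ = N := Real.rpow_one _
  exact_mod_cast h2

lemma sqrt_half {N : ℕ} : (Nat.sqrt N : ℝ) ≤ (N : ℝ) ^ (1 / 2 : ℝ) := by
  have h1 : ((Nat.sqrt N : ℕ) : ℝ) ≤ Real.sqrt N := Real.nat_sqrt_le_real_sqrt
  refine h1.trans ?_
  rw [Real.sqrt_eq_rpow]

lemma lt_sqrt_half {N : ℕ} : (N : ℝ) ^ (1 / 2 : ℝ) < Nat.sqrt N + 1 := by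
  rw [← Real.sqrt_eq_rpow]
  exact Real.real_sqrt_lt_nat_sqrt_succ

lemma T0_le_sqrt {N : ℕ} (hN : 1 ≤ N) : T0 N ≤ Nat.sqrt N := by
  rw [Nat.le_sqrt]
  have h1 := T0_real (N := N)
  have hN0 : (0 : ℝ) < N := by exact_mod_cast hN
  have h2 : (T0 N : ℝ) * T0 N ≤ N := by
    calc (T0 N : ℝ) * T0 N ≤ (N : ℝ) ^ (5 / 12 : ℝ) * (N : ℝ) ^ (5 / 12 : ℝ) :=
          mul_le_mul h1 h1 (Nat.cast_nonneg _) (by positivity)
      _ = (N : ℝ) ^ (5 / 6 : ℝ) := by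
          rw [← Real.rpow_add hN0]
          norm_num
      _ ≤ (N : ℝ) ^ (1 : ℝ) := Real.rpow_le_rpow_of_exponent_le (by exact_mod_cast hN) (by norm_num)
      _ = N := Real.rpow_one _
  exact_mod_cast h2

lemma sqrt_le_T2 {N : ℕ} (hN : 1 ≤ N) : Nat.sqrt N ≤ T2 N := by
  unfold T2
  apply Nat.le_floor
  exact sqrt_half.trans (Real.rpow_le_rpow_of_exponent_le (by exact_mod_cast hN) (by norm_num))

lemma vv_abs {N : ℕ} (hN : 1 ≤ N) (x : ℕ) : |vv N x| ≤ 2 := by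
  have h1 := T0_le_sqrt hN
  have h2 := sqrt_le_T2 hN
  unfold vv
  rw [abs_le]
  split_ifs with a b c <;> first | omega | (constructor <;> norm_num)

lemma vv_le {N : ℕ} (hN : 1 ≤ N) (x : ℕ) : vv N x ≤ 2 := (abs_le.1 (vv_abs hN x)).2

lemma vv_ge {N : ℕ} (hN : 1 ≤ N) (x : ℕ) : -1 ≤ vv N x := by
  have h1 := T0_le_sqrt hN
  have h2 := sqrt_le_T2 hN
  unfold vv
  split_ifs with a b c <;> first | omega | norm_num

end Pool.Agent.Helper34.GX
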