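import Pool.Agent.Helper34.GX.Base

set_option autoImplicit false

/-! Project GX: the decomposition of the minorant. -/

namespace Pool.Agent.Helper34.GX

open Finset
open Pool.Agent.R460.GS (ro er a1 a2 b1 b2 Sm pmx mu Tw pf_div er_le)
open Pool.Agent.R460.GH (af af_apply mul_ap qz mu1 sum_ap sub_ap dec_af conv_vec mu1_le)

lemma op_mul (Z P N : ℕ) (f g : ArithmeticFunction ℂ) : op Z P N (f * g) = f * op Z P N g := by
  unfold op
  ring

lemma op_mul' (Z P N : ℕ) (f g : ArithmeticFunction ℂ) : op Z P N (f * g) = op Z P N f * g := by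
  rw [mul_comm, op_mul, mul_comm]

lemma op_add (Z P N : ℕ) (f g : ArithmeticFunction ℂ) : op Z P N (f + g) = op Z P N f + op Z P N g := by
  unfold op
  ring

lemma op_sub (Z P N : ℕ) (f g : ArithmeticFunction ℂ) : op Z P N (f - g) = op Z P N f - op Z P N g := by
  unfold op
  ring

lemma op_sum (Z P N : ℕ) {ι : Type*} (s : Finset ι) (f : ι → ArithmeticFunction ℂ) :
    op Z P N (∑ i ∈ s, f i) = ∑ i ∈ s, op Z P N (f i) := by
  unfold op
  rw [mul_sum, mul_sum, ← sum_sub_distrib, ← sum_add_distrib]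

lemma op_ap (Z P N : ℕ) (f : ArithmeticFunction ℂ) (n : ℕ) :
    op Z P N f n = f n - ∑ d ∈ n.divisors, af (qz Z P) d * f (n / d) +
      ∑ d ∈ n.divisors, af (hz Z N) d * f (n / d) := by
  unfold op
  rw [ArithmeticFunction.add_apply, sub_ap, mul_ap, mul_ap]

variable {V : Type*} [NormedAddCommGroup V] [NormedSpace ℂ V]

/-- the decomposition for vectors -/
lemma j2 {W Z P N D J y : ℕ} (E : ℕ → V) (c : ℕ → ℕ)
    (h1 : ∀ m : ℕ, (m.Prime ∧ W < m ∧ m ≤ Z) → c m < J)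
    (h2 : ∀ m : ℕ, (Sm W m ∧ D < m ∧ m / pmx m ≤ D) → c (pmx m) < J) :
    ‖∑ n ∈ Icc 1 y, (F1 Z P N n) • E n‖ ≤
      ‖∑ m ∈ Icc 1 y, (op Z P N (af (mu1 W D)) m) • ∑ b ∈ Icc 1 (y / m), E (b * m)‖ +
      ∑ j ∈ range J, ‖∑ m ∈ Icc 1 y, ∑ k ∈ Icc 1 (y / m), (a2 W D c j m * op Z P N (af (b2 W c j)) k) • E (m * k)‖ +
      ∑ j ∈ range J, ‖∑ m ∈ Icc 1 y, ∑ k ∈ Icc 1 (y / m), (a1 W Z c j m * op Z P N (af (b1 c j)) k) • E (m * k)‖ +
      ‖∑ n ∈ Icc 1 y, (op Z P N (af (fun n => ((er W Z D c n : ℝ) : ℂ))) n) • E n‖ := by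
  classical
  have e0 : F1 Z P N = op Z P N (af (mu1 W D)) * af (fun _ => 1) +
      ∑ j ∈ range J, af (a2 W D c j) * op Z P N (af (b2 W c j)) -
      ∑ j ∈ range J, af (a1 W Z c j) * op Z P N (af (b1 c j)) +
      op Z P N (af (fun n => ((er W Z D c n : ℝ) : ℂ))) := by
    unfold F1
    rw [dec_af c h1 h2, op_add, op_sub, op_add, op_sum, op_sum, op_mul']
    simp only [op_mul]
  have e1 : ∑ n ∈ Icc 1 y, (F1 Z P N n) • E n =
      ∑ n ∈ Icc 1 y, ((op Z P N (af (mu1 W D)) * af (fun _ => 1)) n) • E n +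
      ∑ j ∈ range J, ∑ n ∈ Icc 1 y, ((af (a2 W D c j) * op Z P N (af (b2 W c j))) n) • E n -
      ∑ j ∈ range J, ∑ n ∈ Icc 1 y, ((af (a1 W Z c j) * op Z P N (af (b1 c j))) n) • E n +
      ∑ n ∈ Icc 1 y, (op Z P N (af (fun n => ((er W Z D c n : ℝ) : ℂ))) n) • E n := by
    rw [sum_comm (s := range J), sum_comm (s := range J), ← sum_add_distrib, ← sum_sub_distrib, ← sum_add_distrib]
    refine sum_congr rfl fun n _ => ?_
    rw [← sum_smul, ← sum_smul, ← add_smul, ← sub_smul, ← add_smul]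
    congr 1
    rw [e0, ArithmeticFunction.add_apply, sub_ap, ArithmeticFunction.add_apply, sum_ap, sum_ap]
  rw [e1]
  simp only [conv_vec]
  have e2 : ∑ m ∈ Icc 1 y, ∑ k ∈ Icc 1 (y / m), (op Z P N (af (mu1 W D)) m * af (fun _ => 1) k) • E (m * k) =
      ∑ m ∈ Icc 1 y, (op Z P N (af (mu1 W D)) m) • ∑ b ∈ Icc 1 (y / m), E (b * m) := by
    refine sum_congr rfl fun m _ => ?_
    rw [smul_sum]
    refine sum_congr rfl fun k hk => ?_
    rw [af_apply (by rw [mem_Icc] at hk; omega), mul_one, mul_comm]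
  have e3 : ∀ a : ℕ → ℂ, ∀ g : ArithmeticFunction ℂ,
      ∑ m ∈ Icc 1 y, ∑ k ∈ Icc 1 (y / m), (af a m * g k) • E (m * k) =
      ∑ m ∈ Icc 1 y, ∑ k ∈ Icc 1 (y / m), (a m * g k) • E (m * k) := by
    intro a g
    refine sum_congr rfl fun m hm => sum_congr rfl fun k _ => ?_
    rw [af_apply (by rw [mem_Icc] at hm; omega)]
  rw [e2]
  simp only [e3]
  refine (norm_add_le _ _).trans (add_le_add ?_ le_rfl)
  refine (norm_sub_le _ _).trans (add_le_add ?_ (norm_sum_le _ _))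
  exact (norm_add_le _ _).trans (add_le_add le_rfl (norm_sum_le _ _))

/-- few large prime factors -/
lemma card_lp {Z N n : ℕ} (hn : 1 ≤ n) (hnN : n ≤ N) (hZ : N < (Z + 1) ^ 6) :
    (n.primeFactors.filter (fun p => Z < p)).card ≤ 5 := by
  by_contra h
  rw [not_le] at h
  obtain ⟨T, hT⟩ : ∃ T, T = n.primeFactors.filter (fun p => Z < p) := ⟨_, rfl⟩
  rw [← hT] at h
  have h1 : ∏ p ∈ T, p ∣ n := by
    apply Finset.prod_primes_dvd
    · intro p hp
      rw [hT, mem_filter] at hp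
      exact (Nat.prime_of_mem_primeFactors hp.1).prime
    · intro p hp
      rw [hT, mem_filter] at hp
      exact Nat.dvd_of_mem_primeFactors hp.1
  have h2 : (Z + 1) ^ T.card ≤ ∏ p ∈ T, p := by
    rw [← prod_const]
    apply prod_le_prod'
    intro p hp
    rw [hT, mem_filter] at hp
    exact hp.2
  have h3 := (h2.trans (Nat.le_of_dvd hn h1)).trans hnN
  have h4 : (Z + 1) ^ 6 ≤ (Z + 1) ^ T.card := Nat.pow_le_pow_right (by omega) h
  omega

/-- few large prime factors -/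
lemma card_big {Z P N n : ℕ} (hn : 1 ≤ n) (hnN : n ≤ N) (hZ : N < (Z + 1) ^ 6) :
    (n.divisors.filter (fun p => p.Prime ∧ Z < p ∧ p ≤ P)).card ≤ 5 := by
  refine le_trans (card_le_card fun p hp => ?_) (card_lp hn hnN hZ)
  rw [mem_filter] at hp
  rw [mem_filter, Nat.mem_primeFactors]
  exact ⟨⟨hp.2.1, Nat.dvd_of_mem_divisors hp.1, by omega⟩, hp.2.2.1⟩

/-- the pairs of prime factors above `Z` -/
def prz (Z n : ℕ) : Finset (ℕ × ℕ) :=
  ((n.primeFactors.filter (fun p => Z < p)) ×ˢ (n.primeFactors.filter (fun p => Z < p))).filter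
    (fun t => t.1 < t.2)

/-- few pairs of large prime factors -/
lemma card_prz {Z N n : ℕ} (hn : 1 ≤ n) (hnN : n ≤ N) (hZ : N < (Z + 1) ^ 6) : (prz Z n).card ≤ 10 := by
  have h1 := card_lp hn hnN hZ
  obtain ⟨S, hS⟩ : ∃ S, S = n.primeFactors.filter (fun p => Z < p) := ⟨_, rfl⟩
  unfold prz
  rw [← hS] at h1 ⊢
  have h2 : ((S ×ˢ S).filter (fun t => t.1 < t.2)).card ≤ (S.powersetCard 2).card := by
    apply card_le_card_of_injOn (fun t => {t.1, t.2})
    · intro t ht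
      rw [mem_coe, mem_filter, mem_product] at ht
      rw [mem_coe, mem_powersetCard]
      refine ⟨?_, card_pair (by omega)⟩
      intro x hx
      rw [mem_insert, mem_singleton] at hx
      rcases hx with h | h <;> rw [h]
      · exact ht.1.1
      · exact ht.1.2
    · rintro ⟨a, b⟩ ha ⟨a', b'⟩ hb hab
      rw [mem_coe, mem_filter] at ha hb
      simp only at ha hb hab
      have h3 : a ∈ ({a', b'} : Finset ℕ) := by rw [← hab]; simp
      have h4 : b ∈ ({a', b'} : Finset ℕ) := by rw [← hab]; simp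
      rw [mem_insert, mem_singleton] at h3 h4
      have h5 : a' ∈ ({a, b} : Finset ℕ) := by rw [hab]; simp
      rw [mem_insert, mem_singleton] at h5
      have : a = a' ∧ b = b' := by omega
      rw [this.1, this.2]
  refine h2.trans ?_
  rw [card_powersetCard]
  calc Nat.choose S.card 2 ≤ Nat.choose 5 2 := Nat.choose_le_choose 2 h1
    _ = 10 := by decide

/-- the divisors which are products of two different primes above `Z` -/
lemma sum_hz {Z N n : ℕ} (hn : 1 ≤ n) (f : ℕ → ℂ) :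
    ∑ d ∈ n.divisors, hz Z N d * f (n / d) = ∑ t ∈ prz Z n, ((vv N (t.1 * t.2) : ℝ) : ℂ) * f (n / (t.1 * t.2)) := by
  classical
  have hinj : Set.InjOn (fun t : ℕ × ℕ => t.1 * t.2) (prz Z n) := by
    rintro ⟨a, b⟩ h ⟨a', b'⟩ h' heq
    rw [mem_coe] at h h'
    unfold prz at h h'
    rw [mem_filter, mem_product, mem_filter, mem_filter] at h h'
    simp only at h h' heq
    have pa := Nat.prime_of_mem_primeFactors h.1.1.1
    have pb := Nat.prime_of_mem_primeFactors h.1.2.1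
    have pa' := Nat.prime_of_mem_primeFactors h'.1.1.1
    have pb' := Nat.prime_of_mem_primeFactors h'.1.2.1
    have k1 : a ∣ a' * b' := by rw [← heq]; exact dvd_mul_right _ _
    rcases (Nat.Prime.dvd_mul pa).1 k1 with k | k
    · have k2 : a = a' := (Nat.prime_dvd_prime_iff_eq pa pa').1 k
      subst k2
      have k3 : b = b' := Nat.eq_of_mul_eq_mul_left pa.pos heq
      rw [k3]
    · have k2 : a = b' := (Nat.prime_dvd_prime_iff_eq pa pb').1 k
      subst k2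
      have k3 : b = a' := Nat.eq_of_mul_eq_mul_left pa.pos (by rw [heq, mul_comm])
      omega
  have h1 : ∑ t ∈ prz Z n, ((vv N (t.1 * t.2) : ℝ) : ℂ) * f (n / (t.1 * t.2)) =
      ∑ d ∈ (prz Z n).image (fun t => t.1 * t.2), ((vv N d : ℝ) : ℂ) * f (n / d) := by
    rw [sum_image hinj]
  rw [h1]
  symm
  have h2 : ∀ d ∈ (prz Z n).image (fun t => t.1 * t.2), ((vv N d : ℝ) : ℂ) * f (n / d) = hz Z N d * f (n / d) := by
    intro d hd
    rw [mem_image] at hd
    obtain ⟨⟨a, b⟩, h, rfl⟩ := hd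
    unfold prz at h
    rw [mem_filter, mem_product, mem_filter, mem_filter] at h
    simp only at h ⊢
    unfold hz
    rw [if_pos ⟨a, b, Nat.prime_of_mem_primeFactors h.1.1.1, Nat.prime_of_mem_primeFactors h.1.2.1, h.1.1.2, h.2, rfl⟩]
  rw [sum_congr rfl h2]
  apply sum_subset
  · intro d hd
    rw [mem_image] at hd
    obtain ⟨⟨a, b⟩, h, rfl⟩ := hd
    unfold prz at h
    rw [mem_filter, mem_product, mem_filter, mem_filter] at h
    simp only at h ⊢
    have pa := Nat.prime_of_mem_primeFactors h.1.1.1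
    have pb := Nat.prime_of_mem_primeFactors h.1.2.1
    rw [Nat.mem_divisors]
    exact ⟨Nat.Coprime.mul_dvd_of_dvd_of_dvd ((Nat.coprime_primes pa pb).2 (by omega))
      (Nat.dvd_of_mem_primeFactors h.1.1.1) (Nat.dvd_of_mem_primeFactors h.1.2.1), by omega⟩
  · intro d hd hd'
    unfold hz
    rw [if_neg, zero_mul]
    rintro ⟨p, p', hp, hp', h3, h4, rfl⟩
    apply hd'
    have hdn := Nat.dvd_of_mem_divisors hd
    rw [mem_image]
    refine ⟨(p, p'), ?_, rfl⟩
    unfold prz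
    rw [mem_filter, mem_product, mem_filter, mem_filter, Nat.mem_primeFactors, Nat.mem_primeFactors]
    exact ⟨⟨⟨⟨hp, (dvd_mul_right _ _).trans hdn, by omega⟩, h3⟩, ⟨hp', (dvd_mul_left _ _).trans hdn, by omega⟩, by
      simp only; omega⟩, h4⟩

open Classical in
lemma op_ap' {Z P N n : ℕ} (f : ℕ → ℂ) (hn : 1 ≤ n) :
    op Z P N (af f) n = f n - ∑ p ∈ n.divisors.filter (fun p => p.Prime ∧ Z < p ∧ p ≤ P), f (n / p) +
      ∑ t ∈ prz Z n, ((vv N (t.1 * t.2) : ℝ) : ℂ) * f (n / (t.1 * t.2)) := by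
  rw [op_ap, af_apply (by omega), sum_filter, ← sum_hz hn]
  have hne : ∀ d ∈ n.divisors, d ≠ 0 ∧ n / d ≠ 0 := by
    intro d hd
    have hd' := Nat.dvd_of_mem_divisors hd
    have hd0 : d ≠ 0 := fun h => by rw [h] at hd'; have := Nat.eq_zero_of_zero_dvd hd'; omega
    exact ⟨hd0, (Nat.div_pos (Nat.le_of_dvd hn hd') (by omega)).ne'⟩
  congr 1
  · congr 1
    refine sum_congr rfl fun d hd => ?_
    obtain ⟨hd0, hq0⟩ := hne d hd
    rw [af_apply hd0, af_apply hq0]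
    unfold qz
    split_ifs
    · rw [one_mul]
    · rw [zero_mul]
  · refine sum_congr rfl fun d hd => ?_
    obtain ⟨hd0, hq0⟩ := hne d hd
    rw [af_apply hd0, af_apply hq0]

lemma prz_dvd {Z n : ℕ} {t : ℕ × ℕ} (ht : t ∈ prz Z n) : t.1 * t.2 ∣ n ∧ t.1.Prime ∧ t.2.Prime ∧ Z < t.1 ∧ t.1 < t.2 := by
  unfold prz at ht
  rw [mem_filter, mem_product, mem_filter, mem_filter] at ht
  have pa := Nat.prime_of_mem_primeFactors ht.1.1.1
  have pb := Nat.prime_of_mem_primeFactors ht.1.2.1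
  exact ⟨Nat.Coprime.mul_dvd_of_dvd_of_dvd ((Nat.coprime_primes pa pb).2 (by omega))
      (Nat.dvd_of_mem_primeFactors ht.1.1.1) (Nat.dvd_of_mem_primeFactors ht.1.2.1), pa, pb, ht.1.1.2, ht.2⟩

/-- the bound for the operation: the values at `n / d` are needed for `d = 1`, `d = p`, `d = p p'` only -/
lemma op_bd {Z P N n : ℕ} (hn : 1 ≤ n) (hnN : n ≤ N) (hZ : N < (Z + 1) ^ 6) (f : ℕ → ℂ) {X : ℝ}
    (hX : ∀ d ∈ n.divisors, ‖f (n / d)‖ ≤ X) :
    ‖op Z P N (af f) n‖ ≤ 26 * X := by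
  classical
  have h0 : ‖f n‖ ≤ X := by
    have := hX 1 (Nat.one_mem_divisors.2 (by omega))
    rwa [Nat.div_one] at this
  have hX0 : 0 ≤ X := (norm_nonneg _).trans h0
  rw [op_ap' f hn]
  have h1 : ‖∑ p ∈ n.divisors.filter (fun p => p.Prime ∧ Z < p ∧ p ≤ P), f (n / p)‖ ≤ 5 * X := by
    refine (norm_sum_le _ _).trans ?_
    refine (sum_le_sum (fun p hp => hX p (mem_filter.1 hp).1)).trans ?_
    rw [sum_const, nsmul_eq_mul]
    apply mul_le_mul_of_nonneg_right _ hX0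
    exact_mod_cast card_big hn hnN hZ
  have h6 : ∀ t ∈ prz Z n, ‖((vv N (t.1 * t.2) : ℝ) : ℂ) * f (n / (t.1 * t.2))‖ ≤ 2 * X := by
    intro t ht
    have h4 := vv_abs (N := N) (hn.trans hnN) (t.1 * t.2)
    have h5 := hX (t.1 * t.2) (Nat.mem_divisors.2 ⟨(prz_dvd ht).1, by omega⟩)
    have h7 : ‖((vv N (t.1 * t.2) : ℝ) : ℂ)‖ ≤ 2 := by
      rw [Complex.norm_real, Real.norm_eq_abs]
      exact h4
    calc ‖((vv N (t.1 * t.2) : ℝ) : ℂ) * f (n / (t.1 * t.2))‖
        = ‖((vv N (t.1 * t.2) : ℝ) : ℂ)‖ * ‖f (n / (t.1 * t.2))‖ := norm_mul _ _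
      _ ≤ 2 * X := mul_le_mul h7 h5 (norm_nonneg _) (by norm_num)
  have h3 : ‖∑ t ∈ prz Z n, ((vv N (t.1 * t.2) : ℝ) : ℂ) * f (n / (t.1 * t.2))‖ ≤ 10 * (2 * X) := by
    refine (norm_sum_le _ _).trans ?_
    refine (sum_le_sum h6).trans ?_
    rw [sum_const, nsmul_eq_mul]
    apply mul_le_mul_of_nonneg_right _ (by positivity)
    exact_mod_cast card_prz hn hnN hZ
  obtain ⟨A, hA⟩ : ∃ A, A = ∑ p ∈ n.divisors.filter (fun p => p.Prime ∧ Z < p ∧ p ≤ P), f (n / p) := ⟨_, rfl⟩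
  obtain ⟨B, hB⟩ : ∃ B, B = ∑ t ∈ prz Z n, ((vv N (t.1 * t.2) : ℝ) : ℂ) * f (n / (t.1 * t.2)) := ⟨_, rfl⟩
  rw [← hA] at h1
  rw [← hB] at h3
  rw [← hA, ← hB]
  have h2 : ‖f n - A + B‖ ≤ ‖f n‖ + ‖A‖ + ‖B‖ := (norm_add_le _ _).trans (add_le_add (norm_sub_le _ _) le_rfl)
  linarith

/-- the support of `h` -/
lemma vv_zero {N x : ℕ} (hN : 1 ≤ N) (h : T2 N < x) : vv N x = 0 := by
  have h1 := T0_le_sqrt hN
  have h2 := sqrt_le_T2 hN
  unfold vv
  rw [if_neg (by omega), if_neg (by omega), if_neg (by omega)]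
  norm_num

lemma mu1_supp {Z N W D m : ℕ} (hN : 1 ≤ N) (h : op Z (Nat.sqrt N) N (af (mu1 W D)) m ≠ 0) : m ≤ T2 N * D := by
  classical
  have hs2 := sqrt_le_T2 hN
  have hP : 1 ≤ Nat.sqrt N := by rw [Nat.le_sqrt]; simpa using hN
  rcases Nat.eq_zero_or_pos m with h0 | h0
  · omega
  rw [op_ap' _ h0] at h
  by_contra hm
  rw [not_le] at hm
  apply h
  have h1 : ∀ d, D < d → mu1 W D d = 0 := by
    intro d hd
    unfold mu1
    rw [if_neg (fun h => by omega)]
  have hT : 1 ≤ T2 N := hP.trans hs2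
  have h2 : D < m := lt_of_le_of_lt (Nat.le_mul_of_pos_left D hT) hm
  have hdiv : ∀ d, d ∣ m → 0 < d → d ≤ T2 N → D < m / d := by
    intro d hdm hd0 hdT
    by_contra h3
    rw [not_lt] at h3
    have : m ≤ T2 N * D := by
      calc m = m / d * d := (Nat.div_mul_cancel hdm).symm
        _ ≤ D * T2 N := Nat.mul_le_mul h3 hdT
        _ = T2 N * D := Nat.mul_comm _ _
    omega
  rw [h1 m h2, sum_eq_zero, sum_eq_zero, sub_zero, add_zero]
  · intro t ht
    obtain ⟨k1, k2, k3, -, -⟩ := prz_dvd ht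
    by_cases hc : t.1 * t.2 ≤ T2 N
    · rw [h1 _ (hdiv _ k1 (Nat.mul_pos k2.pos k3.pos) hc), mul_zero]
    · rw [vv_zero hN (not_le.1 hc)]
      simp
  · intro p hp
    rw [mem_filter] at hp
    exact h1 _ (hdiv p (Nat.dvd_of_mem_divisors hp.1) hp.2.1.pos (hp.2.2.2.trans hs2))

open Classical in
/-- the error of the decomposition -/
lemma er_op {W Z P D N n : ℕ} (hWZ : W ≤ Z) (hD : 1 ≤ D) (hn : 1 ≤ n) (hnN : n ≤ N) (hZ : N < (Z + 1) ^ 6)
    (c : ℕ → ℕ) (hc : ∀ a b, 1 ≤ a → a ≤ b → c a ≤ c b) :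
    ‖op Z P N (af (fun n => ((er W Z D c n : ℝ) : ℂ))) n‖ ≤ 26 * (if Tw c n then 2 * (n.divisors.card : ℝ) else 0) := by
  apply op_bd hn hnN hZ
  intro p hp
  have hpn := Nat.dvd_of_mem_divisors hp
  have hp0 : 0 < p := Nat.pos_of_mem_divisors hp
  have hnp : 1 ≤ n / p := Nat.div_pos (Nat.le_of_dvd hn hpn) hp0
  rw [Complex.norm_real, Real.norm_eq_abs]
  refine (er_le hWZ hD hnp c hc).trans ?_
  by_cases h : Tw c (n / p)
  · have h' : Tw c n := by
      obtain ⟨p₁, p₂, k1, k2, k3, k4, k5⟩ := h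
      exact ⟨p₁, p₂, k1, k2, k3, k4.trans (Nat.div_dvd_of_dvd hpn), k5⟩
    rw [if_pos h, if_pos h']
    have : (n / p).divisors.card ≤ n.divisors.card :=
      card_le_card (Nat.divisors_subset_of_dvd (by omega) (Nat.div_dvd_of_dvd hpn))
    have h2 : (((n / p).divisors.card : ℕ) : ℝ) ≤ (n.divisors.card : ℝ) := by exact_mod_cast this
    linarith
  · rw [if_neg h]
    split_ifs
    · positivity
    · exact le_rfl

lemma ro_le (Z n : ℕ) : ‖((ro Z n : ℝ) : ℂ)‖ ≤ 1 := by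
  unfold ro
  split_ifs <;> simp

/-- the rough numbers have few prime factors -/
lemma om_le {N n : ℕ} (hN : 1 ≤ N) (hn : 1 ≤ n) (hnN : n ≤ N) : 
    (∀ p ∈ n.primeFactors, ZZ N < p) → om N n ≤ 5 := by
  intro h
  refine le_trans ?_ (card_lp (Z := ZZ N) hn hnN (ZZ_sixth hN))
  unfold om
  apply card_le_card
  intro p hp
  rw [mem_filter] at hp
  rw [mem_filter]
  exact ⟨hp.1, h p hp.1⟩

/-- the pairs of the rough numbers -/
lemma prs_rough {Z n : ℕ} (h : ∀ p ∈ n.primeFactors, Z < p) : prz Z n = prs n := by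
  unfold prz prs
  rw [filter_true_of_mem h]

/-- the sum over the pairs is bounded -/
lemma pr_abs_big {N n : ℕ} (hN : 1 ≤ N) (hn : 1 ≤ n) (hnN : n ≤ N) (h : ∀ p ∈ n.primeFactors, ZZ N < p) :
    |pr N n| ≤ 20 := by
  unfold pr
  refine (abs_sum_le_sum_abs _ _).trans ?_
  refine (sum_le_sum fun t _ => vv_abs hN (t.1 * t.2)).trans ?_
  rw [sum_const, nsmul_eq_mul, ← prs_rough h]
  have h1 : (((prz (ZZ N) n).card : ℕ) : ℝ) ≤ 10 := by
    exact_mod_cast card_prz (Z := ZZ N) hn hnN (ZZ_sixth hN)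
  linarith

open Classical in
/-- the values of the sieve function -/
lemma F1_val {N n : ℕ} (hn : 1 ≤ n) :
    (Real.log N : ℂ) * F1 (ZZ N) (Nat.sqrt N) N n = GM N n := by
  unfold F1 GM gm
  rw [op_ap' _ hn]
  have hpf : ∀ p, p ∈ n.primeFactors ↔ p.Prime ∧ p ∣ n := by
    intro p
    rw [Nat.mem_primeFactors]
    exact ⟨fun h => ⟨h.1, h.2.1⟩, fun h => ⟨h.1, h.2, by omega⟩⟩
  by_cases hr : ∀ p ∈ n.primeFactors, ZZ N < p
  · rw [if_pos hr]
    have h1 : ro (ZZ N) n = 1 := by unfold ro; rw [if_pos hr]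
    have h1' : ∀ d, d ∣ n → ((ro (ZZ N) (n / d) : ℝ) : ℂ) = 1 := by
      intro d hd
      have : ro (ZZ N) (n / d) = 1 := by
        unfold ro
        rw [if_pos]
        intro p' hp'
        apply hr
        exact Nat.primeFactors_mono (Nat.div_dvd_of_dvd hd) (by omega) hp'
      rw [this]
      norm_num
    have h2 : ∀ p ∈ n.divisors.filter (fun p => p.Prime ∧ ZZ N < p ∧ p ≤ Nat.sqrt N),
        ((ro (ZZ N) (n / p) : ℝ) : ℂ) = 1 := by
      intro p hp
      rw [mem_filter] at hp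
      exact h1' p (Nat.dvd_of_mem_divisors hp.1)
    have h3 : n.divisors.filter (fun p => p.Prime ∧ ZZ N < p ∧ p ≤ Nat.sqrt N) =
        n.primeFactors.filter (fun p => p ≤ Nat.sqrt N) := by
      ext p
      rw [mem_filter, mem_filter, hpf, Nat.mem_divisors]
      constructor
      · rintro ⟨⟨a, b⟩, c, d, e⟩
        exact ⟨⟨c, a⟩, e⟩
      · rintro ⟨⟨a, b⟩, c⟩
        exact ⟨⟨b, by omega⟩, a, hr p ((hpf p).2 ⟨a, b⟩), c⟩
    have h4 : ∑ t ∈ prz (ZZ N) n, ((vv N (t.1 * t.2) : ℝ) : ℂ) * ((ro (ZZ N) (n / (t.1 * t.2)) : ℝ) : ℂ) =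
        ((pr N n : ℝ) : ℂ) := by
      unfold pr
      rw [← prs_rough hr]
      push_cast
      refine sum_congr rfl fun t ht => ?_
      rw [h1' _ (prz_dvd ht).1, mul_one]
    rw [sum_congr rfl h2, h1, h3, h4, sum_const, nsmul_eq_mul, mul_one]
    unfold om
    push_cast
    ring
  · rw [if_neg hr]
    have hro : ro (ZZ N) n = 0 := by unfold ro; rw [if_neg hr]
    rw [hro, sum_eq_zero, sum_eq_zero]
    · simp
    · intro t ht
      obtain ⟨k1, k2, k3, k4, k5⟩ := prz_dvd ht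
      have : ro (ZZ N) (n / (t.1 * t.2)) = 0 := by
        unfold ro
        rw [if_neg]
        intro hall
        apply hr
        intro p' hp''
        by_cases h : p' = t.1
        · rw [h]; exact k4
        by_cases h' : p' = t.2
        · rw [h']; omega
        have h1 := Nat.mem_primeFactors.1 hp''
        have h5 : p' ∈ (n / t.1).primeFactors := pf_div (by omega) ((dvd_mul_right _ _).trans k1) k2 h1.1 h1.2.1 h
        have h6 := Nat.mem_primeFactors.1 h5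
        have h7 : t.2 ∣ n / t.1 := by
          obtain ⟨x, hx⟩ := k1
          rw [hx, mul_assoc, Nat.mul_div_cancel_left _ k2.pos]
          exact dvd_mul_right _ _
        have h8 : p' ∈ (n / t.1 / t.2).primeFactors := pf_div h6.2.2 h7 k3 h6.1 h6.2.1 h'
        rw [Nat.div_div_eq_div_mul] at h8
        exact hall p' h8
      rw [this]
      simp
    · intro p hp'
      rw [mem_filter] at hp'
      have : ro (ZZ N) (n / p) = 0 := by
        unfold ro
        rw [if_neg]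
        intro hall
        apply hr
        intro p' hp''
        by_cases h : p' = p
        · rw [h]; exact hp'.2.2.1
        · have h1 := Nat.mem_primeFactors.1 hp''
          exact hall p' (pf_div (by omega) (Nat.dvd_of_mem_divisors hp'.1) hp'.2.1 h1.1 h1.2.1 h)
      rw [this]
      simp

end Pool.Agent.Helper34.GX
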