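import Pool.Graph.R_seed8.R460.GH.ML
import Pool.Agent.Helper34.GX.Vec

set_option autoImplicit false

/-! The minorant on the major arcs. -/

namespace Pool.Agent.Helper34.GX

open Finset
open Pool.Agent.R460.GS (ro er a1 a2 b1 b2 Sm pmx mu Tw JJ cc JJ_le cc_lt ci_mono tw_sum norm_ev1 sm_le MajAt MinAt
  a1_le a2_le b1_le b2_le one_le_bd)
open Pool.Agent.R460.GH (af mu1 cells l2_vec mu1_le BilMaj3Stm ell ti_gen GG0 tot_maj a1_supp')
open Pool.Agent.Y883.GJ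
open Pool.Agent.H807R2.Dav (ee)
open Pool.Agent.Y614.GJ.Core (ev_log)

lemma supp_W {N m : ℕ} (h : WW N < m ∧ m ≤ ZZ N) :
    (N : ℝ) ^ (1 / 2000 : ℝ) ≤ 2 * m ∧ (m : ℝ) ≤ (N : ℝ) ^ (1 / 6 : ℝ) := by
  obtain ⟨h1, h2⟩ := h
  constructor
  · have h3 : (N : ℝ) ^ (1 / 2000 : ℝ) < (WW N : ℝ) + 1 := Nat.lt_floor_add_one _
    have h4 : (WW N : ℝ) + 1 ≤ m := by exact_mod_cast h1
    have h5 : (0 : ℝ) ≤ m := Nat.cast_nonneg _
    linarith
  · exact le_trans (by exact_mod_cast h2) ZZ_real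

lemma a2_supp' {N j m : ℕ} (hN : 1 ≤ N) {c : ℕ → ℕ} (h : a2 (WW N) (WW N) c j m ≠ 0) :
    WW N < m ∧ m ≤ ZZ N := by
  unfold a2 at h
  by_contra h'
  apply h
  rw [if_neg]
  rintro ⟨⟨h1, h2, h3⟩, -⟩
  exact h' ⟨h2, ((sm_le (one_le_WW hN) h1 h2 h3).2.1).trans (WW_sq_le hN)⟩

lemma opb {N n : ℕ} (hN : 1 ≤ N) {f : ℕ → ℂ} (hf : ∀ m, ‖f m‖ ≤ 1) (hn : n ∈ Icc 1 N) :
    ‖op (ZZ N) (Nat.sqrt N) N (af f) n‖ ≤ 26 := by
  rw [mem_Icc] at hn
  have := op_bd (P := Nat.sqrt N) hn.1 hn.2 (ZZ_sixth hN) f (X := 1) (fun d _ => hf _)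
  linarith

lemma bd26 {N m : ℕ} (hL : 26 ≤ Real.log N) (hm : m ∈ Icc 1 N) {z : ℂ} (hz : ‖z‖ ≤ 26) :
    ‖z‖ ≤ Real.log N * (m.divisors.card : ℝ) := by
  have h1 : (1 : ℝ) ≤ (m.divisors.card : ℝ) := by
    have : 0 < m.divisors.card := card_pos.2 ⟨1, Nat.one_mem_divisors.2 (by
      rw [mem_Icc] at hm
      omega)⟩
    exact_mod_cast this
  nlinarith

/-- scaling -/
lemma norm_scale {z : ℂ} (hz : ‖z‖ ≤ 26) : ‖(1 / 13 : ℂ) * z‖ ≤ 2 := by
  rw [norm_mul]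
  have : ‖(1 / 13 : ℂ)‖ = 1 / 13 := by
    rw [norm_div]
    norm_num
  rw [this]
  linarith

open Classical in
/-- sums of type I -/
lemma ti_gen26 {q y N M : ℕ} [NeZero q] (hy : y ≤ N) {a : ℕ → ℂ}
    (ha : ∀ m, a m ≠ 0 → m ≤ M) (ha2 : ∀ m ∈ Icc 1 N, ‖a m‖ ≤ 26) (β : ℝ)
    (S : Finset (DirichletCharacter ℂ q)) (R : Finset ℕ)
    (hR : R = range q ∨ ((1 : DirichletCharacter ℂ q) ∉ S ∧ R = (range q).erase 0)) :
    ‖∑ m ∈ Icc 1 y, a m • ∑ b ∈ Icc 1 (y / m), ev S β (b * m)‖ ^ 2 ≤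
      676 * ∑ j ∈ R, GG0 q N M (β + j / q) ^ 2 := by
  have h := ti_gen (M := M) hy (a := fun m => (1 / 13 : ℂ) * a m)
    (fun m hm => ha m (fun h0 => hm (by simp only [h0, mul_zero])))
    (fun m hm => norm_scale (ha2 m hm)) β S R hR
  have e : ∑ m ∈ Icc 1 y, ((1 / 13 : ℂ) * a m) • ∑ b ∈ Icc 1 (y / m), ev S β (b * m) =
      (1 / 13 : ℂ) • ∑ m ∈ Icc 1 y, a m • ∑ b ∈ Icc 1 (y / m), ev S β (b * m) := by
    rw [smul_sum]
    refine sum_congr rfl fun m _ => ?_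
    rw [smul_smul]
  rw [e, norm_smul, mul_pow] at h
  have h2 : ‖(1 / 13 : ℂ)‖ = 1 / 13 := by
    rw [norm_div]
    norm_num
  rw [h2] at h
  linarith

/-- the main part of the estimates of the sums of type I -/
lemma ti_main {q N M : ℕ} {ρ s : ℝ} (hN : 1 ≤ N) (hs1 : s ≤ ρ)
    (hq : (q : ℝ) ≤ (N : ℝ) ^ (5 / 6 - ρ)) (hM : (M : ℝ) ≤ (N : ℝ) ^ (583 / 1000 : ℝ)) :
    q * (M : ℝ) ^ 2 + q * N ≤ 2 * (N : ℝ) ^ (2 - s) := by
  have hN0 : (0 : ℝ) < N := by exact_mod_cast hN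
  have hNr1 : (1 : ℝ) ≤ N := by exact_mod_cast hN
  have hM0 : (0 : ℝ) ≤ M := Nat.cast_nonneg _
  have hqs : (q : ℝ) ≤ (N : ℝ) ^ (5 / 6 - s) := hq.trans (Real.rpow_le_rpow_of_exponent_le hNr1 (by linarith))
  have e1 : q * (M : ℝ) ^ 2 ≤ (N : ℝ) ^ (2 - s) := by
    calc q * (M : ℝ) ^ 2 ≤ (N : ℝ) ^ (5 / 6 - s) * ((N : ℝ) ^ (583 / 1000 : ℝ)) ^ 2 := by gcongr
      _ = (N : ℝ) ^ (2999 / 1500 - s) := by
          rw [← Real.rpow_natCast, ← Real.rpow_mul hN0.le, ← Real.rpow_add hN0]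
          congr 1
          push_cast
          ring
      _ ≤ (N : ℝ) ^ (2 - s) := Real.rpow_le_rpow_of_exponent_le hNr1 (by linarith)
  have e2 : (q : ℝ) * N ≤ (N : ℝ) ^ (2 - s) := by
    calc (q : ℝ) * N ≤ (N : ℝ) ^ (5 / 6 - s) * (N : ℝ) ^ (1 : ℝ) := by
          rw [Real.rpow_one]
          gcongr
      _ = (N : ℝ) ^ (11 / 6 - s) := by
          rw [← Real.rpow_add hN0]
          congr 1
          ring
      _ ≤ _ := Real.rpow_le_rpow_of_exponent_le hNr1 (by linarith)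
  linarith

open Classical in
theorem mGM (h1 : L2Stm) (hB : BilMaj3Stm) (A C : ℕ) {ρ : ℝ} (hρ : 0 < ρ) : ∃ C₃ N₀ : ℕ, ∀ N : ℕ, N₀ ≤ N →
    MajAt N (-(2 / 15) + ρ) A C C₃ (GM N) := by
  obtain ⟨A', hA'⟩ : ∃ A', A' = A := ⟨_, rfl⟩
  obtain ⟨C', N₁, hB'⟩ := hB (A' + 2 * (A' + 14) + 8) C 1700 (5 / 6 - ρ) (1 / 2000) (1 / 6) (by norm_num)
    (by norm_num) (by push_cast; linarith) (by linarith) (by norm_num) (by linarith)
  obtain ⟨N₂, hG⟩ := gm_vec h1 A'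
  obtain ⟨s, hs⟩ : ∃ s : ℝ, s = min ρ (1 / 3) := ⟨_, rfl⟩
  have hs0 : 0 < s := by rw [hs]; exact lt_min hρ (by norm_num)
  have hs1 : s ≤ ρ := by rw [hs]; exact min_le_left _ _
  obtain ⟨N₃, hN₃⟩ := Filter.eventually_atTop.1 (ev_log (C + A' + 9) (s := s) hs0 700000000000)
  refine ⟨C' + A' + 18, max (max N₁ N₂) (max N₃ 64), fun N hN q _ hq => ?_⟩
  have hNN₁ : N₁ ≤ N := le_trans (le_trans (le_max_left _ _) (le_max_left _ _)) hN
  have hNN₂ : N₂ ≤ N := le_trans (le_trans (le_max_right _ _) (le_max_left _ _)) hN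
  have hNN₃ : N₃ ≤ N := le_trans (le_trans (le_max_left _ _) (le_max_right _ _)) hN
  have hN64 : 64 ≤ N := le_trans (le_trans (le_max_right _ _) (le_max_right _ _)) hN
  have hN1 : 1 ≤ N := by omega
  obtain ⟨hL16, hLp⟩ := hN₃ N hNN₃
  have hN0 : (0 : ℝ) < N := by exact_mod_cast hN1
  have hNr1 : (1 : ℝ) ≤ N := by exact_mod_cast hN1
  have hq' : (q : ℝ) ≤ (N : ℝ) ^ (5 / 6 - ρ) := by
    have e : (7 / 10 - (-(2 / 15) + ρ) : ℝ) = 5 / 6 - ρ := by ring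
    rw [e] at hq
    exact hq
  have hqN : (q : ℝ) ≤ N := by
    calc (q : ℝ) ≤ (N : ℝ) ^ (5 / 6 - ρ) := hq'
      _ ≤ (N : ℝ) ^ (1 : ℝ) := Real.rpow_le_rpow_of_exponent_le hNr1 (by linarith)
      _ = N := Real.rpow_one _
  have hqNn : q ≤ N := by exact_mod_cast hqN
  have hJ := JJ_le (N := N) (U := A' + 14) (by linarith)
  have hb1 := fun j => hB' N hNN₁ q hq' (a1 (WW N) (ZZ N) (cc N (A' + 14)) j)
    (fun m hm => one_le_bd (by linarith) hm (a1_le _ _ _ _ _)) (fun m hm => supp_W (a1_supp' hm))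
  have hb2 := fun j => hB' N hNN₁ q hq' (a2 (WW N) (WW N) (cc N (A' + 14)) j)
    (fun m hm => one_le_bd (by linarith) hm (a2_le _ _ _ _ _)) (fun m hm => supp_W (a2_supp' hN1 hm))
  choose B1 hB1c hB1 using hb1
  choose B2 hB2c hB2 using hb2
  refine ⟨insert 1 ((range (JJ N (A' + 14))).biUnion (fun j => B1 j ∪ B2 j)), mem_insert_self _ _, ?_, ?_⟩
  · have e1 : (insert 1 ((range (JJ N (A' + 14))).biUnion (fun j => B1 j ∪ B2 j))).card ≤
        ∑ j ∈ range (JJ N (A' + 14)), ((B1 j).card + (B2 j).card) + 1 := by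
      refine (card_insert_le _ _).trans (Nat.add_le_add_right ?_ 1)
      exact card_biUnion_le.trans (sum_le_sum fun j _ => card_union_le _ _)
    have e2 : ((insert 1 ((range (JJ N (A' + 14))).biUnion (fun j => B1 j ∪ B2 j))).card : ℝ) ≤
        ∑ j ∈ range (JJ N (A' + 14)), (((B1 j).card : ℝ) + (B2 j).card) + 1 := by exact_mod_cast e1
    refine e2.trans ?_
    obtain ⟨L, hLd⟩ : ∃ L, L = Real.log (N : ℝ) := ⟨_, rfl⟩
    rw [← hLd] at hB1c hB2c hJ hL16 ⊢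
    have hL0 : 0 < L := by linarith
    have hL1 : 1 ≤ L := by linarith
    calc ∑ j ∈ range (JJ N (A' + 14)), (((B1 j).card : ℝ) + (B2 j).card) + 1
        ≤ ∑ j ∈ range (JJ N (A' + 14)), (L ^ C' + L ^ C') + 1 := by
          gcongr with j hj
          · exact hB1c j
          · exact hB2c j
      _ = (JJ N (A' + 14) : ℝ) * (2 * L ^ C') + 1 := by
          rw [sum_const, card_range, nsmul_eq_mul]
          ring
      _ ≤ L ^ (A' + 14 + 2) * (2 * L ^ C') + 1 := by gcongr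
      _ ≤ L ^ (A' + 14 + 2) * (2 * L ^ C') + L ^ (A' + 14 + 2) * L ^ C' := by
          have : 1 ≤ L ^ (A' + 14 + 2) * L ^ C' :=
            one_le_mul_of_one_le_of_one_le (one_le_pow₀ hL1) (one_le_pow₀ hL1)
          linarith
      _ = 3 * (L ^ (A' + 14 + 2) * L ^ C') := by ring
      _ ≤ L ^ 2 * (L ^ (A' + 14 + 2) * L ^ C') := by
          gcongr
          nlinarith
      _ = L ^ (C' + A' + 18) := by ring
  · intro η hη y hy S hS
    have hS1 : (1 : DirichletCharacter ℂ q) ∉ S := fun h =>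
      disjoint_left.1 hS h (mem_insert_self _ _)
    have hSj : ∀ j ∈ range (JJ N (A' + 14)), Disjoint S (B1 j) ∧ Disjoint S (B2 j) := by
      intro j hj
      constructor
      · refine Disjoint.mono_right (fun χ hχ => ?_) hS
        rw [mem_insert, mem_biUnion]
        exact Or.inr ⟨j, hj, mem_union_left _ hχ⟩
      · refine Disjoint.mono_right (fun χ hχ => ?_) hS
        rw [mem_insert, mem_biUnion]
        exact Or.inr ⟨j, hj, mem_union_right _ hχ⟩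
    rw [← hA']
    apply hG N hNN₂ q hqN S η y hy
    · have hP1 : 1 ≤ T2 N := (one_le_WW hN1).trans (((WW_le hN1).trans (ZZ_le_sqrt hN1)).trans (sqrt_le_T2 hN1))
      have hM1 : 1 ≤ T2 N * WW N := Nat.mul_le_mul hP1 (one_le_WW hN1)
      have hMr := PW_real (N := N) hN1
      have hMN : T2 N * WW N ≤ N := by
        have : ((T2 N * WW N : ℕ) : ℝ) ≤ N := hMr.trans (by
          calc (N : ℝ) ^ (583 / 1000 : ℝ) ≤ (N : ℝ) ^ (1 : ℝ) :=
                Real.rpow_le_rpow_of_exponent_le hNr1 (by norm_num)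
            _ = N := Real.rpow_one _)
        exact_mod_cast this
      have t1 := ti_gen26 hy (a := fun m => op (ZZ N) (Nat.sqrt N) N (af (mu1 (WW N) (WW N))) m)
        (fun m hm => mu1_supp hN1 hm) (fun m hm => opb hN1 (mu1_le _ _) hm) η S ((range q).erase 0)
        (Or.inr ⟨hS1, rfl⟩)
      refine t1.trans ?_
      obtain ⟨hl1, hl2⟩ := ell (by linarith) (by omega) (NeZero.pos q) hqNn hM1 hMN
      have t2 := tot_maj (q := q) (N := N) (M := T2 N * WW N) (NeZero.pos q) hN1 hM1 (η := η)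
        (T := Real.log N ^ C) (one_le_pow₀ (by linarith)) hη (ℓ := 4 * Real.log N) hl1 hl2
      have t3 := ti_main hN1 hs1 hq' hMr
      obtain ⟨L, hLd⟩ : ∃ L, L = Real.log (N : ℝ) := ⟨_, rfl⟩
      rw [← hLd] at t2 hL16 hLp ⊢
      have hL0 : 0 < L := by linarith
      rw [le_div_iff₀ (by positivity)]
      calc (676 * ∑ j ∈ (range q).erase 0, GG0 q N (T2 N * WW N) (η + j / q) ^ 2) * L ^ (A' + 4)
          ≤ (676 * (2000000 * (L ^ C * (4 * L) ^ 4 * (2 * (N : ℝ) ^ (2 - s))))) * L ^ (A' + 4) := by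
            gcongr
            refine t2.trans ?_
            gcongr
        _ = (692224000000 * L ^ (C + A' + 8)) * (N : ℝ) ^ (2 - s) := by ring
        _ ≤ (L * L ^ (C + A' + 8)) * (N : ℝ) ^ (2 - s) := by
            gcongr
            linarith
        _ = L ^ (C + A' + 9) * (N : ℝ) ^ (2 - s) := by ring
        _ ≤ (N : ℝ) ^ s * (N : ℝ) ^ (2 - s) := by gcongr
        _ = (N : ℝ) ^ 2 := by
            rw [← Real.rpow_add hN0, ← Real.rpow_natCast]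
            congr 1
            push_cast
            ring
    · intro j hj
      exact hB2 j (fun l => op (ZZ N) (Nat.sqrt N) N (af (b2 (WW N) (cc N (A' + 14)) j)) l)
        (fun m hm => bd26 (by linarith) hm (opb hN1 (b2_le _ _ _) hm)) η hη y hy S (hSj j hj).2
    · intro j hj
      exact hB1 j (fun l => op (ZZ N) (Nat.sqrt N) N (af (b1 (cc N (A' + 14)) j)) l)
        (fun m hm => bd26 (by linarith) hm (opb hN1 (b1_le _ _) hm)) η hη y hy S (hSj j hj).1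

end Pool.Agent.Helper34.GX
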