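import Pool.Agent.Helper34.GX.Wta

set_option autoImplicit false

/-! The local density of the minorant: it is bounded and of bounded variation. -/

namespace Pool.Agent.Helper34.GX

open Finset Filter Topology
open Pool.Agent.R453.GS (ev_log log_floor sum_pow tv log_num)

/-- one summand, without a condition -/
noncomputable def hh (N m n : ℕ) : ℝ := if m ∈ mm N n then Real.log N * gg n m else 0

/-- one summand, with the condition `p * n ≤ m * T` -/
noncomputable def hk (N m p T n : ℕ) : ℝ := if m ∈ mm N n ∧ p * n ≤ m * T then Real.log N * gg n m else 0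

lemma hh_nonneg {N : ℕ} (hB : Big N) (m n : ℕ) : 0 ≤ hh N m n := by
  unfold hh
  split_ifs with h
  · exact (term_bd hB h).1
  · exact le_rfl

lemma hh_le {N : ℕ} (hB : Big N) (m n : ℕ) : hh N m n ≤ 7 / m := by
  unfold hh
  split_ifs with h
  · exact (term_bd hB h).2
  · positivity

lemma hk_nonneg {N : ℕ} (hB : Big N) (m p T n : ℕ) : 0 ≤ hk N m p T n := by
  unfold hk
  split_ifs with h
  · exact (term_bd hB h.1).1
  · exact le_rfl

lemma hk_le {N : ℕ} (hB : Big N) (m p T n : ℕ) : hk N m p T n ≤ 7 / m := by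
  unfold hk
  split_ifs with h
  · exact (term_bd hB h.1).2
  · positivity

/-- the part of the pairs `p, n / m` -/
noncomputable def hs (N m n : ℕ) : ℝ :=
  ∑ p ∈ m.primeFactors, (2 * hk N m p (T2 N) n - 3 * hk N m p (Nat.sqrt N) n + hk N m p (T0 N) n)

lemma Wm_eq {N n : ℕ} (hn : n ≤ N) :
    Wm N n = ∑ m ∈ mm N N, ((1 - (om N m : ℝ) + pr N m) * hh N m n - hk N m 1 (Nat.sqrt N) n + hs N m n) := by
  unfold Wm
  rw [mul_sum, ← sum_subset (mm_mono hn)]
  · apply sum_congr rfl
    intro m hm
    have e1 : ∀ p T : ℕ, hk N m p T n = (if p * n ≤ m * T then 1 else 0) * (Real.log N * gg n m) := by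
      intro p T
      unfold hk
      by_cases h : p * n ≤ m * T
      · rw [if_pos ⟨hm, h⟩, if_pos h, one_mul]
      · rw [if_neg (fun h' => h h'.2), if_neg h, zero_mul]
    have e2 : hs N m n = kp N n m * (Real.log N * gg n m) := by
      unfold hs kp
      rw [sum_mul]
      apply sum_congr rfl
      intro p _
      rw [e1, e1, e1]
      ring
    have e3 : hh N m n = Real.log N * gg n m := by
      unfold hh
      rw [if_pos hm]
    rw [e2, e1, e3, one_mul]
    unfold kap
    ring
  · intro m _ hm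
    have e1 : ∀ p T : ℕ, hk N m p T n = 0 := by
      intro p T
      unfold hk
      rw [if_neg (fun h => hm h.1)]
    have e2 : hs N m n = 0 := by
      unfold hs
      apply sum_eq_zero
      intro p _
      rw [e1, e1, e1]
      ring
    have e3 : hh N m n = 0 := by
      unfold hh
      rw [if_neg hm]
    rw [e2, e1, e3]
    ring

lemma gg_anti {N n m : ℕ} (hB : Big N) (h : m ∈ mm N n) :
    Real.log N * gg (n + 1) m ≤ Real.log N * gg n m := by
  obtain ⟨i1, i2, i3⟩ := ratio h
  have hZ : (2 : ℝ) ≤ ZZ N := by exact_mod_cast hB.Z2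
  have i4 : 0 < Real.log ((n : ℝ) / m) := Real.log_pos (by linarith)
  have hm0 : (0 : ℝ) < m := by exact_mod_cast i1
  have i5 : Real.log ((n : ℝ) / m) ≤ Real.log (((n + 1 : ℕ) : ℝ) / m) := by
    apply Real.log_le_log (by linarith)
    apply div_le_div_of_nonneg_right _ hm0.le
    push_cast
    linarith
  refine mul_le_mul_of_nonneg_left ?_ hB.L.le
  unfold gg
  apply one_div_le_one_div_of_le (by positivity)
  exact mul_le_mul_of_nonneg_left i5 hm0.le

lemma tv_hh {N m : ℕ} (hB : Big N) (hm : m ∈ mm N N) :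
    ∑ n ∈ range N, |hh N m (n + 1) - hh N m n| ≤ 14 / m ∧
    ∀ p T : ℕ, ∑ n ∈ range N, |hk N m p T (n + 1) - hk N m p T n| ≤ 14 / m := by
  rw [mem_mm] at hm
  obtain ⟨⟨h1, h2⟩, h3, h4⟩ := hm
  have hM : 2 ≤ MM N m := hB.Z2.trans (le_max_right _ _)
  have hin : ∀ n, m * MM N m < n → m ∈ mm N n := by
    intro n hn
    have g1 : m * 2 ≤ m * MM N m := Nat.mul_le_mul_left _ hM
    exact mem_mm.2 ⟨⟨h1, by omega⟩, h3, hn⟩
  have hout : ∀ n, n ≤ m * MM N m → m ∉ mm N n := by
    intro n hn h
    rw [mem_mm] at h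
    omega
  have h7 : (14 : ℝ) / m = 2 * (7 / m) := by ring
  constructor
  · have h5 := tv (f := fun n => hh N m n) (n0 := m * MM N m)
      (B := 7 / m) (by positivity) (hh_nonneg hB m) (fun n hn => by
        show hh N m n = 0
        unfold hh
        rw [if_neg (hout n hn)]) (fun n hn => by
        show hh N m (n + 1) ≤ hh N m n
        unfold hh
        rw [if_pos (hin n hn), if_pos (hin (n + 1) (by omega))]
        exact gg_anti hB (hin n hn)) (hh_le hB m) N
    have h6 := hh_nonneg hB m N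
    rw [h7]
    linarith
  · intro p T
    have h5 := tv (f := fun n => hk N m p T n) (n0 := m * MM N m)
      (B := 7 / m) (by positivity) (hk_nonneg hB m p T) (fun n hn => by
        show hk N m p T n = 0
        unfold hk
        rw [if_neg (fun h => hout n hn h.1)]) (fun n hn => by
        show hk N m p T (n + 1) ≤ hk N m p T n
        by_cases hc : p * (n + 1) ≤ m * T
        · have hc' : p * n ≤ m * T := le_trans (Nat.mul_le_mul_left _ (by omega)) hc
          unfold hk
          rw [if_pos ⟨hin (n + 1) (by omega), hc⟩, if_pos ⟨hin n hn, hc'⟩]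
          exact gg_anti hB (hin n hn)
        · have : hk N m p T (n + 1) = 0 := by
            unfold hk
            rw [if_neg (fun h => hc h.2)]
          rw [this]
          exact hk_nonneg hB m p T n) (hk_le hB m p T) N
    have h6 := hk_nonneg hB m p T N
    rw [h7]
    linarith

lemma tv_hs {N m : ℕ} (hB : Big N) (hm : m ∈ mm N N) :
    ∑ n ∈ range N, |hs N m (n + 1) - hs N m n| ≤ 336 / m := by
  have h1 := (tv_hh hB hm).2
  have h2 : ((m.primeFactors.card : ℕ) : ℝ) ≤ 4 := by exact_mod_cast card_four hB le_rfl hm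
  have hm0 : (0 : ℝ) < m := by exact_mod_cast (mem_mm.1 hm).1.1
  have h3 : ∀ n : ℕ, |hs N m (n + 1) - hs N m n| ≤ ∑ p ∈ m.primeFactors,
      (2 * |hk N m p (T2 N) (n + 1) - hk N m p (T2 N) n| +
        3 * |hk N m p (Nat.sqrt N) (n + 1) - hk N m p (Nat.sqrt N) n| +
        |hk N m p (T0 N) (n + 1) - hk N m p (T0 N) n|) := by
    intro n
    unfold hs
    rw [← sum_sub_distrib]
    refine (abs_sum_le_sum_abs _ _).trans (sum_le_sum fun p _ => ?_)
    have e : 2 * hk N m p (T2 N) (n + 1) - 3 * hk N m p (Nat.sqrt N) (n + 1) + hk N m p (T0 N) (n + 1) -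
        (2 * hk N m p (T2 N) n - 3 * hk N m p (Nat.sqrt N) n + hk N m p (T0 N) n) =
        2 * (hk N m p (T2 N) (n + 1) - hk N m p (T2 N) n) -
        3 * (hk N m p (Nat.sqrt N) (n + 1) - hk N m p (Nat.sqrt N) n) +
        (hk N m p (T0 N) (n + 1) - hk N m p (T0 N) n) := by ring
    rw [e]
    generalize hk N m p (T2 N) (n + 1) - hk N m p (T2 N) n = x
    generalize hk N m p (Nat.sqrt N) (n + 1) - hk N m p (Nat.sqrt N) n = y
    generalize hk N m p (T0 N) (n + 1) - hk N m p (T0 N) n = z
    have hx := abs_le.1 (le_refl |x|)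
    have hy := abs_le.1 (le_refl |y|)
    have hz := abs_le.1 (le_refl |z|)
    rw [abs_le]
    constructor <;> linarith [hx.1, hx.2, hy.1, hy.2, hz.1, hz.2]
  calc ∑ n ∈ range N, |hs N m (n + 1) - hs N m n|
      ≤ ∑ n ∈ range N, ∑ p ∈ m.primeFactors,
      (2 * |hk N m p (T2 N) (n + 1) - hk N m p (T2 N) n| +
        3 * |hk N m p (Nat.sqrt N) (n + 1) - hk N m p (Nat.sqrt N) n| +
        |hk N m p (T0 N) (n + 1) - hk N m p (T0 N) n|) := sum_le_sum fun n _ => h3 n
    _ = ∑ p ∈ m.primeFactors, (2 * ∑ n ∈ range N, |hk N m p (T2 N) (n + 1) - hk N m p (T2 N) n| +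
        3 * ∑ n ∈ range N, |hk N m p (Nat.sqrt N) (n + 1) - hk N m p (Nat.sqrt N) n| +
        ∑ n ∈ range N, |hk N m p (T0 N) (n + 1) - hk N m p (T0 N) n|) := by
        rw [sum_comm]
        refine sum_congr rfl fun p _ => ?_
        rw [sum_add_distrib, sum_add_distrib, ← mul_sum, ← mul_sum]
    _ ≤ ∑ _p ∈ m.primeFactors, (84 : ℝ) / m := by
        refine sum_le_sum fun p _ => ?_
        have a1 := h1 p (T2 N)
        have a2 := h1 p (Nat.sqrt N)
        have a3 := h1 p (T0 N)
        have e : (84 : ℝ) / m = 2 * (14 / m) + 3 * (14 / m) + 14 / m := by ring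
        rw [e]
        linarith
    _ = m.primeFactors.card * ((84 : ℝ) / m) := by rw [sum_const, nsmul_eq_mul]
    _ ≤ 4 * ((84 : ℝ) / m) := mul_le_mul_of_nonneg_right h2 (by positivity)
    _ = 336 / m := by ring

theorem ws : WsStm := by
  obtain ⟨N₀, hN₀⟩ := big_all
  refine ⟨143360, N₀, fun N hN => ?_⟩
  obtain ⟨hB, hI, -⟩ := hN₀ N hN
  refine ⟨fun n hn => ?_, ?_⟩
  · unfold Wm
    rw [mul_sum]
    refine (abs_sum_le_sum_abs _ _).trans ?_
    calc ∑ m ∈ mm N n, |Real.log N * (kap N n m * gg n m)|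
        ≤ ∑ m ∈ mm N n, 168 * ((1 : ℝ) / m) := sum_le_sum fun m hm => by
          have h1 := term_bd hB hm
          have h2 := kap_abs hB hn hm
          have e : Real.log N * (kap N n m * gg n m) = kap N n m * (Real.log N * gg n m) := by ring
          rw [e, abs_mul, abs_of_nonneg h1.1]
          calc |kap N n m| * (Real.log N * gg n m) ≤ 24 * (7 / m) :=
                mul_le_mul h2 h1.2 h1.1 (by norm_num)
            _ = _ := by ring
      _ = 168 * ∑ m ∈ mm N n, (1 : ℝ) / m := by rw [mul_sum]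
      _ ≤ 168 * 256 := mul_le_mul_of_nonneg_left (hI n hn) (by norm_num)
      _ ≤ 143360 := by norm_num
  · calc ∑ n ∈ range N, |Wm N (n + 1) - Wm N n|
        ≤ ∑ n ∈ range N, ∑ m ∈ mm N N, (15 * |hh N m (n + 1) - hh N m n| +
          |hk N m 1 (Nat.sqrt N) (n + 1) - hk N m 1 (Nat.sqrt N) n| + |hs N m (n + 1) - hs N m n|) := by
          refine sum_le_sum fun n hn => ?_
          rw [mem_range] at hn
          rw [Wm_eq (by omega : n + 1 ≤ N), Wm_eq (by omega : n ≤ N), ← sum_sub_distrib]
          refine (abs_sum_le_sum_abs _ _).trans (sum_le_sum fun m hm => ?_)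
          have h1 := om_four hB le_rfl hm
          have h2 := abs_le.1 (pr_abs hB le_rfl hm)
          have h4 : (0 : ℝ) ≤ om N m := Nat.cast_nonneg _
          have hc : |1 - (om N m : ℝ) + pr N m| ≤ 15 := by
            rw [abs_le]
            constructor <;> linarith [h2.1, h2.2]
          generalize 1 - (om N m : ℝ) + pr N m = c at hc ⊢
          have e : c * hh N m (n + 1) - hk N m 1 (Nat.sqrt N) (n + 1) + hs N m (n + 1) -
              (c * hh N m n - hk N m 1 (Nat.sqrt N) n + hs N m n) =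
            c * (hh N m (n + 1) - hh N m n) -
              (hk N m 1 (Nat.sqrt N) (n + 1) - hk N m 1 (Nat.sqrt N) n) +
              (hs N m (n + 1) - hs N m n) := by ring
          rw [e]
          refine (abs_add_le _ _).trans (add_le_add ((abs_sub _ _).trans (add_le_add ?_ le_rfl)) le_rfl)
          rw [abs_mul]
          exact mul_le_mul_of_nonneg_right hc (abs_nonneg _)
      _ = ∑ m ∈ mm N N, (15 * ∑ n ∈ range N, |hh N m (n + 1) - hh N m n| +
          ∑ n ∈ range N, |hk N m 1 (Nat.sqrt N) (n + 1) - hk N m 1 (Nat.sqrt N) n| +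
          ∑ n ∈ range N, |hs N m (n + 1) - hs N m n|) := by
          rw [sum_comm]
          refine sum_congr rfl fun m _ => ?_
          rw [sum_add_distrib, sum_add_distrib, ← mul_sum]
      _ ≤ ∑ m ∈ mm N N, 560 * ((1 : ℝ) / m) := by
          refine sum_le_sum fun m hm => ?_
          obtain ⟨h1, h2⟩ := tv_hh hB hm
          have h3 := tv_hs hB hm
          have h4 := h2 1 (Nat.sqrt N)
          calc _ ≤ 15 * (14 / m) + 14 / m + 336 / (m : ℝ) := by linarith
            _ = 560 * ((1 : ℝ) / m) := by ring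
      _ = 560 * ∑ m ∈ mm N N, (1 : ℝ) / m := by rw [mul_sum]
      _ ≤ 560 * 256 := mul_le_mul_of_nonneg_left (hI N le_rfl) (by norm_num)
      _ = 143360 := by norm_num

end Pool.Agent.Helper34.GX
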