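import Pool.Agent.Helper34.GX.Err
import Pool.Graph.R_seed8.R460.GS.Fin

set_option autoImplicit false

/-! Project GX, module LOW (helper50): the lower bound in a window, in terms of the error terms. -/

namespace Pool.Agent.Helper34.GX

open Finset
open Pool.Agent.R460.GS (la la_nn vm_le cv cv_left real_sum sum_window abelW reflect_sum win_main' x_sq)
open Pool.Agent.H373R2.T7 (lamz Vz pz lamI lamzI Vz_pos)
open Pool.Agent.Y883.T3 (lsh)
open Pool.Agent.Y883.GJ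
open Pool.Agent.W93.PG (wn cnt lam_sub lamz_le lamz_nn)
open Pool.Agent.H560R3.GB (sing)
open Pool.Agent.Y614.GJ.Core (ev_log)

/-- the difference -/
noncomputable def gR (N z r n : ℕ) : ℝ := gm N n - Wm N n * lsh z r n

lemma fm_eq (N z r n : ℕ) : fm N z r n = ((gR N z r n : ℝ) : ℂ) := by
  unfold fm gR GM HM
  push_cast
  ring

/-- few members of a window are near the end -/
lemma few_small {n y₁ y₂ : ℕ} {X : ℝ} (hX : 0 ≤ X) (h2 : y₂ < n) :
    (((Ioc y₁ y₂).filter (fun b : ℕ => ((n - b : ℕ) : ℝ) < X)).card : ℝ) ≤ X + 1 := by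
  have e0 : ((Ioc y₁ y₂).filter (fun b : ℕ => ((n - b : ℕ) : ℝ) < X)).card ≤ (Icc 1 ⌊X⌋₊).card := by
    refine card_le_card_of_injOn (fun b => n - b) ?_ ?_
    · intro b hb
      rw [mem_coe, mem_filter, mem_Ioc] at hb
      rw [mem_coe, mem_Icc]
      have h5 : 1 ≤ n - b := by omega
      exact ⟨h5, Nat.le_floor hb.2.le⟩
    · intro a ha b hb hab
      rw [mem_coe, mem_filter, mem_Ioc] at ha hb
      simp only at hab
      omega
  rw [Nat.card_Icc, Nat.add_sub_cancel] at e0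
  have e3 : ((⌊X⌋₊ : ℕ) : ℝ) ≤ X := Nat.floor_le hX
  have e4 : (((Ioc y₁ y₂).filter (fun b : ℕ => ((n - b : ℕ) : ℝ) < X)).card : ℝ) ≤ ((⌊X⌋₊ : ℕ) : ℝ) := by
    exact_mod_cast e0
  linarith

open Classical in
/-- few integers are divisible by the square of a prime above `Z` -/
lemma few_sq {n y₁ y₂ Z : ℕ} (hZ : 1 ≤ Z) (h2 : y₂ < n) :
    (((Ioc y₁ y₂).filter (fun b : ℕ => ∃ p : ℕ, p.Prime ∧ Z < p ∧ p * p ∣ n - b)).card : ℝ) ≤ n / Z := by
  have e0 : ((Ioc y₁ y₂).filter (fun b : ℕ => ∃ p : ℕ, p.Prime ∧ Z < p ∧ p * p ∣ n - b)).card ≤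
      ((Ioc Z n).biUnion (fun p => (Ioc 0 n).filter (fun m => p * p ∣ m))).card := by
    refine card_le_card_of_injOn (fun b => n - b) ?_ ?_
    · intro b hb
      rw [mem_coe, mem_filter, mem_Ioc] at hb
      obtain ⟨hb1, p, -, hp2, hp3⟩ := hb
      rw [mem_coe, mem_biUnion]
      have hpos : 0 < n - b := by omega
      have hle : p * p ≤ n - b := Nat.le_of_dvd hpos hp3
      have hpn : p ≤ n := (Nat.le_mul_self p).trans (hle.trans (Nat.sub_le n b))
      exact ⟨p, mem_Ioc.2 ⟨hp2, hpn⟩, mem_filter.2 ⟨mem_Ioc.2 ⟨hpos, Nat.sub_le n b⟩, hp3⟩⟩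
    · intro a ha b hb hab
      rw [mem_coe, mem_filter, mem_Ioc] at ha hb
      simp only at hab
      omega
  have e1 : (((Ioc Z n).biUnion (fun p => (Ioc 0 n).filter (fun m => p * p ∣ m))).card : ℝ) ≤
      ∑ p ∈ Ioc Z n, (n : ℝ) / (p * p) := by
    have h1 := card_biUnion_le (s := Ioc Z n) (t := fun p => (Ioc 0 n).filter (fun m => p * p ∣ m))
    calc (((Ioc Z n).biUnion (fun p => (Ioc 0 n).filter (fun m => p * p ∣ m))).card : ℝ)
        ≤ ∑ p ∈ Ioc Z n, (((Ioc 0 n).filter (fun m => p * p ∣ m)).card : ℝ) := by exact_mod_cast h1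
      _ ≤ ∑ p ∈ Ioc Z n, (n : ℝ) / (p * p) := by
          refine sum_le_sum fun p _ => ?_
          rw [Nat.Ioc_filter_dvd_card_eq_div]
          refine Nat.cast_div_le.trans (le_of_eq ?_)
          push_cast
          ring
  have e2 : ∀ M : ℕ, ∑ p ∈ Ioc Z (Z + M), (n : ℝ) / (p * p) ≤ n / Z - n / ((Z + M : ℕ) : ℝ) := by
    intro M
    induction M with
    | zero => simp
    | succ M ih =>
      rw [show Z + (M + 1) = (Z + M) + 1 by ring, ← Finset.insert_Ioc_right_eq_Ioc_add_one (by omega : Z ≤ Z + M),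
        sum_insert (by simp)]
      have hx : (0 : ℝ) < ((Z + M : ℕ) : ℝ) := by exact_mod_cast (by omega : 0 < Z + M)
      obtain ⟨x, hxd⟩ : ∃ x : ℝ, x = ((Z + M : ℕ) : ℝ) := ⟨_, rfl⟩
      have hc : (((Z + M) + 1 : ℕ) : ℝ) = x + 1 := by rw [hxd]; push_cast; ring
      rw [hc]
      rw [← hxd] at ih hx
      have hn : (0 : ℝ) ≤ n := Nat.cast_nonneg _
      have h3 : (n : ℝ) / ((x + 1) * (x + 1)) ≤ n / x - n / (x + 1) := by
        rw [div_sub_div _ _ hx.ne' (by positivity)]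
        rw [div_le_div_iff₀ (by positivity) (by positivity)]
        have : (n : ℝ) * (x * (x + 1)) ≤ (n * (x + 1) - x * n) * ((x + 1) * (x + 1)) := by
          have h4 : (n * (x + 1) - x * n : ℝ) = n := by ring
          rw [h4]
          apply mul_le_mul_of_nonneg_left _ hn
          nlinarith
        exact this
      linarith
  have e3 : ∑ p ∈ Ioc Z n, (n : ℝ) / (p * p) ≤ n / Z := by
    rcases le_total n Z with h | h
    · rw [Finset.Ioc_eq_empty (by omega), sum_empty]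
      positivity
    · have h3 := e2 (n - Z)
      rw [show Z + (n - Z) = n by omega] at h3
      have h4 : (0 : ℝ) ≤ (n : ℝ) / (n : ℝ) := by positivity
      linarith
  have e4 : (((Ioc y₁ y₂).filter (fun b : ℕ => ∃ p : ℕ, p.Prime ∧ Z < p ∧ p * p ∣ n - b)).card : ℝ) ≤
      (((Ioc Z n).biUnion (fun p => (Ioc 0 n).filter (fun m => p * p ∣ m))).card : ℝ) := by exact_mod_cast e0
  linarith

/-- the lower bound sieve -/
lemma wn_lower4 {N n y₁ y₂ : ℕ} {X : ℝ} (hX : 0 ≤ X) (h2 : y₂ < n) (hn : n ≤ N) (hZ : 1 ≤ ZZ N)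
    (hgl : ∀ m : ℕ, 2 ≤ m → m ≤ N →
      9998 / 10000 * Real.log N ≤ Real.log m → (∀ p : ℕ, p.Prime → ZZ N < p → ¬ p * p ∣ m) →
      9998 / 10000 * gm N m ≤ ArithmeticFunction.vonMangoldt m)
    (hl : ∀ m : ℕ, m ≤ N → X ≤ m → 2 ≤ m ∧ 9998 / 10000 * Real.log N ≤ Real.log m) :
    9998 / 10000 * ∑ b ∈ Ioc y₁ y₂, la b * gm N (n - b) - 26 * Real.log N ^ 2 * (X + 1 + N / ZZ N) ≤ wn n y₁ y₂ := by
  classical
  have h1 : ∑ b ∈ Ioc y₁ y₂, (9998 / 10000 * (la b * gm N (n - b)) -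
      (if ((n - b : ℕ) : ℝ) < X then 26 * Real.log N ^ 2 else 0) -
      (if ∃ p : ℕ, p.Prime ∧ ZZ N < p ∧ p * p ∣ n - b then 26 * Real.log N ^ 2 else 0)) ≤ wn n y₁ y₂ := by
    unfold wn
    refine sum_le_sum fun b hb => ?_
    rw [mem_Ioc] at hb
    rw [lam_sub n b (by omega)]
    have hb1 : b ∈ Icc 1 N := mem_Icc.2 ⟨by omega, by omega⟩
    have hb2 : n - b ∈ Icc 1 N := mem_Icc.2 ⟨by omega, by omega⟩
    have k1 := la_nn b
    have k2 : la b ≤ Real.log N := vm_le hb1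
    have k3 := la_nn (n - b)
    have k4 := gm_abs hb2
    have k5 : la b * gm N (n - b) ≤ 26 * Real.log N ^ 2 := by
      calc la b * gm N (n - b) ≤ la b * |gm N (n - b)| := mul_le_mul_of_nonneg_left (le_abs_self _) k1
        _ ≤ Real.log N * (26 * Real.log N) := mul_le_mul k2 k4 (abs_nonneg _) (k1.trans k2)
        _ = _ := by ring
    have k6 := mul_nonneg k1 k3
    have k7 : 0 ≤ 26 * Real.log N ^ 2 := by positivity
    show 9998 / 10000 * (la b * gm N (n - b)) - (if ((n - b : ℕ) : ℝ) < X then 26 * Real.log N ^ 2 else 0) -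
      (if ∃ p : ℕ, p.Prime ∧ ZZ N < p ∧ p * p ∣ n - b then 26 * Real.log N ^ 2 else 0) ≤
      la b * la (n - b)
    by_cases hc : ((n - b : ℕ) : ℝ) < X
    · rw [if_pos hc]
      have k8 : 0 ≤ (if ∃ p : ℕ, p.Prime ∧ ZZ N < p ∧ p * p ∣ n - b then 26 * Real.log N ^ 2 else 0) := by
        split_ifs
        · exact k7
        · exact le_rfl
      linarith
    · rw [if_neg hc]
      by_cases hd : ∃ p : ℕ, p.Prime ∧ ZZ N < p ∧ p * p ∣ n - b
      · rw [if_pos hd]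
        linarith
      · rw [if_neg hd]
        obtain ⟨l1, l2⟩ := hl (n - b) (mem_Icc.1 hb2).2 (not_lt.1 hc)
        have k4' := hgl (n - b) l1 (mem_Icc.1 hb2).2 l2 (fun p hp hp2 hp3 => hd ⟨p, hp, hp2, hp3⟩)
        have k5' : la b * (9998 / 10000 * gm N (n - b)) ≤ la b * la (n - b) := mul_le_mul_of_nonneg_left k4' k1
        linarith
  rw [sum_sub_distrib, sum_sub_distrib, ← mul_sum, ← sum_filter, sum_const, nsmul_eq_mul, ← sum_filter, sum_const,
    nsmul_eq_mul] at h1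
  have h3 := few_small (y₁ := y₁) hX h2
  have h3' := few_sq (y₁ := y₁) hZ h2
  have h4 : 0 ≤ 26 * Real.log N ^ 2 := by positivity
  have h5 := mul_le_mul_of_nonneg_right h3 h4
  have h6 : (n : ℝ) / ZZ N ≤ N / ZZ N := by gcongr
  have h5' := mul_le_mul_of_nonneg_right (h3'.trans h6) h4
  have h7 : 26 * Real.log N ^ 2 * (X + 1 + N / ZZ N) = (X + 1) * (26 * Real.log N ^ 2) +
    (N / ZZ N) * (26 * Real.log N ^ 2) := by ring
  rw [h7]
  linarith

/-- the error term up to `y` -/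
lemma err_window4 {N n y z r : ℕ} (hy : y < n) (hn : n ≤ N) :
    |∑ b ∈ Icc 1 y, la b * gR N z r (n - b)| = ‖cv LA (fm N z r) y N n‖ := by
  rw [cv_left hy hn]
  exact real_sum (Icc 1 y) la (fun b => gR N z r (n - b)) LA (fun b => fm N z r (n - b)) (fun _ => rfl)
    (fun b => fm_eq _ _ _ _)

/-- from the truncated model to the exact model -/
lemma swap_model4 {N n y₁ y₂ z r : ℕ} {c X₁ : ℝ} (hW : WS (Wm N) c N) (h2 : y₂ < n)
    (hn : n ≤ N) (h1 : ∑ n ∈ Icc 1 N, |lamz z n - lsh z r n| ≤ X₁) :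
    |∑ b ∈ Ioc y₁ y₂, la b * (Wm N (n - b) * lsh z r (n - b)) -
      ∑ b ∈ Ioc y₁ y₂, la b * (Wm N (n - b) * lamz z (n - b))| ≤ c * Real.log N * X₁ := by
  have hc := hW.nn
  have hL0 : 0 ≤ Real.log N := Real.log_natCast_nonneg N
  obtain ⟨x, hx⟩ : ∃ x : ℕ → ℝ, x = fun n => |lamz z n - lsh z r n| := ⟨_, rfl⟩
  have hpt : ∀ b ∈ Ioc y₁ y₂, |la b * (Wm N (n - b) * lsh z r (n - b)) -
      la b * (Wm N (n - b) * lamz z (n - b))| ≤ c * Real.log N * x (n - b) := by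
    intro b hb
    rw [mem_Ioc] at hb
    have hbN : b ∈ Icc 1 N := mem_Icc.2 ⟨by omega, by omega⟩
    have k1 := la_nn b
    have k2 : la b ≤ Real.log N := vm_le hbN
    have k3 := hW.h1 (n - b) (by omega)
    have e1 : la b * (Wm N (n - b) * lsh z r (n - b)) - la b * (Wm N (n - b) * lamz z (n - b)) =
      (la b * Wm N (n - b)) * (lsh z r (n - b) - lamz z (n - b)) := by ring
    rw [e1, abs_mul, hx]
    simp only
    rw [abs_sub_comm (lsh z r (n - b))]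
    apply mul_le_mul_of_nonneg_right _ (abs_nonneg _)
    rw [abs_mul, abs_of_nonneg k1, mul_comm c]
    exact mul_le_mul k2 k3 (abs_nonneg _) hL0
  rw [← sum_sub_distrib]
  refine (abs_sum_le_sum_abs _ _).trans ((sum_le_sum hpt).trans ?_)
  rw [← mul_sum]
  apply mul_le_mul_of_nonneg_left _ (by positivity)
  have hx0 : ∀ b, 0 ≤ x b := fun b => by rw [hx]; exact abs_nonneg _
  calc ∑ b ∈ Ioc y₁ y₂, x (n - b) ≤ ∑ b ∈ Icc 1 y₂, x (n - b) := by
        refine sum_le_sum_of_subset_of_nonneg (fun b hb => ?_) fun _ _ _ => hx0 _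
        rw [mem_Ioc] at hb
        rw [mem_Icc]
        omega
    _ = ∑ b ∈ Ioc (n - y₂ - 1) (n - 1), x b := reflect_sum x h2
    _ ≤ ∑ b ∈ Icc 1 N, x b := by
        refine sum_le_sum_of_subset_of_nonneg (fun b hb => ?_) fun _ _ _ => hx0 _
        rw [mem_Ioc] at hb
        rw [mem_Icc]
        omega
    _ ≤ X₁ := by rw [hx]; exact h1

/-- the main term with weights -/
lemma det_main4 {N n y₁ y₂ : ℕ} {W la lz : ℕ → ℝ} {c S ε : ℝ} (hW : WS W c N) (hn : n ≤ N) (h12 : y₁ ≤ y₂)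
    (h2 : y₂ < n) (hm1 : ∀ y < n, |∑ b ∈ Icc 1 y, la b * lz (n - b) - S * y| ≤ ε) :
    |∑ b ∈ Ioc y₁ y₂, la b * (W (n - b) * lz (n - b)) - S * ∑ b ∈ Ioc y₁ y₂, W (n - b)| ≤ 4 * c * ε := by
  have hc := hW.nn
  have cst : ∀ m : ℕ, ∑ _i ∈ Icc 1 m, S = S * m := by
    intro m
    rw [sum_const, Nat.card_Icc, nsmul_eq_mul, Nat.add_sub_cancel, mul_comm]
  have p1 : ∀ m ≤ y₂, |∑ i ∈ Icc 1 m, (la i * lz (n - i) - S)| ≤ ε := by
    intro m hm
    rw [sum_sub_distrib, cst]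
    exact hm1 m (by omega)
  have q1 := abelW (fun i => la i * lz (n - i) - S) (fun i => W (n - i)) ε c c y₁ y₂ h12 p1
    (fun i hi => hW.h1 _ (by omega)) (hW.refl hn h2) hc
  have e : ∑ b ∈ Ioc y₁ y₂, la b * (W (n - b) * lz (n - b)) - S * ∑ b ∈ Ioc y₁ y₂, W (n - b) =
      ∑ i ∈ Ioc y₁ y₂, W (n - i) * (la i * lz (n - i) - S) := by
    rw [mul_sum, ← sum_sub_distrib]
    refine sum_congr rfl fun b _ => ?_
    ring
  rw [e]
  refine q1.trans (le_of_eq ?_)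
  ring

/-- the density of the main term -/
lemma dens_lower4 {N n y₁ y₂ : ℕ} {W : ℕ → ℝ} {c X : ℝ} (hW : WS W c N) (hn : n ≤ N) (h12 : y₁ ≤ y₂)
    (h2 : y₂ < n) (hX : 0 ≤ X) (hd : ∀ b : ℕ, b ≤ N → X ≤ b → 9 / 100 ≤ W b) :
    9 / 100 * ((y₂ : ℝ) - y₁) - (c + 1) * (X + 1) ≤ ∑ b ∈ Ioc y₁ y₂, W (n - b) := by
  classical
  have hc := hW.nn
  have h1 : ∀ b ∈ Ioc y₁ y₂, 9 / 100 - (if ((n - b : ℕ) : ℝ) < X then (c + 1) else 0) ≤ W (n - b) := by
    intro b hb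
    rw [mem_Ioc] at hb
    have k4 := (abs_le.1 (hW.h1 (n - b) (by omega))).1
    by_cases a2 : ((n - b : ℕ) : ℝ) < X
    · rw [if_pos a2]
      linarith
    · rw [if_neg a2]
      have := hd (n - b) (by omega) (not_lt.1 a2)
      linarith
  refine le_trans ?_ (sum_le_sum h1)
  rw [sum_sub_distrib, sum_const, Nat.card_Ioc, nsmul_eq_mul, ← sum_filter, sum_const, nsmul_eq_mul,
    Nat.cast_sub h12]
  have c2 := few_small (y₁ := y₁) hX h2
  have hc1 : 0 ≤ c + 1 := by positivity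
  have := mul_le_mul_of_nonneg_right c2 hc1
  linarith

/-- the error term at `y` is small -/
def SmallE4 (N z r n y V : ℕ) : Prop := ‖cv LA (fm N z r) y N n‖ ≤ N / Real.log N ^ V

/-- the lower bound between two points of the grid -/
lemma grid_lower4 (hws : WsStm) (hwd : WdStm) (hgl : GmLeStm) (V E1 : ℕ) (hE1 : V + 8 ≤ E1) : ∃ N₀ : ℕ, ∀ N : ℕ, N₀ ≤ N →
    ∀ z r : ℕ, Real.log N ^ E1 ≤ z → (z : ℝ) ≤ Real.log N ^ (E1 + 1) →
    ∑ n ∈ Icc 1 N, |lamz z n - lsh z r n| ≤ N / Real.log N ^ (V + 6) →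
    ∀ n : ℕ, n ≤ N → 2 ∣ n → n ≠ 0 → ∀ y₁ y₂ : ℕ, y₁ ≤ y₂ → y₂ < n → SmallE4 N z r n y₁ (V + 2) →
      SmallE4 N z r n y₂ (V + 2) →
      89 / 1000 * (sing n * ((y₂ : ℝ) - y₁)) - N / Real.log N ^ V ≤ wn n y₁ y₂ ∧ sing n ≤ 2 * Real.log N := by
  obtain ⟨c, Nw, hWB⟩ := hws
  obtain ⟨Nd, hd⟩ := hwd (V + 6)
  obtain ⟨Ng, hg⟩ := hgl
  obtain ⟨X0, hX0⟩ := win_main' (V + 2) E1 (by omega)
  obtain ⟨Ne, hNe⟩ := Filter.eventually_atTop.1 (ev_log (V + 8) (s := 1 / 2) (by norm_num)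
    (100 * (1 + |c|)))
  obtain ⟨Nf, hNf⟩ := Filter.eventually_atTop.1 (ev_log (V + 7) (s := 1 / 5000) (by norm_num) 1)
  refine ⟨Nw + Nd + Ng + X0 + Ne + Nf + 2, fun N hN z r hz1 hz2 hsum n hn h2n hn0 y₁ y₂ h12 h2 hs1 hs2 => ?_⟩
  have hN1 : 1 ≤ N := by omega
  have hN0 : (0 : ℝ) < N := by exact_mod_cast hN1
  have hN1r : (1 : ℝ) ≤ N := by exact_mod_cast hN1
  obtain ⟨hLe, hLp⟩ := hNe N (by omega)
  obtain ⟨-, hLq⟩ := hNf N (by omega)
  have hW := hWB N (by omega)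
  have hc := hW.nn
  rw [abs_of_nonneg hc] at hLe
  have hL100 : 100 ≤ Real.log N := by linarith
  obtain ⟨hwin, hS0, hS2⟩ := hX0 N (by omega) n hn h2n hn0 z hz1 hz2
  have hX : (0 : ℝ) ≤ N / Real.log N ^ (V + 6) := by positivity
  have hLL : Real.log N ^ (V + 6) ≤ (N : ℝ) ^ (1 / 5000 : ℝ) :=
    (pow_le_pow_right₀ (by linarith) (by omega)).trans hLq
  have hXbig : (N : ℝ) ^ (9998 / 10000 : ℝ) ≤ N / Real.log N ^ (V + 6) := by
    rw [le_div_iff₀ (by positivity)]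
    calc (N : ℝ) ^ (9998 / 10000 : ℝ) * Real.log N ^ (V + 6) ≤
          (N : ℝ) ^ (9998 / 10000 : ℝ) * (N : ℝ) ^ (1 / 5000 : ℝ) := by gcongr
      _ = N := by
          rw [← Real.rpow_add hN0]
          norm_num
  have hl : ∀ m : ℕ, m ≤ N → (N : ℝ) / Real.log N ^ (V + 6) ≤ m →
      2 ≤ m ∧ 9998 / 10000 * Real.log N ≤ Real.log m := by
    intro m _ hm
    have k1 := hXbig.trans hm
    have k2 : 9998 / 10000 * Real.log N ≤ Real.log m := by
      rw [← Real.log_rpow hN0]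
      exact Real.log_le_log (by positivity) k1
    refine ⟨?_, k2⟩
    by_contra hcon
    have k3 : Real.log m = 0 := by
      rcases (by omega : m = 0 ∨ m = 1) with h | h <;> rw [h] <;> simp
    rw [k3] at k2
    linarith
  have hZ1 : 1 ≤ ZZ N := (one_le_WW hN1).trans (WW_le hN1)
  have hZr : (1 : ℝ) ≤ ZZ N := by exact_mod_cast hZ1
  have hZN : (N : ℝ) / ZZ N ≤ 2 * (N / Real.log N ^ (V + 6)) := by
    have j1 : (N : ℝ) ^ (1 / 6 : ℝ) < (ZZ N : ℝ) + 1 := Nat.lt_floor_add_one _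
    have j2 : (N : ℝ) ^ (1 / 5000 : ℝ) ≤ (N : ℝ) ^ (1 / 6 : ℝ) :=
      Real.rpow_le_rpow_of_exponent_le hN1r (by norm_num)
    have j3 : Real.log N ^ (V + 6) ≤ 2 * ZZ N := by linarith
    have j4 : 0 < Real.log N ^ (V + 6) := by positivity
    have j5 : (N : ℝ) / ZZ N ≤ N / (Real.log N ^ (V + 6) / 2) := by
      apply div_le_div_of_nonneg_left hN0.le (by positivity)
      linarith
    refine j5.trans (le_of_eq ?_)
    field_simp
  have k1 := wn_lower4 (y₁ := y₁) hX h2 hn hZ1 (hg N (by omega)) hl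
  have k2 := swap_model4 (y₁ := y₁) hW h2 hn hsum
  have k3 := det_main4 (la := la) (lz := lamz z) (S := sing n) hW hn h12 h2 (fun y hy => (hwin y hy).1)
  have k4 := dens_lower4 (X := N / Real.log N ^ (V + 6)) hW hn h12 h2 hX (fun b hb hb' => hd N (by omega) b hb hb')
  have e1 := err_window4 (z := z) (r := r) (lt_of_le_of_lt h12 h2) hn
  have e2 := err_window4 (z := z) (r := r) h2 hn
  unfold SmallE4 at hs1 hs2
  rw [← e1] at hs1
  rw [← e2] at hs2
  have hsplit : ∑ b ∈ Ioc y₁ y₂, la b * gm N (n - b) =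
      ∑ b ∈ Ioc y₁ y₂, la b * (Wm N (n - b) * lsh z r (n - b)) +
      (∑ b ∈ Icc 1 y₂, la b * gR N z r (n - b) - ∑ b ∈ Icc 1 y₁, la b * gR N z r (n - b)) := by
    rw [← sum_window _ h12, ← sum_add_distrib]
    refine sum_congr rfl fun b _ => ?_
    unfold gR
    ring
  rw [hsplit] at k1
  obtain ⟨L, hLd⟩ : ∃ L, L = Real.log (N : ℝ) := ⟨_, rfl⟩
  obtain ⟨S, hSd⟩ : ∃ S, S = sing n := ⟨_, rfl⟩
  rw [← hLd] at hs1 hs2 hLe hLp hL100 k1 k2 k3 k4 hS2 hX hZN ⊢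
  rw [← hSd] at k3 hS0 hS2 ⊢
  refine ⟨?_, hS2⟩
  have hL0 : 0 < L := by linarith
  have hL1 : 1 ≤ L := by linarith
  obtain ⟨D, hD⟩ : ∃ D : ℝ, D = N / L ^ (V + 1) := ⟨_, rfl⟩
  have hD0 : 0 < D := by rw [hD]; positivity
  -- sizes of the error terms
  have hmono : ∀ j : ℕ, (N : ℝ) / L ^ (V + 1 + j) = D / L ^ j := by
    intro j
    rw [hD, pow_add, div_div]
  have z1 : (N : ℝ) / L ^ (V + 2) = D / L := by
    have := hmono 1
    rwa [pow_one] at this
  have z4 : (N : ℝ) / L ^ (V + 2 + 2) = D / L ^ 3 := hmono 3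
  have z5 : (N : ℝ) / L ^ (V + 6) = D / L ^ 5 := hmono 5
  have z0 : (N : ℝ) / L ^ V = L * D := by
    rw [hD, pow_succ]
    field_simp
  have hDL : D / L ≤ D / 100 := div_le_div_of_nonneg_left hD0.le (by norm_num) hL100
  have hcD : c * (D / L) ≤ D / 100 := by
    have h1 : D / L * L = D := div_mul_cancel₀ _ hL0.ne'
    have h3 : D / L * (100 * (1 + c)) ≤ D := by
      calc D / L * (100 * (1 + c)) ≤ D / L * L := mul_le_mul_of_nonneg_left hLe (by positivity)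
        _ = D := h1
    have h4 : 0 ≤ D / L := by positivity
    linarith
  have hDL0 : 0 ≤ D / L := by positivity
  have hLpow : ∀ i j : ℕ, i ≤ j → D / L ^ j ≤ D / L ^ i := fun i j hij =>
    div_le_div_of_nonneg_left hD0.le (by positivity) (pow_le_pow_right₀ hL1 hij)
  -- (a) the small numbers
  have hone : 1 ≤ (N : ℝ) / L ^ (V + 6) := by
    rw [le_div_iff₀ (by positivity), one_mul]
    calc L ^ (V + 6) ≤ L ^ (V + 8) := pow_le_pow_right₀ hL1 (by omega)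
      _ ≤ (N : ℝ) ^ (1 / 2 : ℝ) := hLp
      _ ≤ (N : ℝ) ^ (1 : ℝ) := Real.rpow_le_rpow_of_exponent_le hN1r (by norm_num)
      _ = N := Real.rpow_one _
  have ea : 26 * L ^ 2 * (N / L ^ (V + 6) + 1 + N / ZZ N) ≤ 2 * D := by
    calc 26 * L ^ 2 * (N / L ^ (V + 6) + 1 + N / ZZ N) ≤ 26 * L ^ 2 * (4 * (N / L ^ (V + 6))) := by
          apply mul_le_mul_of_nonneg_left _ (by positivity)
          linarith
      _ = 104 * (D / L ^ 3) := by
          rw [z5]
          field_simp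
          ring
      _ ≤ 104 * (D / L) := by
          have := hLpow 1 3 (by norm_num)
          rw [pow_one] at this
          linarith
      _ ≤ 2 * D := by linarith
  -- (c) the swap of the models
  have ec : c * L * (N / L ^ (V + 6)) ≤ D := by
    calc c * L * (N / L ^ (V + 6)) = c * (D / L ^ 4) := by
          rw [z5]
          field_simp
      _ ≤ c * (D / L) := by
          have := hLpow 1 4 (by norm_num)
          rw [pow_one] at this
          exact mul_le_mul_of_nonneg_left this hc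
      _ ≤ D := by linarith
  -- (d) the main term
  have ed : 4 * c * (2 * (N / L ^ (V + 2 + 2))) ≤ D := by
    rw [z4]
    have g1 := hLpow 1 3 (by norm_num)
    rw [pow_one] at g1
    have g2 := mul_le_mul_of_nonneg_left g1 hc
    linarith
  -- (e) the density
  have ee1 : S * ((c + 1) * (N / L ^ (V + 6) + 1)) ≤ D := by
    calc S * ((c + 1) * (N / L ^ (V + 6) + 1)) ≤ (2 * L) * ((c + 1) * (2 * (N / L ^ (V + 6)))) := by
          have g1 : N / L ^ (V + 6) + 1 ≤ 2 * (N / L ^ (V + 6)) := by linarith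
          gcongr
      _ = 4 * (c + 1) * (D / L ^ 4) := by
          rw [z5]
          field_simp
          ring
      _ ≤ 4 * (c + 1) * (D / L) := by
          have := hLpow 1 4 (by norm_num)
          rw [pow_one] at this
          gcongr
      _ = 4 * (c * (D / L)) + 4 * (D / L) := by ring
      _ ≤ D := by linarith only [hcD, hDL, hD0]
  obtain ⟨M1, hM1⟩ : ∃ M1, M1 = ∑ b ∈ Ioc y₁ y₂, la b * (Wm N (n - b) * lsh z r (n - b)) := ⟨_, rfl⟩
  obtain ⟨M2, hM2⟩ : ∃ M2, M2 = ∑ b ∈ Ioc y₁ y₂, la b * (Wm N (n - b) * lamz z (n - b)) := ⟨_, rfl⟩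
  obtain ⟨M3, hM3⟩ : ∃ M3, M3 = ∑ b ∈ Ioc y₁ y₂, Wm N (n - b) := ⟨_, rfl⟩
  rw [← hM1] at k1
  rw [← hM1, ← hM2] at k2
  rw [← hM2, ← hM3] at k3
  rw [← hM3] at k4
  have m1 := (abs_le.1 k2).1
  have m2 := (abs_le.1 k3).1
  have m3 := (abs_le.1 hs1).2
  have m4 := (abs_le.1 hs2).1
  have m5 := mul_le_mul_of_nonneg_left k4 hS0
  have m6 : S * (9 / 100 * ((y₂ : ℝ) - y₁) - (c + 1) * (N / L ^ (V + 6) + 1)) =
    9 / 100 * (S * ((y₂ : ℝ) - y₁)) - S * ((c + 1) * (N / L ^ (V + 6) + 1)) := by ring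
  rw [m6] at m5
  have m8 : 0 ≤ S * ((y₂ : ℝ) - y₁) := by
    have : (y₁ : ℝ) ≤ y₂ := by exact_mod_cast h12
    exact mul_nonneg hS0 (by linarith)
  rw [z0]
  have m7 : 12 * D ≤ L * D := mul_le_mul_of_nonneg_right (by linarith only [hL100]) hD0.le
  linarith only [m8, m7, m5, m4, m3, m2, m1, k1, ea, ec, ed, ee1, z1, hDL, hD0]

end Pool.Agent.Helper34.GX
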