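import Pool.Agent.Helper34.GX.Low

set_option autoImplicit false

/-! Project GX, module MAIN (helper50): the binary Goldbach problem in the residue classes of every modulus up to
`x ^ (5/6 - ρ)`: lower bounds in all windows, and the number of exceptions in a residue class. -/

namespace Pool.Agent.Helper34.GX

open Finset
open Pool.Agent.R460.GS (cv one_le_sing wn_nn_mono)
open Pool.Agent.H373R2.T7 (lamz Vz pz lamI lamzI Vz_pos)
open Pool.Agent.Y883.T3 (lsh)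
open Pool.Agent.Y883.GJ
open Pool.Agent.W93.PG (wn cnt lam_sub wn_le)
open Pool.Agent.H560R3.GB (sing C₂)
open Pool.Agent.Y614.GJ.Core (ev_log)
open Pool.Agent.Y883.T4 (badc class_le)

/-- at least a twelfth of the expected number of Goldbach pairs in all windows -/
def WinM (A m : ℕ) : Prop :=
  ∀ y₁ y₂ : ℕ, y₁ < y₂ → y₂ ≤ m → (m : ℝ) / Real.log m ^ A ≤ (y₂ : ℝ) - y₁ →
    1 / 12 * (sing m * ((y₂ : ℝ) - y₁) / Real.log m ^ 2) ≤ (cnt m y₁ y₂ : ℝ)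

/-- from the grid to all windows -/
lemma windows_of_grid4 (A : ℕ) : ∃ N₀ : ℕ, ∀ N : ℕ, N₀ ≤ N → ∀ H : ℕ, 1 ≤ H →
    (H : ℝ) ≤ 2 * (N / Real.log N ^ (2 * A + 4)) → ∀ n : ℕ, n ≤ N → (N : ℝ) / Real.log N ^ (A + 1) ≤ n →
    sing n ≤ 2 * Real.log N →
    (∀ i j : ℕ, i ≤ j → j * H < n →
      89 / 1000 * (sing n * (((j * H : ℕ) : ℝ) - ((i * H : ℕ) : ℝ))) - N / Real.log N ^ (2 * A + 4) ≤
        wn n (i * H) (j * H)) → WinM A n := by
  obtain ⟨N₁, h1⟩ := Filter.eventually_atTop.1 (ev_log (3 * A + 10) (s := 1 / 4) (by norm_num) 10000)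
  refine ⟨N₁ + 2, fun N hN H hH1 hH n hn hnN hS2 hgrid y₁ y₂ h12 h2 hlen => ?_⟩
  have hN1 : 1 ≤ N := by omega
  have hN0 : (0 : ℝ) < N := by exact_mod_cast hN1
  obtain ⟨hL, hLp⟩ := h1 N (by omega)
  obtain ⟨L, hLd⟩ : ∃ L, L = Real.log (N : ℝ) := ⟨_, rfl⟩
  rw [← hLd] at hL hLp hH hnN hS2 hgrid
  have hL0 : 0 < L := by linarith
  have hL1 : 1 ≤ L := by linarith
  have hn0 : (0 : ℝ) < n := lt_of_lt_of_le (by positivity) hnN
  have hn1 : 1 ≤ n := by exact_mod_cast hn0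
  have hnr : (n : ℝ) ≤ N := by exact_mod_cast hn
  have hlogn : Real.log n ≤ L := by
    rw [hLd]
    exact Real.log_le_log hn0 hnr
  have hlogn1 : 1 ≤ Real.log n := by
    -- `n` is large
    have e1 : (N : ℝ) ^ (3 / 4 : ℝ) ≤ n := by
      refine le_trans ?_ hnN
      rw [le_div_iff₀ (by positivity)]
      calc (N : ℝ) ^ (3 / 4 : ℝ) * L ^ (A + 1) ≤ (N : ℝ) ^ (3 / 4 : ℝ) * (N : ℝ) ^ (1 / 4 : ℝ) := by
            have : L ^ (A + 1) ≤ (N : ℝ) ^ (1 / 4 : ℝ) := (pow_le_pow_right₀ hL1 (by omega)).trans hLp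
            gcongr
        _ = N := by
            rw [← Real.rpow_add hN0]
            norm_num
    have e2 : 3 / 4 * L ≤ Real.log n := by
      rw [hLd, ← Real.log_rpow hN0]
      exact Real.log_le_log (by positivity) e1
    linarith
  have hlogn0 : 0 < Real.log n := by linarith
  obtain ⟨Δ, hΔ⟩ : ∃ Δ : ℝ, Δ = (y₂ : ℝ) - y₁ := ⟨_, rfl⟩
  obtain ⟨S, hSd⟩ : ∃ S : ℝ, S = sing n := ⟨_, rfl⟩
  have hS1 : 1 ≤ S := by rw [hSd]; exact one_le_sing n
  rw [← hΔ] at hlen ⊢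
  rw [← hSd] at hS2 hgrid ⊢
  have hΔ1 : (n : ℝ) / L ^ A ≤ Δ := by
    refine le_trans ?_ hlen
    apply div_le_div_of_nonneg_left hn0.le (by positivity)
    exact pow_le_pow_left₀ hlogn0.le hlogn A
  have hΔ2 : (N : ℝ) / L ^ (2 * A + 1) ≤ Δ := by
    refine le_trans ?_ hΔ1
    rw [show 2 * A + 1 = (A + 1) + A by ring, pow_add, ← div_div]
    exact div_le_div_of_nonneg_right hnN (by positivity)
  have hΔ0 : 0 < Δ := lt_of_lt_of_le (by positivity) hΔ2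
  have hV : (N : ℝ) / L ^ (2 * A + 4) ≤ Δ / L ^ 3 := by
    rw [show 2 * A + 4 = (2 * A + 1) + 3 by ring, pow_add, ← div_div]
    exact div_le_div_of_nonneg_right hΔ2 (by positivity)
  have hL3 : Δ / L ^ 3 ≤ Δ / L / 10000 := by
    rw [div_div]
    apply div_le_div_of_nonneg_left hΔ0.le (by positivity)
    have : L ^ 3 = L * (L * L) := by ring
    rw [this]
    have : (10000 : ℝ) ≤ L * L := by nlinarith
    exact mul_le_mul_of_nonneg_left this hL0.le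
  have hΔL : Δ / L ≤ Δ / 10000 := div_le_div_of_nonneg_left hΔ0.le (by norm_num) hL
  have hHΔ : (H : ℝ) ≤ Δ / L / 5000 := by linarith
  have hHΔ' : (H : ℝ) ≤ Δ / 1000 := by
    have : Δ / L / 5000 ≤ Δ / L := div_le_self (by positivity) (by norm_num)
    linarith
  have hH0 : (1 : ℝ) ≤ H := by exact_mod_cast hH1
  -- the points of the grid
  obtain ⟨i, hi⟩ : ∃ i, i = (y₁ + H - 1) / H := ⟨_, rfl⟩
  obtain ⟨j, hj⟩ : ∃ j, j = (y₂ - 1) / H := ⟨_, rfl⟩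
  have hi1 : y₁ ≤ i * H := by
    have h3 := Nat.lt_div_mul_add (a := y₁ + H - 1) (b := H) (by omega)
    rw [← hi] at h3
    omega
  have hi2 : i * H ≤ y₁ + H := by
    have h3 := Nat.div_mul_le_self (y₁ + H - 1) H
    rw [← hi] at h3
    omega
  have hj1 : j * H ≤ y₂ - 1 := by
    rw [hj]
    exact Nat.div_mul_le_self _ _
  have hj2 : y₂ ≤ j * H + H := by
    have h3 := Nat.lt_div_mul_add (a := y₂ - 1) (b := H) (by omega)
    rw [← hj] at h3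
    omega
  have hi2r : ((i * H : ℕ) : ℝ) ≤ y₁ + H := by exact_mod_cast hi2
  have hj2r : (y₂ : ℝ) ≤ ((j * H : ℕ) : ℝ) + H := by exact_mod_cast hj2
  have hij : i ≤ j := by
    by_contra hcon
    have h3 : j * H ≤ i * H := Nat.mul_le_mul_right _ (by omega)
    have h4 : ((j * H : ℕ) : ℝ) ≤ ((i * H : ℕ) : ℝ) := by exact_mod_cast h3
    linarith
  have h3 := hgrid i j hij (by omega)
  have h4 := wn_nn_mono n hi1 (show j * H ≤ y₂ by omega)
  have h5 := wn_le n y₁ y₂ h2 hn1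
  have hgap : Δ - 2 * H ≤ ((j * H : ℕ) : ℝ) - ((i * H : ℕ) : ℝ) := by
    rw [hΔ]
    linarith
  have h6 : 89 / 1000 * (S * (Δ - 2 * H)) ≤ 89 / 1000 * (S * (((j * H : ℕ) : ℝ) - ((i * H : ℕ) : ℝ))) := by
    gcongr
  have hSΔ : Δ ≤ S * Δ := by nlinarith
  -- the square root
  have h7 : 4 * √(n : ℝ) * Real.log n ^ 2 ≤ Δ / 1000 := by
    have e1 : √(n : ℝ) ≤ √(N : ℝ) := Real.sqrt_le_sqrt hnr
    have e2 : Real.log n ^ 2 ≤ L ^ 2 := pow_le_pow_left₀ hlogn0.le hlogn 2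
    have e3 : 4 * √(n : ℝ) * Real.log n ^ 2 ≤ 4 * √(N : ℝ) * L ^ 2 := by gcongr
    refine e3.trans (le_trans ?_ (div_le_div_of_nonneg_right hΔ2 (by norm_num)))
    rw [Real.sqrt_eq_rpow, le_div_iff₀ (by norm_num), le_div_iff₀ (by positivity)]
    calc 4 * (N : ℝ) ^ (1 / 2 : ℝ) * L ^ 2 * 1000 * L ^ (2 * A + 1)
        = (N : ℝ) ^ (1 / 2 : ℝ) * (4000 * (L ^ 2 * L ^ (2 * A + 1))) := by ring
      _ ≤ (N : ℝ) ^ (1 / 2 : ℝ) * (N : ℝ) ^ (1 / 2 : ℝ) := by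
          have e4 : 4000 * (L ^ 2 * L ^ (2 * A + 1)) ≤ (N : ℝ) ^ (1 / 2 : ℝ) := by
            calc 4000 * (L ^ 2 * L ^ (2 * A + 1)) ≤ L * (L ^ 2 * L ^ (2 * A + 1)) := by
                  gcongr
                  linarith
              _ = L ^ (2 * A + 4) := by ring
              _ ≤ L ^ (3 * A + 10) := pow_le_pow_right₀ hL1 (by omega)
              _ ≤ (N : ℝ) ^ (1 / 4 : ℝ) := hLp
              _ ≤ (N : ℝ) ^ (1 / 2 : ℝ) :=
                  Real.rpow_le_rpow_of_exponent_le (by exact_mod_cast hN1) (by norm_num)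
          gcongr
      _ = N := by
          rw [← Real.rpow_add hN0]
          norm_num
  have h8 : S * H ≤ Δ / 1000 := by
    calc S * H ≤ (2 * L) * (Δ / L / 5000) := by gcongr
      _ = Δ / 2500 := by
          field_simp
          ring
      _ ≤ Δ / 1000 := by linarith
  have h9 : 84 / 1000 * (S * Δ) ≤ (cnt n y₁ y₂ : ℝ) * Real.log n ^ 2 := by
    have k1 : 89 / 1000 * (S * (Δ - 2 * H)) = 89 / 1000 * (S * Δ) - 178 / 1000 * (S * H) := by ring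
    rw [k1] at h6
    have k2 : (N : ℝ) / L ^ (2 * A + 4) ≤ Δ / 1000 := by
      have : Δ / L / 10000 ≤ Δ / L := div_le_self (by positivity) (by norm_num)
      linarith
    linarith
  have h10 : S * Δ / Real.log n ^ 2 * Real.log n ^ 2 = S * Δ := div_mul_cancel₀ _ (by positivity)
  have h11 : 0 < Real.log n ^ 2 := by positivity
  have h12' : 1 / 12 * (S * Δ / Real.log n ^ 2) * Real.log n ^ 2 ≤ (cnt n y₁ y₂ : ℝ) * Real.log n ^ 2 := by
    rw [mul_assoc, h10]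
    linarith
  exact le_of_mul_le_mul_right h12' h11


/-- the square of the error term at `y` -/
noncomputable def Eq4 (N z r n y : ℕ) : ℝ := ‖cv LA (fm N z r) y N n‖ ^ 2

theorem ff_main (hws : WsStm) (hwd : WdStm) (hgl : GmLeStm) (hErr : Err4Stm) (ρ : ℝ) (hρ : 0 < ρ) (A T : ℕ) :
    ∃ N₀ : ℕ, ∀ N : ℕ, N₀ ≤ N → ∀ q : ℕ, 1 ≤ q → (q : ℝ) ≤ (N : ℝ) ^ (5 / 6 - ρ) → ∀ a : ℕ,
      (Nat.gcd a q : ℝ) ≤ Real.log N ^ T →
        ((badc (WinM A) N q a).card : ℝ) ≤ (N : ℝ) / (q * Real.log N ^ A) := by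
  classical
  obtain ⟨V, hV⟩ : ∃ V, V = 2 * A + 4 := ⟨_, rfl⟩
  obtain ⟨B, hB⟩ := hErr (A + 3 * V + 8) T (V + 6) ρ hρ
  obtain ⟨E1, hE1⟩ : ∃ E1, E1 = max B (V + 8) := ⟨_, rfl⟩
  obtain ⟨N₁, h1⟩ := hB (E1 + 1)
  obtain ⟨N₂, h2⟩ := grid_lower4 hws hwd hgl V E1 (by rw [hE1]; exact le_max_right _ _)
  obtain ⟨N₃, h3⟩ := windows_of_grid4 A
  obtain ⟨N₄, h4⟩ := Filter.eventually_atTop.1 (ev_log (V + A + 4) (s := 1 / 6) (by norm_num) 100)
  refine ⟨N₁ + N₂ + N₃ + N₄ + 3, fun N hN q hq1 hqN a ha => ?_⟩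
  have : NeZero q := ⟨by omega⟩
  have hN1 : 1 ≤ N := by omega
  have hN0 : (0 : ℝ) < N := by exact_mod_cast hN1
  have hN1r : (1 : ℝ) ≤ N := by exact_mod_cast hN1
  obtain ⟨hL100, hLp⟩ := h4 N (by omega)
  have c1 := h1 N (by omega)
  have c2 := h2 N (by omega)
  have c3 := h3 N (by omega)
  obtain ⟨L, hLd⟩ : ∃ L, L = Real.log (N : ℝ) := ⟨_, rfl⟩
  rw [← hLd] at c1 c2 c3 hL100 hLp ha ⊢
  have hL0 : 0 < L := by linarith
  have hL1 : 1 ≤ L := by linarith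
  have hq0 : (0 : ℝ) < q := by exact_mod_cast hq1
  -- the parameter `z`
  obtain ⟨z, hz⟩ : ∃ z, z = ⌈L ^ E1⌉₊ := ⟨_, rfl⟩
  have hzlo : L ^ E1 ≤ z := by rw [hz]; exact Nat.le_ceil _
  have hL1B : 1 ≤ L ^ E1 := one_le_pow₀ hL1
  have hzhi : (z : ℝ) ≤ L ^ (E1 + 1) := by
    have := Nat.ceil_lt_add_one (show 0 ≤ L ^ E1 by positivity)
    rw [← hz] at this
    calc (z : ℝ) ≤ L ^ E1 + 1 := this.le
      _ ≤ L ^ E1 + L ^ E1 := by linarith
      _ = 2 * L ^ E1 := by ring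
      _ ≤ L * L ^ E1 := mul_le_mul_of_nonneg_right (by linarith) (by positivity)
      _ = L ^ (E1 + 1) := by ring
  have hzB : L ^ B ≤ z := (pow_le_pow_right₀ hL1 (by rw [hE1]; exact le_max_left _ _)).trans hzlo
  obtain ⟨r, hPar, hsum, hms⟩ := c1 z hzB hzhi
  have c2' := c2 z r hzlo hzhi hsum
  -- the grid
  obtain ⟨Tg, hTg⟩ : ∃ Tg, Tg = ⌈L ^ V⌉₊ := ⟨_, rfl⟩
  have hT1 : L ^ V ≤ Tg := by rw [hTg]; exact Nat.le_ceil _
  have hLV : 1 ≤ L ^ V := one_le_pow₀ hL1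
  have hT2 : (Tg : ℝ) ≤ L ^ V + 1 := by
    rw [hTg]
    exact (Nat.ceil_lt_add_one (by positivity)).le
  have hTpos : 0 < Tg := by
    have : (0 : ℝ) < Tg := by linarith
    exact_mod_cast this
  obtain ⟨H, hH⟩ : ∃ H, H = N / Tg + 1 := ⟨_, rfl⟩
  have hH1 : 1 ≤ H := by rw [hH]; exact Nat.le_add_left 1 _
  have hpow1 : (N : ℝ) ^ (1 / 6 : ℝ) ≤ N := by
    calc (N : ℝ) ^ (1 / 6 : ℝ) ≤ (N : ℝ) ^ (1 : ℝ) := Real.rpow_le_rpow_of_exponent_le hN1r (by norm_num)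
      _ = N := Real.rpow_one _
  have hHr : (H : ℝ) ≤ 2 * (N / L ^ V) := by
    rw [hH]
    push_cast
    have e1 : ((N / Tg : ℕ) : ℝ) ≤ N / L ^ V := by
      calc ((N / Tg : ℕ) : ℝ) ≤ (N : ℝ) / Tg := Nat.cast_div_le
        _ ≤ N / L ^ V := div_le_div_of_nonneg_left hN0.le (by positivity) hT1
    have e2 : 1 ≤ (N : ℝ) / L ^ V := by
      rw [le_div_iff₀ (by positivity), one_mul]
      exact (pow_le_pow_right₀ hL1 (by omega)).trans (hLp.trans hpow1)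
    linarith
  have hjT : ∀ j : ℕ, j * H ≤ N → j < Tg + 1 := by
    intro j hj
    by_contra hcon
    have e1 : (Tg + 1) * H ≤ j * H := Nat.mul_le_mul_right _ (by omega)
    have e2 : N < Tg * H := by
      rw [hH]
      have := Nat.lt_mul_div_succ N hTpos
      exact this
    have e3 : Tg * H ≤ (Tg + 1) * H := Nat.mul_le_mul_right _ (by omega)
    omega
  have hgcd : ((Nat.gcd (ZMod.val (a : ZMod q)) q : ℕ) : ℝ) ≤ L ^ T := by
    rw [ZMod.val_natCast, ← Nat.gcd_rec, Nat.gcd_comm]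
    exact ha
  -- the size of q
  have hqs : (q : ℝ) * L ^ (A + 1) ≤ N := by
    have e1 : (q : ℝ) ≤ (N : ℝ) ^ (5 / 6 : ℝ) :=
      hqN.trans (Real.rpow_le_rpow_of_exponent_le hN1r (by linarith))
    have e2 : L ^ (A + 1) ≤ (N : ℝ) ^ (1 / 6 : ℝ) := (pow_le_pow_right₀ hL1 (by omega)).trans hLp
    calc (q : ℝ) * L ^ (A + 1) ≤ (N : ℝ) ^ (5 / 6 : ℝ) * (N : ℝ) ^ (1 / 6 : ℝ) := by gcongr
      _ = N := by rw [← Real.rpow_add hN0]; norm_num
  obtain ⟨Bd, hBd⟩ : ∃ Bd, Bd = badc (WinM A) N q a := ⟨_, rfl⟩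
  rw [← hBd]
  have hmem : ∀ n ∈ Bd, 1 ≤ n ∧ n ≤ N ∧ 2 ∣ n ∧ n % q = a % q ∧ ¬ WinM A n := by
    intro n hn
    rw [hBd] at hn
    unfold badc at hn
    rw [mem_filter, mem_Icc] at hn
    exact ⟨hn.1.1, hn.1.2, hn.2.1, hn.2.2.1, hn.2.2.2⟩
  obtain ⟨B1s, hB1s⟩ : ∃ B1s, B1s = Bd.filter (fun n : ℕ => (n : ℝ) < N / L ^ (A + 1)) := ⟨_, rfl⟩
  obtain ⟨B2s, hB2s⟩ : ∃ B2s, B2s = Bd.filter (fun n : ℕ => ¬ (n : ℝ) < N / L ^ (A + 1)) := ⟨_, rfl⟩
  have hcard : B1s.card + B2s.card = Bd.card := by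
    rw [hB1s, hB2s]; exact card_filter_add_card_filter_not _
  have hone : (1 : ℝ) ≤ N / (q * L ^ (A + 1)) := by rw [_root_.one_le_div (by positivity)]; exact hqs
  have hB1c : (B1s.card : ℝ) ≤ 2 * (N / (q * L ^ (A + 1))) := by
    have h3 := class_le N q a hq1 B1s (N / L ^ (A + 1)) (by positivity) (by
      intro n hn
      rw [hB1s, mem_filter] at hn
      obtain ⟨a1, a2, a3, a4, a5⟩ := hmem n hn.1
      exact ⟨a4, hn.2.le⟩)
    have e1 : (N : ℝ) / L ^ (A + 1) / q = N / (q * L ^ (A + 1)) := by rw [div_div, mul_comm]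
    rw [e1] at h3
    linarith
  -- the second part
  obtain ⟨J, hJ⟩ : ∃ J, J = (range (Tg + 1)).filter (fun j => j * H ≤ N) := ⟨_, rfl⟩
  have hterm : ∀ n ∈ B2s, ((N : ℝ) / L ^ (V + 2)) ^ 2 ≤ ∑ j ∈ J, Eq4 N z r n (j * H) := by
    intro n hn
    rw [hB2s, mem_filter, not_lt] at hn
    obtain ⟨a1, a2, a3, a4, a5⟩ := hmem n hn.1
    by_contra hcon
    rw [not_le] at hcon
    have hsm : ∀ j : ℕ, j * H < n → SmallE4 N z r n (j * H) (V + 2) := by
      intro j hj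
      by_contra hns
      have k1 : ((N : ℝ) / L ^ (V + 2)) ^ 2 ≤ Eq4 N z r n (j * H) := by
        unfold SmallE4 at hns
        rw [not_le, ← hLd] at hns
        unfold Eq4
        exact pow_le_pow_left₀ (by positivity) hns.le 2
      have k2 : Eq4 N z r n (j * H) ≤ ∑ j ∈ J, Eq4 N z r n (j * H) := by
        refine single_le_sum (f := fun j => Eq4 N z r n (j * H)) (fun _ _ => sq_nonneg _) ?_
        rw [hJ, mem_filter, mem_range]
        exact ⟨hjT j (by omega), by omega⟩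
      linarith
    have hS2 := (c2' n a2 a3 (by omega) 0 0 le_rfl (by omega) (by
      have := hsm 0 (by omega)
      rwa [zero_mul] at this) (by
      have := hsm 0 (by omega)
      rwa [zero_mul] at this)).2
    apply a5
    rw [hV] at hHr
    refine c3 H hH1 hHr n a2 hn.2 hS2 ?_
    intro i j hij hj
    have hle : i * H ≤ j * H := Nat.mul_le_mul_right _ hij
    have := (c2' n a2 a3 (by omega) (i * H) (j * H) hle hj (hsm i (by omega)) (hsm j hj)).1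
    rw [hV] at this
    exact this
  have hcls : ∀ n ∈ B2s, n ∈ (Icc 1 (2 * N)).filter (fun n : ℕ => (n : ZMod q) = (a : ZMod q)) := by
    intro n hn
    rw [hB2s, mem_filter] at hn
    obtain ⟨a1, a2, a3, a4, a5⟩ := hmem n hn.1
    rw [mem_filter, mem_Icc]
    exact ⟨⟨a1, by omega⟩, (ZMod.natCast_eq_natCast_iff' n a q).2 a4⟩
  obtain ⟨R, hR⟩ : ∃ R : ℝ, R = (N : ℝ) ^ 3 / (q * L ^ (A + 3 * V + 8)) := ⟨_, rfl⟩
  have hR0 : 0 < R := by rw [hR]; positivity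
  have hEsum : ∀ j ∈ J, ∑ n ∈ (Icc 1 (2 * N)).filter (fun n : ℕ => (n : ZMod q) = (a : ZMod q)),
      Eq4 N z r n (j * H) ≤ 4 * R := by
    intro j hj
    rw [hJ, mem_filter] at hj
    unfold Eq4
    have k1 := hms q hqN (a : ZMod q) hgcd (j * H) N hj.2 le_rfl
    rw [← hR] at k1
    linarith
  have hJc : (J.card : ℝ) ≤ 3 * L ^ V := by
    have e1 : J.card ≤ Tg + 1 := by
      rw [hJ]
      exact (card_filter_le _ _).trans (card_range _).le
    have e2 : (J.card : ℝ) ≤ Tg + 1 := by exact_mod_cast e1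
    linarith
  have hsum2 : (B2s.card : ℝ) * (N / L ^ (V + 2)) ^ 2 ≤ 12 * L ^ V * R := by
    calc (B2s.card : ℝ) * (N / L ^ (V + 2)) ^ 2 = ∑ _n ∈ B2s, ((N : ℝ) / L ^ (V + 2)) ^ 2 := by
          rw [sum_const, nsmul_eq_mul]
      _ ≤ ∑ n ∈ B2s, ∑ j ∈ J, Eq4 N z r n (j * H) := sum_le_sum hterm
      _ ≤ ∑ n ∈ (Icc 1 (2 * N)).filter (fun n : ℕ => (n : ZMod q) = (a : ZMod q)),
          ∑ j ∈ J, Eq4 N z r n (j * H) :=
          sum_le_sum_of_subset_of_nonneg hcls fun n _ _ => sum_nonneg fun j _ => sq_nonneg _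
      _ = ∑ j ∈ J, ∑ n ∈ (Icc 1 (2 * N)).filter (fun n : ℕ => (n : ZMod q) = (a : ZMod q)),
          Eq4 N z r n (j * H) := sum_comm
      _ ≤ ∑ j ∈ J, 4 * R := sum_le_sum hEsum
      _ = (J.card : ℝ) * (4 * R) := by rw [sum_const, nsmul_eq_mul]
      _ ≤ (3 * L ^ V) * (4 * R) := by gcongr
      _ = _ := by ring
  have hB2c : (B2s.card : ℝ) ≤ N / (q * L ^ (A + 2)) := by
    have h4 : 12 * L ^ V * R ≤ (N / (q * L ^ (A + 2))) * (N / L ^ (V + 2)) ^ 2 := by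
      have e1 : (N / (q * L ^ (A + 2))) * (N / L ^ (V + 2)) ^ 2 =
          (N : ℝ) ^ 3 / (q * L ^ (A + 3 * V + 8)) * (L ^ V * L ^ 2) := by
        have e2 : L ^ (A + 3 * V + 8) = L ^ A * (L ^ V) ^ 3 * L ^ 8 := by
          rw [← pow_mul, ← pow_add, ← pow_add]
          congr 1
          ring
        rw [e2, pow_add, pow_add]
        have e0 : L ^ V ≠ 0 := by positivity
        have e3 : L ^ A ≠ 0 := by positivity
        generalize L ^ V = X at e0 ⊢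
        generalize L ^ A = Y at e3 ⊢
        field_simp
      rw [e1, ← hR]
      have e4 : (12 : ℝ) ≤ L ^ 2 := by nlinarith
      calc 12 * L ^ V * R = R * (L ^ V * 12) := by ring
        _ ≤ R * (L ^ V * L ^ 2) := by gcongr
    exact le_of_mul_le_mul_right (hsum2.trans h4) (by positivity)
  have h3 : (B1s.card : ℝ) + B2s.card = Bd.card := by exact_mod_cast hcard
  have h4 : (N : ℝ) / (q * L ^ (A + 1)) = N / (q * L ^ A) / L := by
    rw [pow_succ, ← mul_assoc, ← div_div]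
  have h5 : (N : ℝ) / (q * L ^ (A + 2)) = N / (q * L ^ A) / L / L := by
    rw [pow_succ, pow_succ, ← mul_assoc, ← mul_assoc, ← div_div, ← div_div]
  have h6 : 0 ≤ (N : ℝ) / (q * L ^ A) := by positivity
  have h7 : (N : ℝ) / (q * L ^ A) / L ≤ N / (q * L ^ A) / 100 := div_le_div_of_nonneg_left h6 (by norm_num) hL100
  have h8 : (N : ℝ) / (q * L ^ A) / L / L ≤ N / (q * L ^ A) / L := div_le_self (by positivity) hL1
  rw [h4] at hB1c
  rw [h5] at hB2c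
  linarith

end Pool.Agent.Helper34.GX
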