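import Pool.Graph.R_seed8.R453.GS.Wt0
import Pool.Agent.Helper34.GX.Stm

set_option autoImplicit false

/-! The cofactors: large `N`, at most four prime factors, the sum of the reciprocals. -/

namespace Pool.Agent.Helper34.GX

open Finset Filter Topology
open Pool.Agent.R453.GS (ev_log log_floor sum_pow tv log_num)

lemma Big.Z6 {N : ℕ} (h : Big N) : N < (ZZ N + 1) ^ 6 := ZZ_sixth (by have := h.two; omega)

lemma Big.one {N : ℕ} (h : Big N) : 1 ≤ N := by have := h.two; omega

lemma big : ∀ᶠ N : ℕ in atTop, Big N := by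
  filter_upwards [ev_log 50, eventually_ge_atTop 2] with N hL hN
  obtain ⟨a1, a2, a3⟩ := log_floor (γ := 1 / 6) (by norm_num) hN
  have hL0 : 0 < Real.log N := by linarith
  have hZl : (1 / 7 : ℝ) * Real.log N ≤ Real.log (ZZ N) := by
    unfold ZZ
    linarith
  refine ⟨hN, ?_, hL0, hZl⟩
  by_contra hcon
  have h1 : ZZ N = 1 := by unfold ZZ at *; omega
  rw [h1, Nat.cast_one, Real.log_one] at hZl
  linarith

/-- the ratio -/
lemma ratio {N n m : ℕ} (hm : m ∈ mm N n) : 1 ≤ m ∧ 1 ≤ n ∧ ((ZZ N : ℕ) : ℝ) < (n : ℝ) / m := by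
  rw [mem_mm] at hm
  obtain ⟨⟨h1, h2⟩, _, h3⟩ := hm
  refine ⟨h1, by omega, ?_⟩
  have h4 : m * ZZ N < n := lt_of_le_of_lt (Nat.mul_le_mul_left _ (le_max_right _ _)) h3
  have h5 : (0 : ℝ) < m := by exact_mod_cast h1
  rw [lt_div_iff₀ h5]
  have h6 : ((m * ZZ N : ℕ) : ℝ) < n := by exact_mod_cast h4
  push_cast at h6
  linarith

lemma le_MM {N m p : ℕ} (h : p ∈ m.primeFactors) : p ≤ MM N m :=
  (Finset.le_sup (f := id) h).trans (le_max_left _ _)

lemma ZZ_le_MM (N m : ℕ) : ZZ N ≤ MM N m := le_max_right _ _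

lemma mm_mono {N n n' : ℕ} (h : n ≤ n') : mm N n ⊆ mm N n' := by
  intro m hm
  rw [mem_mm] at hm ⊢
  exact ⟨⟨hm.1.1, hm.1.2.trans h⟩, hm.2.1, lt_of_lt_of_le hm.2.2 h⟩

/-- products of the members of a list -/
lemma list_pow {Z : ℕ} (l : List ℕ) (h : ∀ p ∈ l, Z < p) : (Z + 1) ^ l.length ≤ l.prod := by
  induction l with
  | nil => simp
  | cons a l ih =>
    rw [List.length_cons, List.prod_cons, pow_succ, mul_comm]
    exact Nat.mul_le_mul (h a (by simp)) (ih (fun p hp => h p (by simp [hp])))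

/-- at most four prime factors -/
lemma shape {N n m : ℕ} (hB : Big N) (hn : n ≤ N) (hm : m ∈ mm N n) :
    m = 1 ∨ (∃ p : ℕ, m = p ∧ p.Prime ∧ ZZ N < p ∧ p * p < n) ∨
      (∃ p q : ℕ, m = p * q ∧ p.Prime ∧ q.Prime ∧ ZZ N < p ∧ ZZ N < q ∧ p ≤ q ∧ p * q * q < n) ∨
      (∃ p q r : ℕ, m = p * q * r ∧ p.Prime ∧ q.Prime ∧ r.Prime ∧ ZZ N < p ∧ ZZ N < q ∧ ZZ N < r ∧
        p ≤ q ∧ q ≤ r ∧ p * q * r * r < n) ∨
      (∃ p q r s : ℕ, m = p * q * r * s ∧ p.Prime ∧ q.Prime ∧ r.Prime ∧ s.Prime ∧ ZZ N < p ∧ ZZ N < q ∧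
        ZZ N < r ∧ ZZ N < s ∧ p ≤ q ∧ q ≤ r ∧ r ≤ s ∧ p * q * r * s * s < n) := by
  rw [mem_mm] at hm
  obtain ⟨⟨h1, h2⟩, h3, h4⟩ := hm
  have hm0 : m ≠ 0 := by omega
  have hsup : ∀ p ∈ m.primeFactors, m * p < n := by
    intro p hp
    exact lt_of_le_of_lt (Nat.mul_le_mul_left _ (le_MM hp)) h4
  obtain ⟨l, hl⟩ : ∃ l, l = m.primeFactorsList := ⟨_, rfl⟩
  have hprod : l.prod = m := by rw [hl]; exact Nat.prod_primeFactorsList hm0
  have hpr : ∀ p ∈ l, p.Prime := fun p hp => Nat.prime_of_mem_primeFactorsList (by rw [← hl]; exact hp)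
  have hmem : ∀ p ∈ l, p ∈ m.primeFactors := fun p hp => by
    rw [Nat.mem_primeFactors_iff_mem_primeFactorsList, ← hl]; exact hp
  have hZ : ∀ p ∈ l, ZZ N < p := fun p hp => h3 p (hmem p hp)
  have hsort : l.Pairwise (· ≤ ·) := by
    rw [hl]
    exact (Nat.primeFactorsList_sorted m).pairwise
  match l, hprod, hpr, hmem, hZ, hsort with
  | [], hprod, _, _, _, _ =>
    left
    simpa using hprod.symm
  | [p], hprod, hpr, hmem, hZ, _ =>
    right; left
    have e : m = p := by simpa using hprod.symm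
    refine ⟨p, e, hpr p (by simp), hZ p (by simp), ?_⟩
    have := hsup p (hmem p (by simp))
    rwa [e] at this
  | [p, q], hprod, hpr, hmem, hZ, hsort =>
    right; right; left
    have e : m = p * q := by simpa using hprod.symm
    refine ⟨p, q, e, hpr p (by simp), hpr q (by simp), hZ p (by simp), hZ q (by simp), ?_, ?_⟩
    · simpa using hsort
    · have := hsup q (hmem q (by simp))
      rwa [e] at this
  | [p, q, r], hprod, hpr, hmem, hZ, hsort =>
    right; right; right; left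
    have e : m = p * q * r := by
      have := hprod.symm
      simp only [List.prod_cons, List.prod_nil, mul_one] at this
      rw [this, mul_assoc]
    refine ⟨p, q, r, e, hpr p (by simp), hpr q (by simp), hpr r (by simp), hZ p (by simp), hZ q (by simp),
      hZ r (by simp), ?_, ?_, ?_⟩
    · simp only [List.pairwise_cons, List.mem_cons, List.not_mem_nil, or_false] at hsort
      exact hsort.1 q (Or.inl rfl)
    · simp only [List.pairwise_cons, List.mem_cons, List.not_mem_nil, or_false] at hsort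
      exact hsort.2.1 r rfl
    · have := hsup r (hmem r (by simp))
      rwa [e] at this
  | [p, q, r, s], hprod, hpr, hmem, hZ, hsort =>
    right; right; right; right
    have e : m = p * q * r * s := by
      have := hprod.symm
      simp only [List.prod_cons, List.prod_nil, mul_one] at this
      rw [this]; ring
    refine ⟨p, q, r, s, e, hpr p (by simp), hpr q (by simp), hpr r (by simp), hpr s (by simp), hZ p (by simp),
      hZ q (by simp), hZ r (by simp), hZ s (by simp), ?_, ?_, ?_, ?_⟩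
    · simp only [List.pairwise_cons, List.mem_cons, List.not_mem_nil, or_false] at hsort
      exact hsort.1 q (Or.inl rfl)
    · simp only [List.pairwise_cons, List.mem_cons, List.not_mem_nil, or_false] at hsort
      exact hsort.2.1 r (Or.inl rfl)
    · simp only [List.pairwise_cons, List.mem_cons, List.not_mem_nil, or_false] at hsort
      exact hsort.2.2.1 s rfl
    · have := hsup s (hmem s (by simp))
      rwa [e] at this
  | p :: q :: r :: s :: t :: l', hprod, hpr, hmem, hZ, _ =>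
    exfalso
    have h5 := list_pow _ hZ
    rw [hprod] at h5
    have h6 : (ZZ N + 1) ^ 5 ≤ m := by
      refine le_trans (Nat.pow_le_pow_right (by omega) ?_) h5
      simp only [List.length_cons]
      omega
    have h7 := hsup p (hmem p (by simp))
    have h8 : (ZZ N + 1) ^ 6 ≤ m * p := by
      rw [pow_succ]
      exact Nat.mul_le_mul h6 (hZ p (by simp))
    have := hB.Z6
    omega

/-- at most four different prime factors -/
lemma card_four {N n m : ℕ} (hB : Big N) (hn : n ≤ N) (hm : m ∈ mm N n) : m.primeFactors.card ≤ 4 := by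
  have key : ∀ (l : List ℕ), l.prod = m → (∀ p ∈ l, p.Prime) → l.length ≤ 4 → m.primeFactors.card ≤ 4 := by
    intro l h1 h2 h3
    refine le_trans ?_ h3
    have h4 : m.primeFactors ⊆ l.toFinset := by
      intro p hp
      rw [Nat.mem_primeFactors] at hp
      rw [List.mem_toFinset]
      have h5 := hp.2.1
      rw [← h1, Prime.dvd_prod_iff hp.1.prime] at h5
      obtain ⟨a, ha, hpa⟩ := h5
      rwa [(Nat.prime_dvd_prime_iff_eq hp.1 (h2 a ha)).1 hpa]
    exact (card_le_card h4).trans (List.toFinset_card_le _)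
  rcases shape hB hn hm with h | ⟨p, h, h1, -⟩ | ⟨p, q, h, h1, h2, -⟩ | ⟨p, q, r, h, h1, h2, h3, -⟩ |
    ⟨p, q, r, s, h, h1, h2, h3, h4, -⟩
  · exact key [] (by simp [h]) (by simp) (by simp)
  · exact key [p] (by simp [h]) (by simp [h1]) (by simp)
  · exact key [p, q] (by simp [h]) (by simp [h1, h2]) (by simp)
  · exact key [p, q, r] (by simp [h, mul_assoc]) (by simp [h1, h2, h3]) (by simp)
  · exact key [p, q, r, s] (by simp [h, mul_assoc]) (by simp [h1, h2, h3, h4]) (by simp)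

lemma SP_nonneg (a b : ℝ) (N : ℕ) : 0 ≤ SP a b N := sum_nonneg fun _ _ => by positivity

/-- comparison of sums -/
lemma sum_cover {ι : Type*} [DecidableEq ι] (s : Finset ℕ) (T : Finset ι) (φ : ι → ℕ) (F : ℕ → ℝ) (G : ι → ℝ)
    (hG : ∀ t ∈ T, 0 ≤ G t) (hc : ∀ m ∈ s, ∃ t ∈ T, φ t = m ∧ F m ≤ G t) :
    ∑ m ∈ s, F m ≤ ∑ t ∈ T, G t := by
  rcases s.eq_empty_or_nonempty with hs | ⟨m₀, hm₀⟩
  · rw [hs, sum_empty]
    exact sum_nonneg hG
  obtain ⟨t₀, -, -⟩ := hc m₀ hm₀
  have : Nonempty ι := ⟨t₀⟩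
  choose! f hf using hc
  have h1 : Set.InjOn f s := by
    intro a ha b hb hab
    rw [← (hf a ha).2.1, ← (hf b hb).2.1, hab]
  calc ∑ m ∈ s, F m ≤ ∑ m ∈ s, G (f m) := sum_le_sum fun m hm => (hf m hm).2.2
    _ = ∑ t ∈ s.image f, G t := (sum_image h1).symm
    _ ≤ ∑ t ∈ T, G t := by
        apply sum_le_sum_of_subset_of_nonneg
        · intro t ht
          rw [mem_image] at ht
          obtain ⟨m, hm, rfl⟩ := ht
          exact (hf m hm).1
        · intro t ht _
          exact hG t ht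

lemma sum_inv_le {N n : ℕ} (hB : Big N) (hn : n ≤ N) :
    ∑ m ∈ mm N n, (1 : ℝ) / m ≤ (1 + SP (1 / 6) 1 N) ^ 4 := by
  classical
  have hN1 : ⌊(N : ℝ) ^ (1 : ℝ)⌋₊ = N := by rw [Real.rpow_one, Nat.floor_natCast]
  obtain ⟨Q, hQ⟩ : ∃ Q, Q = insert 1 (PP (1 / 6) 1 N) := ⟨_, rfl⟩
  have hmem : ∀ p : ℕ, p.Prime → ZZ N < p → p ≤ N → p ∈ Q := by
    intro p hp h1 h2
    rw [hQ]
    apply mem_insert_of_mem
    unfold PP
    rw [mem_filter, mem_Ioc, hN1]
    exact ⟨⟨h1, h2⟩, hp⟩
  have h1Q : 1 ∈ Q := by rw [hQ]; exact mem_insert_self _ _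
  have h1 := sum_cover (mm N n) (Q ×ˢ (Q ×ˢ (Q ×ˢ Q))) (fun t => t.1 * t.2.1 * t.2.2.1 * t.2.2.2)
    (fun m => (1 : ℝ) / m)
    (fun t => (1 : ℝ) / t.1 * (1 / t.2.1 * (1 / t.2.2.1 * (1 / t.2.2.2)))) (fun t _ => by positivity)
    (fun m hm => by
      have hmn : m ≤ N := (mem_mm.1 hm).1.2.trans hn
      have hm0 : 0 < m := (mem_mm.1 hm).1.1
      have hdv : ∀ p : ℕ, p.Prime → ZZ N < p → p ∣ m → p ∈ Q := fun p h1 h2 h3 =>
        hmem p h1 h2 ((Nat.le_of_dvd hm0 h3).trans hmn)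
      rcases shape hB hn hm with h | ⟨p, h1, h2, h3, -⟩ | ⟨p, q, h1, h2, h3, h4, h5, -, -⟩ |
        ⟨p, q, r, h1, h2, h3, h4, h5, h6, h7, -, -, -⟩ |
        ⟨p, q, r, s, h1, h2, h3, h4, h5, h6, h7, h8, h9, -, -, -, -⟩
      · refine ⟨(1, 1, 1, 1), ?_, ?_, ?_⟩
        · simp only [mem_product]
          exact ⟨h1Q, h1Q, h1Q, h1Q⟩
        · simp [h]
        · simp [h]
      · refine ⟨(p, 1, 1, 1), ?_, ?_, ?_⟩
        · simp only [mem_product]
          exact ⟨hdv p h2 h3 (by rw [h1]), h1Q, h1Q, h1Q⟩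
        · simp [h1]
        · simp [h1]
      · refine ⟨(p, q, 1, 1), ?_, ?_, ?_⟩
        · simp only [mem_product]
          exact ⟨hdv p h2 h4 (by rw [h1]; exact Dvd.intro _ rfl), hdv q h3 h5 (by rw [h1]; exact Dvd.intro_left _ rfl),
            h1Q, h1Q⟩
        · simp [h1]
        · rw [h1]
          push_cast
          simp only [div_one, mul_one]
          rw [one_div_mul_one_div]
      · refine ⟨(p, q, r, 1), ?_, ?_, ?_⟩
        · simp only [mem_product]
          exact ⟨hdv p h2 h5 ⟨q * r, by rw [h1]; ring⟩, hdv q h3 h6 ⟨p * r, by rw [h1]; ring⟩,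
            hdv r h4 h7 ⟨p * q, by rw [h1]; ring⟩, h1Q⟩
        · simp [h1]
        · rw [h1]
          push_cast
          simp only [div_one, mul_one]
          rw [one_div_mul_one_div, one_div_mul_one_div, mul_assoc]
      · refine ⟨(p, q, r, s), ?_, ?_, ?_⟩
        · simp only [mem_product]
          exact ⟨hdv p h2 h6 ⟨q * r * s, by rw [h1]; ring⟩, hdv q h3 h7 ⟨p * r * s, by rw [h1]; ring⟩,
            hdv r h4 h8 ⟨p * q * s, by rw [h1]; ring⟩, hdv s h5 h9 ⟨p * q * r, by rw [h1]; ring⟩⟩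
        · simp [h1]
        · rw [h1]
          push_cast
          rw [one_div_mul_one_div, one_div_mul_one_div, one_div_mul_one_div]
          apply le_of_eq
          congr 1
          ring)
  refine h1.trans (le_of_eq ?_)
  have h2 : ∑ i ∈ Q, (1 : ℝ) / i = 1 + SP (1 / 6) 1 N := by
    rw [hQ, sum_insert]
    · unfold SP
      simp
    · intro h
      unfold PP at h
      rw [mem_filter] at h
      exact Nat.not_prime_one h.2
  rw [← h2, sum_product]
  simp only
  simp_rw [← mul_sum]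
  rw [← sum_mul, sum_product]
  simp only
  simp_rw [← mul_sum]
  rw [← sum_mul, sum_product]
  simp only
  simp_rw [← mul_sum]
  rw [← sum_mul]
  ring

lemma log6 : Real.log (1 / (1 / 6)) ≤ 2 := log_num (by norm_num) (by norm_num) (by norm_num)

theorem big_all : BigStm := by
  have hev := (big.and (sum_pow (α := 1 / 6) (β := 1) (by norm_num) (by norm_num) (ε := 1) one_pos))
  obtain ⟨N₀, hN₀⟩ := eventually_atTop.1 hev
  refine ⟨N₀, fun N hN => ?_⟩
  obtain ⟨hB, hS⟩ := hN₀ N hN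
  have hS' : SP (1 / 6) 1 N ≤ 3 := by
    have h1 := log6
    unfold SP PP
    linarith
  have hS0 := SP_nonneg (1 / 6) 1 N
  have hsq : (1 + SP (1 / 6) 1 N) ^ 4 ≤ 256 := by
    calc (1 + SP (1 / 6) 1 N) ^ 4 ≤ 4 ^ 4 := pow_le_pow_left₀ (by linarith) (by linarith) 4
      _ = 256 := by norm_num
  exact ⟨hB, fun n hn => (sum_inv_le hB hn).trans hsq, hS'⟩

/-- the pairs of different prime factors -/
lemma prs_card (n : ℕ) : 2 * (prs n).card ≤ n.primeFactors.card * n.primeFactors.card - n.primeFactors.card := by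
  classical
  rw [← offDiag_card]
  have h1 : Disjoint (prs n) ((prs n).image Prod.swap) := by
    rw [disjoint_left]
    intro t ht ht'
    rw [mem_image] at ht'
    obtain ⟨u, hu, rfl⟩ := ht'
    unfold prs at ht hu
    rw [mem_filter] at ht hu
    have h2 := ht.2
    have h3 := hu.2
    simp only [Prod.fst_swap, Prod.snd_swap] at h2
    omega
  have h2 : ((prs n).image Prod.swap).card = (prs n).card := card_image_of_injective _ Prod.swap_injective
  have h3 : (prs n ∪ (prs n).image Prod.swap).card = 2 * (prs n).card := by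
    rw [card_union_of_disjoint h1, h2]
    ring
  rw [← h3]
  apply card_le_card
  intro t ht
  rw [mem_union, mem_image] at ht
  rw [mem_offDiag]
  unfold prs at ht
  rcases ht with ht | ⟨u, hu, rfl⟩
  · rw [mem_filter, mem_product] at ht
    exact ⟨ht.1.1, ht.1.2, by have := ht.2; omega⟩
  · rw [mem_filter, mem_product] at hu
    refine ⟨hu.1.2, hu.1.1, ?_⟩
    have := hu.2
    simp only [Prod.fst_swap, Prod.snd_swap]
    omega

lemma prs_six {N n m : ℕ} (hB : Big N) (hn : n ≤ N) (hm : m ∈ mm N n) : (prs m).card ≤ 6 := by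
  have h1 := prs_card m
  have h2 := card_four hB hn hm
  have h3 : m.primeFactors.card * m.primeFactors.card - m.primeFactors.card ≤ 12 := by
    interval_cases m.primeFactors.card <;> omega
  omega

lemma pr_abs {N n m : ℕ} (hB : Big N) (hn : n ≤ N) (hm : m ∈ mm N n) : |pr N m| ≤ 12 := by
  have h1 : (((prs m).card : ℕ) : ℝ) ≤ 6 := by exact_mod_cast prs_six hB hn hm
  unfold pr
  calc |∑ t ∈ prs m, vv N (t.1 * t.2)| ≤ ∑ t ∈ prs m, |vv N (t.1 * t.2)| := abs_sum_le_sum_abs _ _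
    _ ≤ ∑ _t ∈ prs m, (2 : ℝ) := sum_le_sum fun t _ => vv_abs hB.one _
    _ = (prs m).card * 2 := by rw [sum_const, nsmul_eq_mul]
    _ ≤ 12 := by linarith

lemma om_four {N n m : ℕ} (hB : Big N) (hn : n ≤ N) (hm : m ∈ mm N n) : (om N m : ℝ) ≤ 4 := by
  have h1 : om N m ≤ 4 := by
    unfold om
    exact (card_filter_le _ _).trans (card_four hB hn hm)
  exact_mod_cast h1

lemma kp_abs {N n m : ℕ} (hB : Big N) (hn : n ≤ N) (hm : m ∈ mm N n) : |kp N n m| ≤ 8 := by
  have h1 : ((m.primeFactors.card : ℕ) : ℝ) ≤ 4 := by exact_mod_cast card_four hB hn hm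
  have h2 := Nat.mul_le_mul_left m (T0_le_sqrt hB.one)
  have h3 := Nat.mul_le_mul_left m (sqrt_le_T2 hB.one)
  unfold kp
  refine (abs_sum_le_sum_abs _ _).trans ?_
  calc _ ≤ ∑ _p ∈ m.primeFactors, (2 : ℝ) := sum_le_sum fun p _ => by
        rw [abs_le]
        split_ifs with a b c <;> first | omega | (constructor <;> norm_num)
    _ = m.primeFactors.card * 2 := by rw [sum_const, nsmul_eq_mul]
    _ ≤ 8 := by linarith

lemma kap_abs {N n m : ℕ} (hB : Big N) (hn : n ≤ N) (hm : m ∈ mm N n) : |kap N n m| ≤ 24 := by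
  have h1 := om_four hB hn hm
  have h2 := abs_le.1 (pr_abs hB hn hm)
  have h3 := abs_le.1 (kp_abs hB hn hm)
  have h4 : (0 : ℝ) ≤ om N m := Nat.cast_nonneg _
  unfold kap
  rw [abs_le]
  split_ifs <;> constructor <;> linarith [h2.1, h2.2, h3.1, h3.2]

lemma term_bd {N n m : ℕ} (hB : Big N) (hm : m ∈ mm N n) :
    0 ≤ Real.log N * gg n m ∧ Real.log N * gg n m ≤ 7 / m := by
  obtain ⟨h1, h2, h3⟩ := ratio hm
  have hZ : (2 : ℝ) ≤ ZZ N := by exact_mod_cast hB.Z2
  have hL := hB.L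
  have hm0 : (0 : ℝ) < m := by exact_mod_cast h1
  have h4 : Real.log N / 7 ≤ Real.log ((n : ℝ) / m) := by
    have := Real.log_le_log (by linarith) h3.le
    have := hB.Zl
    linarith
  have h5 : 0 < Real.log ((n : ℝ) / m) := by linarith
  unfold gg
  refine ⟨by positivity, ?_⟩
  rw [mul_one_div, div_le_div_iff₀ (by positivity) hm0]
  nlinarith

end Pool.Agent.Helper34.GX
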