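import Pool.Graph.R_seed8.R453.GS.Apg1
import Pool.Agent.Helper34.GX.Wta
import Pool.Graph.R_seed8.R460.GS.Props

set_option autoImplicit false

/-! Properties of the functions in project GX. -/

namespace Pool.Agent.Helper34.GX

open Finset
open Pool.Agent.H373R2.T7 (lamz Vz pz lamz_ap)
open Pool.Agent.Y883.T3 (lsh)
open Pool.Agent.Y883.GJ
open Pool.Agent.R460.GS (BdAt MajAt MinAt ShAt ApAt NcAt one_le_div vm_le lsh_abs card_pf_le sq_sub_sum four_le
  min_mono abelR)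

/-- the weighted sieve model -/
noncomputable def HM (N z r n : ℕ) : ℂ := ((Wm N n * lsh z r n : ℝ) : ℂ)

/-- the difference -/
noncomputable def fm (N z r n : ℕ) : ℂ := GM N n - HM N z r n

lemma WS.tv {W : ℕ → ℝ} {c : ℝ} {N : ℕ} (h : WS W c N) {y : ℕ} (hy : y ≤ N) :
    ∑ n ∈ range y, |W (n + 1) - W n| ≤ c :=
  (sum_le_sum_of_subset_of_nonneg (range_subset_range.2 hy) fun _ _ _ => abs_nonneg _).trans h.h2

lemma WS.refl {W : ℕ → ℝ} {c : ℝ} {N : ℕ} (h : WS W c N) {n y : ℕ} (hn : n ≤ N) (hy : y < n) :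
    ∑ i ∈ range y, |W (n - (i + 1)) - W (n - i)| ≤ c := by
  have e1 : ∀ i ∈ range n, |W (n - (i + 1)) - W (n - i)| = |W (n - 1 - i + 1) - W (n - 1 - i)| := by
    intro i hi
    rw [mem_range] at hi
    rw [abs_sub_comm, show n - 1 - i + 1 = n - i by omega, show n - (i + 1) = n - 1 - i by omega]
  calc ∑ i ∈ range y, |W (n - (i + 1)) - W (n - i)| ≤ ∑ i ∈ range n, |W (n - (i + 1)) - W (n - i)| :=
        sum_le_sum_of_subset_of_nonneg (range_subset_range.2 hy.le) fun _ _ _ => abs_nonneg _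
    _ = ∑ i ∈ range n, |W (n - 1 - i + 1) - W (n - 1 - i)| := sum_congr rfl e1
    _ = ∑ i ∈ range n, |W (i + 1) - W i| := sum_range_reflect (fun i => |W (i + 1) - W i|) n
    _ ≤ c := h.tv hn

/-- at most five prime factors above `Z` -/
lemma card_five {N n : ℕ} (hN : 1 ≤ N) (hn : 1 ≤ n) (hnN : n ≤ N) (h : ∀ p ∈ n.primeFactors, ZZ N < p) :
    n.primeFactors.card ≤ 5 := by
  by_contra hc
  rw [not_le] at hc
  have h1 : ∏ p ∈ n.primeFactors, p ∣ n := Nat.prod_primeFactors_dvd n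
  have h2 : (ZZ N + 1) ^ n.primeFactors.card ≤ ∏ p ∈ n.primeFactors, p := by
    rw [← prod_const]
    exact prod_le_prod' fun p hp => h p hp
  have h3 := (h2.trans (Nat.le_of_dvd hn h1)).trans hnN
  have h4 : (ZZ N + 1) ^ 6 ≤ (ZZ N + 1) ^ n.primeFactors.card := Nat.pow_le_pow_right (by omega) hc
  have h5 := ZZ_sixth hN
  omega

lemma gm_abs {N n : ℕ} (hn : n ∈ Icc 1 N) : |gm N n| ≤ 26 * Real.log N := by
  rw [mem_Icc] at hn
  have hL : 0 ≤ Real.log N := Real.log_natCast_nonneg _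
  have hN : 1 ≤ N := by omega
  unfold gm
  split_ifs with h
  · have h0 := card_five hN hn.1 hn.2 h
    have h1 : om N n ≤ 5 := (card_filter_le _ _).trans h0
    have h2 : (om N n : ℝ) ≤ 5 := by exact_mod_cast h1
    have h3 : (0 : ℝ) ≤ om N n := Nat.cast_nonneg _
    have h4 : (prs n).card ≤ 10 := by
      have e1 := prs_card n
      have e2 : n.primeFactors.card * n.primeFactors.card - n.primeFactors.card ≤ 20 := by
        interval_cases n.primeFactors.card <;> omega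
      omega
    have h5 : (((prs n).card : ℕ) : ℝ) ≤ 10 := by exact_mod_cast h4
    have h6 : |pr N n| ≤ 20 := by
      unfold pr
      calc |∑ t ∈ prs n, vv N (t.1 * t.2)| ≤ ∑ t ∈ prs n, |vv N (t.1 * t.2)| := abs_sum_le_sum_abs _ _
        _ ≤ ∑ _t ∈ prs n, (2 : ℝ) := sum_le_sum fun t _ => vv_abs hN _
        _ = (prs n).card * 2 := by rw [sum_const, nsmul_eq_mul]
        _ ≤ 20 := by linarith
    have h7 := abs_le.1 h6
    rw [abs_mul, abs_of_nonneg hL, mul_comm]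
    apply mul_le_mul_of_nonneg_right _ hL
    rw [abs_le]
    constructor <;> linarith [h7.1, h7.2]
  · rw [abs_zero]
    positivity

lemma gm_ne {N n : ℕ} (h : gm N n ≠ 0) : ∀ p ∈ n.primeFactors, ZZ N < p := by
  by_contra h5
  apply h
  unfold gm
  rw [if_neg h5]

lemma norm_GM (N n : ℕ) : ‖GM N n‖ = |gm N n| := by
  unfold GM
  rw [Complex.norm_real, Real.norm_eq_abs]

lemma norm_HM {N z r n : ℕ} {c : ℝ} (hW : WS (Wm N) c N) (hn : n ∈ Icc 1 N) :
    ‖HM N z r n‖ ≤ c * |lsh z r n| := by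
  unfold HM
  rw [Complex.norm_real, Real.norm_eq_abs, abs_mul]
  exact mul_le_mul_of_nonneg_right (hW.h1 n (mem_Icc.1 hn).2) (abs_nonneg _)

lemma bd_HM' {U N z r : ℕ} {c : ℝ} (hW : WS (Wm N) c N) (hP : Par U N z r) {n : ℕ} (hn : n ∈ Icc 1 N) :
    ‖HM N z r n‖ ≤ 3 * c * Real.log N * (n.divisors.card : ℝ) := by
  refine (norm_HM hW hn).trans ?_
  have := lsh_abs hP hn
  calc c * |lsh z r n| ≤ c * (3 * Real.log N * (n.divisors.card : ℝ)) := mul_le_mul_of_nonneg_left this hW.nn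
    _ = _ := by ring

lemma bd_fm {U N z r : ℕ} {c : ℝ} (hW : WS (Wm N) c N) (hP : Par U N z r) (hL : 26 + 3 * c ≤ Real.log N) :
    BdAt N (fm N z r) := by
  intro n hn
  have h1 := one_le_div hn
  have hc := hW.nn
  unfold fm
  refine (norm_sub_le _ _).trans ?_
  have h2 := bd_HM' hW hP hn
  have h3 := gm_abs hn
  rw [norm_GM]
  have hL0 : 0 ≤ Real.log N := by linarith
  have h4 : Real.log N * 1 ≤ Real.log N * (n.divisors.card : ℝ) := mul_le_mul_of_nonneg_left h1 hL0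
  have h5 : (26 + 3 * c) * Real.log N ≤ Real.log N ^ 2 := by nlinarith
  have h6 := mul_le_mul_of_nonneg_right h5 (by positivity : (0 : ℝ) ≤ (n.divisors.card : ℝ))
  linarith

lemma nc_GM {N U : ℕ} (hN : 1 ≤ N) (hL : 52 ≤ Real.log N)
    (hp : Real.log N ^ (U + 3) ≤ (N : ℝ) ^ (1 / 6 : ℝ)) : NcAt N U (GM N) := by
  classical
  intro q hq hqN
  have hN0 : (0 : ℝ) < N := by exact_mod_cast hN
  have hL0 : 0 < Real.log N := by linarith
  have hZ : (N : ℝ) ^ (1 / 6 : ℝ) < (ZZ N : ℝ) + 1 := Nat.lt_floor_add_one _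
  have hsub : (((Icc 1 N).filter (fun n => ¬ n.Coprime q)).filter (fun n => |gm N n| ≠ 0)) ⊆
      (q.primeFactors.filter (fun p => ZZ N < p)).biUnion (fun p => (Icc 1 N).filter (fun n => p ∣ n)) := by
    intro n hn
    rw [mem_filter, mem_filter] at hn
    obtain ⟨⟨h1, h2⟩, h3⟩ := hn
    obtain ⟨p, hp, hpn, hpq⟩ := Nat.Prime.not_coprime_iff_dvd.1 h2
    have hn0 : n ≠ 0 := by
      rw [mem_Icc] at h1
      omega
    have h4 : ∀ p ∈ n.primeFactors, ZZ N < p := gm_ne (abs_ne_zero.1 h3)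
    rw [mem_biUnion]
    refine ⟨p, ?_, ?_⟩
    · rw [mem_filter, Nat.mem_primeFactors]
      exact ⟨⟨hp, hpq, by omega⟩, h4 p (Nat.mem_primeFactors.2 ⟨hp, hpn, hn0⟩)⟩
    · rw [mem_filter]
      exact ⟨h1, hpn⟩
  have hcard : ((((Icc 1 N).filter (fun n => ¬ n.Coprime q)).filter (fun n => |gm N n| ≠ 0)).card : ℝ) ≤
      2 * Real.log N * (N / (N : ℝ) ^ (1 / 6 : ℝ)) := by
    have h1 := (card_le_card hsub).trans card_biUnion_le
    have h2 : ((((Icc 1 N).filter (fun n => ¬ n.Coprime q)).filter (fun n => |gm N n| ≠ 0)).card : ℝ) ≤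
        ∑ p ∈ q.primeFactors.filter (fun p => ZZ N < p), (((Icc 1 N).filter (fun n => p ∣ n)).card : ℝ) := by
      exact_mod_cast h1
    refine h2.trans ?_
    have h3 : ∀ p ∈ q.primeFactors.filter (fun p => ZZ N < p),
        (((Icc 1 N).filter (fun n => p ∣ n)).card : ℝ) ≤ N / (N : ℝ) ^ (1 / 6 : ℝ) := by
      intro p hp
      rw [mem_filter] at hp
      have h4 : ((Icc 1 N).filter (fun n => p ∣ n)).card = N / p := by
        have e1 : Icc 1 N = Ioc 0 N := by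
          ext b
          simp only [mem_Icc, mem_Ioc]
          omega
        rw [e1]
        exact Nat.Ioc_filter_dvd_card_eq_div N p
      rw [h4]
      have h5 : (N : ℝ) ^ (1 / 6 : ℝ) ≤ p := by
        have : (ZZ N : ℝ) + 1 ≤ p := by exact_mod_cast hp.2
        linarith
      calc ((N / p : ℕ) : ℝ) ≤ (N : ℝ) / p := Nat.cast_div_le
        _ ≤ N / (N : ℝ) ^ (1 / 6 : ℝ) := div_le_div_of_nonneg_left hN0.le (by positivity) h5
    refine (sum_le_sum h3).trans ?_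
    rw [sum_const, nsmul_eq_mul]
    apply mul_le_mul_of_nonneg_right _ (by positivity)
    refine le_trans ?_ (card_pf_le hq hqN)
    exact_mod_cast card_filter_le _ _
  calc ∑ n ∈ (Icc 1 N).filter (fun n => ¬ n.Coprime q), ‖GM N n‖
      = ∑ n ∈ ((Icc 1 N).filter (fun n => ¬ n.Coprime q)).filter (fun n => |gm N n| ≠ 0), |gm N n| := by
        rw [sum_filter_ne_zero]
        exact sum_congr rfl fun n _ => norm_GM N n
    _ ≤ ∑ n ∈ ((Icc 1 N).filter (fun n => ¬ n.Coprime q)).filter (fun n => |gm N n| ≠ 0), 26 * Real.log N :=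
        sum_le_sum fun n hn => gm_abs (mem_filter.1 (mem_filter.1 hn).1).1
    _ = ((((Icc 1 N).filter (fun n => ¬ n.Coprime q)).filter (fun n => |gm N n| ≠ 0)).card : ℝ) *
        (26 * Real.log N) := by
        rw [sum_const, nsmul_eq_mul]
    _ ≤ (2 * Real.log N * (N / (N : ℝ) ^ (1 / 6 : ℝ))) * (26 * Real.log N) := by gcongr
    _ ≤ N / Real.log N ^ U := by
        obtain ⟨L, hLd⟩ : ∃ L, L = Real.log (N : ℝ) := ⟨_, rfl⟩
        rw [← hLd] at hL hL0 hp ⊢
        rw [le_div_iff₀ (by positivity)]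
        have h6 : 0 < (N : ℝ) ^ (1 / 6 : ℝ) := by positivity
        calc 2 * L * (N / (N : ℝ) ^ (1 / 6 : ℝ)) * (26 * L) * L ^ U =
            N * ((52 * L ^ (U + 2)) / (N : ℝ) ^ (1 / 6 : ℝ)) := by
              rw [pow_add]
              ring
          _ ≤ N * 1 := by
              have : (52 * L ^ (U + 2)) / (N : ℝ) ^ (1 / 6 : ℝ) ≤ 1 := by
                rw [div_le_one h6]
                refine le_trans ?_ hp
                calc 52 * L ^ (U + 2) ≤ L * L ^ (U + 2) := by gcongr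
                  _ = L ^ (U + 3) := by ring
              gcongr
          _ = N := mul_one _

lemma nc_HM {U N z r : ℕ} {c : ℝ} (hW : WS (Wm N) c N) (hP : Par (U + 1) N z r) (hL : 1 + 3 * c ≤ Real.log N) :
    NcAt N U (HM N z r) := by
  intro q hq hqN
  have hc := hW.nn
  have hL0 : 0 < Real.log N := by linarith
  have h1 := hP.hC q hq hqN
  have h2 := hP.hL q hq hqN
  have h3 : ∀ n ∈ (Icc 1 N).filter (fun n => ¬ n.Coprime q), ‖HM N z r n‖ ≤
      c * (|ArithmeticFunction.vonMangoldt n - lsh z r n| + ArithmeticFunction.vonMangoldt n) := by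
    intro n hn
    rw [mem_filter] at hn
    refine (norm_HM hW hn.1).trans (mul_le_mul_of_nonneg_left ?_ hc)
    have h5 : lsh z r n = ArithmeticFunction.vonMangoldt n -
      (ArithmeticFunction.vonMangoldt n - lsh z r n) := by ring
    have h4 : 0 ≤ ArithmeticFunction.vonMangoldt n := ArithmeticFunction.vonMangoldt_nonneg
    calc |lsh z r n| = |ArithmeticFunction.vonMangoldt n - (ArithmeticFunction.vonMangoldt n - lsh z r n)| := by
          rw [← h5]
      _ ≤ |ArithmeticFunction.vonMangoldt n| + |ArithmeticFunction.vonMangoldt n - lsh z r n| := abs_sub _ _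
      _ = _ := by rw [abs_of_nonneg h4]; ring
  refine (sum_le_sum h3).trans ?_
  rw [← mul_sum, sum_add_distrib]
  have hX : 0 ≤ (N : ℝ) / Real.log N ^ (U + 1) := by positivity
  calc c * (∑ n ∈ (Icc 1 N).filter (fun n => ¬ n.Coprime q), |ArithmeticFunction.vonMangoldt n - lsh z r n| +
        ∑ n ∈ (Icc 1 N).filter (fun n => ¬ n.Coprime q), ArithmeticFunction.vonMangoldt n)
      ≤ c * (N / Real.log N ^ (U + 1) + N / Real.log N ^ (U + 1)) :=
        mul_le_mul_of_nonneg_left (add_le_add h1 h2) hc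
    _ = (2 * c) * (N / Real.log N ^ (U + 1)) := by ring
    _ ≤ Real.log N * (N / Real.log N ^ (U + 1)) := mul_le_mul_of_nonneg_right (by linarith) hX
    _ = _ := by
        rw [pow_succ]
        field_simp

lemma nc_fm {U N z r : ℕ} {c : ℝ} (hN : 1 ≤ N) (hW : WS (Wm N) c N) (hP : Par (U + 2) N z r)
    (hL : 52 + 3 * c ≤ Real.log N) (hp : Real.log N ^ (U + 4) ≤ (N : ℝ) ^ (1 / 6 : ℝ)) : NcAt N U (fm N z r) := by
  intro q hq hqN
  have hc := hW.nn
  have hL0 : 0 < Real.log N := by linarith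
  have h1 := nc_GM (U := U + 1) hN (by linarith) hp q hq hqN
  have h2 := nc_HM (U := U + 1) hW hP (by linarith) q hq hqN
  have hX : 0 ≤ (N : ℝ) / Real.log N ^ (U + 1) := by positivity
  calc ∑ n ∈ (Icc 1 N).filter (fun n => ¬ n.Coprime q), ‖fm N z r n‖
      ≤ ∑ n ∈ (Icc 1 N).filter (fun n => ¬ n.Coprime q), (‖GM N n‖ + ‖HM N z r n‖) :=
        sum_le_sum fun n _ => norm_sub_le _ _
    _ ≤ N / Real.log N ^ (U + 1) + N / Real.log N ^ (U + 1) := by
        rw [sum_add_distrib]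
        exact add_le_add h1 h2
    _ = 2 * (N / Real.log N ^ (U + 1)) := by ring
    _ ≤ Real.log N * (N / Real.log N ^ (U + 1)) := mul_le_mul_of_nonneg_right (by linarith) hX
    _ = _ := by
        rw [pow_succ]
        field_simp

/-- the weighted model in progressions -/
lemma ap_HM {N z r₀ r c y : ℕ} {ct X : ℝ} (hW : WS (Wm N) ct N) (hy : y ≤ N)
    (h1 : ∀ y ≤ N, |∑ n ∈ (Icc 1 y).filter (fun n => n ≡ c [MOD r]), lamz z n -
      (if c.Coprime r then (y : ℝ) / (Nat.totient r : ℝ) else 0)| ≤ X)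
    (h2 : ∑ n ∈ Icc 1 N, |lamz z n - lsh z r₀ n| ≤ X) :
    |∑ n ∈ (Icc 1 y).filter (fun n => n ≡ c [MOD r]), Wm N n * lsh z r₀ n -
      (if c.Coprime r then (∑ n ∈ Icc 1 y, Wm N n) / (Nat.totient r : ℝ) else 0)| ≤ (2 * X) * (ct + ct) := by
  classical
  obtain ⟨κ, hκ⟩ : ∃ κ : ℝ, κ = if c.Coprime r then 1 / (Nat.totient r : ℝ) else 0 := ⟨_, rfl⟩
  obtain ⟨x, hx⟩ : ∃ x : ℕ → ℝ, x = fun n => (if n ≡ c [MOD r] then lsh z r₀ n else 0) - κ := ⟨_, rfl⟩
  have hpart : ∀ m ≤ y, |∑ i ∈ Icc 1 m, x i| ≤ 2 * X := by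
    intro m hm
    have e1 : ∑ i ∈ Icc 1 m, x i = (∑ n ∈ (Icc 1 m).filter (fun n => n ≡ c [MOD r]), lamz z n -
        (if c.Coprime r then (m : ℝ) / (Nat.totient r : ℝ) else 0)) -
        ∑ n ∈ (Icc 1 m).filter (fun n => n ≡ c [MOD r]), (lamz z n - lsh z r₀ n) := by
      rw [hx, sum_sub_distrib, ← sum_filter, sum_const, Nat.card_Icc, Nat.add_sub_cancel, nsmul_eq_mul,
        sum_sub_distrib, hκ]
      split_ifs
      · ring
      · ring
    rw [e1]
    refine (abs_sub _ _).trans ?_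
    have k1 := h1 m (hm.trans hy)
    have k2 : |∑ n ∈ (Icc 1 m).filter (fun n => n ≡ c [MOD r]), (lamz z n - lsh z r₀ n)| ≤ X := by
      refine (abs_sum_le_sum_abs _ _).trans (le_trans ?_ h2)
      refine sum_le_sum_of_subset_of_nonneg (fun n hn => ?_) fun _ _ _ => abs_nonneg _
      rw [mem_filter] at hn
      exact Icc_subset_Icc le_rfl (hm.trans hy) hn.1
    linarith
  have h3 := abelR x (Wm N) (2 * X) ct ct y hpart
    (fun i hi => hW.h1 i ((mem_Icc.1 hi).2.trans hy)) (hW.tv hy) hW.nn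
  have e2 : ∑ i ∈ Icc 1 y, Wm N i * x i =
      ∑ n ∈ (Icc 1 y).filter (fun n => n ≡ c [MOD r]), Wm N n * lsh z r₀ n -
      (if c.Coprime r then (∑ n ∈ Icc 1 y, Wm N n) / (Nat.totient r : ℝ) else 0) := by
    have e3 : ∀ i ∈ Icc 1 y, Wm N i * x i = (if i ≡ c [MOD r] then Wm N i * lsh z r₀ i else 0) - Wm N i * κ := by
      intro i _
      rw [hx]
      simp only
      split_ifs
      · ring
      · ring
    rw [sum_congr rfl e3, sum_sub_distrib, ← sum_filter, ← sum_mul, hκ]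
    congr 1
    split_ifs
    · ring
    · ring
  rw [← e2]
  exact h3

lemma ap_fm {N K U z r₀ : ℕ} {ct : ℝ} (hW : WS (Wm N) ct N) (hL : 2 + 4 * ct ≤ Real.log N)
    (hlam : ∀ q : ℕ, 1 ≤ q → (q : ℝ) ≤ Real.log N ^ K → ∀ c y : ℕ, y ≤ N →
      |∑ n ∈ (Icc 1 y).filter (fun n => n ≡ c [MOD q]), lamz z n -
        (if c.Coprime q then (y : ℝ) / (Nat.totient q : ℝ) else 0)| ≤ N / Real.log N ^ (U + 2))
    (hsum : ∑ n ∈ Icc 1 N, |lamz z n - lsh z r₀ n| ≤ N / Real.log N ^ (U + 2))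
    (hap : ∀ r : ℕ, 1 ≤ r → (r : ℝ) ≤ Real.log N ^ K → ∀ c y : ℕ, y ≤ N →
      |∑ n ∈ (Icc 1 y).filter (fun n => n ≡ c [MOD r]), gm N n -
        (if c.Coprime r then (∑ n ∈ Icc 1 y, Wm N n) / (Nat.totient r : ℝ) else 0)| ≤
        N / Real.log N ^ (U + 2)) :
    ApAt N K U (fm N z r₀) := by
  intro r hr1 hrK c y hy
  have hc := hW.nn
  have hL0 : 0 < Real.log N := by linarith
  have h1 := ap_HM (r₀ := r₀) (c := c) hW hy (fun y hy => hlam r hr1 hrK c y hy) hsum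
  have h2 := hap r hr1 hrK c y hy
  have e1 : ∑ n ∈ (Icc 1 y).filter (fun n => n ≡ c [MOD r]), fm N z r₀ n =
      ((∑ n ∈ (Icc 1 y).filter (fun n => n ≡ c [MOD r]), gm N n -
      ∑ n ∈ (Icc 1 y).filter (fun n => n ≡ c [MOD r]), Wm N n * lsh z r₀ n : ℝ) : ℂ) := by
    rw [← sum_sub_distrib]
    push_cast
    refine sum_congr rfl fun n _ => ?_
    unfold fm GM HM
    push_cast
    ring
  rw [e1, Complex.norm_real, Real.norm_eq_abs]
  obtain ⟨M, hM⟩ : ∃ M : ℝ, M = (if c.Coprime r then (∑ n ∈ Icc 1 y, Wm N n) / (Nat.totient r : ℝ) else 0) :=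
    ⟨_, rfl⟩
  rw [← hM] at h1 h2
  have e2 : ∑ n ∈ (Icc 1 y).filter (fun n => n ≡ c [MOD r]), gm N n -
      ∑ n ∈ (Icc 1 y).filter (fun n => n ≡ c [MOD r]), Wm N n * lsh z r₀ n =
      (∑ n ∈ (Icc 1 y).filter (fun n => n ≡ c [MOD r]), gm N n - M) -
      (∑ n ∈ (Icc 1 y).filter (fun n => n ≡ c [MOD r]), Wm N n * lsh z r₀ n - M) := by ring
  rw [e2]
  refine (abs_sub _ _).trans ?_
  have hX : 0 ≤ (N : ℝ) / Real.log N ^ (U + 2) := by positivity
  calc _ ≤ N / Real.log N ^ (U + 2) + 2 * (N / Real.log N ^ (U + 2)) * (ct + ct) := add_le_add h2 h1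
    _ = (1 + 4 * ct) * (N / Real.log N ^ (U + 2)) := by ring
    _ ≤ Real.log N ^ 2 * (N / Real.log N ^ (U + 2)) := by
        apply mul_le_mul_of_nonneg_right _ hX
        nlinarith
    _ = _ := by
        rw [pow_add]
        field_simp

lemma maj_fm {N A C C₃ z r : ℕ} {ρ : ℝ} (hL : 2 ≤ Real.log N) (hG : MajAt N ρ (A + 2) C C₃ (GM N))
    (hH : ∀ (q : ℕ) [NeZero q], (q : ℝ) ≤ (N : ℝ) ^ (7 / 10 - ρ) →
      ∀ η : ℝ, |η| ≤ Real.log N ^ C / N → ∀ y : ℕ, y ≤ N →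
      ∀ S : Finset (DirichletCharacter ℂ q), 1 ∉ S →
        ∑ χ ∈ S, ‖cs q y (HM N z r) η χ‖ ^ 2 ≤ (N : ℝ) ^ 2 / Real.log N ^ (A + 2)) :
    MajAt N ρ A C C₃ (fm N z r) := by
  intro q _ hq
  obtain ⟨B, hB1, hBc, hB⟩ := hG q hq
  refine ⟨B, hB1, hBc, fun η hη y hy S hS => ?_⟩
  have h1 := hB η hη y hy S hS
  have h2 := hH q hq η hη y hy S (fun h => disjoint_left.1 hS h hB1)
  exact (sq_sub_sum (GM N) (HM N z r) η S h1 h2).trans (four_le hL)

lemma min_fm {N A C C' z r : ℕ} {ρ : ℝ} (hL : 2 ≤ Real.log N) (hG : MinAt N ρ (A + 2) C (GM N))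
    (hH : MinAt N ρ (A + 2) C' (HM N z r)) : MinAt N ρ A (max C C') (fm N z r) := by
  have h1 := min_mono (by linarith) (le_max_left C C') hG
  have h2 := min_mono (by linarith) (le_max_right C C') hH
  intro q _ hq k hh β k1 k2 k3 k4 y hy
  exact (sq_sub_sum (GM N) (HM N z r) β univ (h1 q hq k hh β k1 k2 k3 k4 y hy)
    (h2 q hq k hh β k1 k2 k3 k4 y hy)).trans (four_le hL)

end Pool.Agent.Helper34.GX
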