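import Pool.Agent.Helper34.GX.Wta
import Pool.Graph.R_seed8.Y614.GJ.Core

set_option autoImplicit false

/-! The lower bound for the local density from the contributions of the classes of the cofactors. -/

namespace Pool.Agent.Helper34.GX

open Finset
open Pool.Agent.Y614.GJ.Core (ev_log)

/-- the decomposition of the sum over the cofactors -/
lemma mm_decomp {N n : ℕ} (hB : Big N) (hn : n ≤ N) (F : ℕ → ℝ) :
    ∑ m ∈ mm N n, F m = (∑ m ∈ mk N n 0, F m + ∑ m ∈ mk N n 1, F m + ∑ m ∈ mk N n 2, F m +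
      ∑ m ∈ mk N n 3, F m + ∑ m ∈ mk N n 4, F m) + ∑ m ∈ mns N n, F m := by
  rw [← Finset.sum_filter_add_sum_filter_not (mm N n) Squarefree]
  congr 1
  have h1 : ∑ k ∈ range 5, ∑ m ∈ ((mm N n).filter Squarefree).filter (fun m => m.primeFactors.card = k), F m =
      ∑ m ∈ (mm N n).filter Squarefree, F m := by
    apply Finset.sum_fiberwise_of_maps_to
    intro m hm
    rw [mem_range]
    have := card_four hB hn (mem_filter.1 hm).1
    omega
  rw [← h1]
  simp only [sum_range_succ, range_zero, sum_empty, zero_add]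
  have h2 : ∀ k : ℕ, ((mm N n).filter Squarefree).filter (fun m => m.primeFactors.card = k) = mk N n k := by
    intro k
    unfold mk
    rw [filter_filter]
  simp only [h2]

lemma mk_zero {N n : ℕ} (h1 : 1 ≤ n) (hZ : ZZ N < n) : mk N n 0 = {1} := by
  ext m
  unfold mk
  rw [mem_filter, mem_singleton, mem_mm]
  constructor
  · rintro ⟨⟨⟨h2, h3⟩, h4, h5⟩, h6, h7⟩
    rw [card_eq_zero, Nat.primeFactors_eq_empty] at h7
    omega
  · rintro rfl
    refine ⟨⟨⟨le_rfl, h1⟩, ?_, ?_⟩, squarefree_one, ?_⟩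
    · intro p hp
      rw [Nat.primeFactors_one] at hp
      simp at hp
    · unfold MM
      rw [Nat.primeFactors_one, sup_empty, one_mul]
      simpa using hZ
    · rw [Nat.primeFactors_one, card_empty]

theorem wd_of (h1 : WkStm 1 (25 / 10000)) (h2 : WkStm 2 (7750 / 10000)) (h3 : WkStm 3 (1085 / 10000))
    (h4 : WkStm 4 (232 / 10000)) (hns : WnsStm) : WdStm := by
  intro V
  obtain ⟨N1, g1⟩ := h1 V
  obtain ⟨N2, g2⟩ := h2 V
  obtain ⟨N3, g3⟩ := h3 V
  obtain ⟨N4, g4⟩ := h4 V
  obtain ⟨N5, g5⟩ := hns V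
  obtain ⟨N6, g6⟩ := Filter.eventually_atTop.1 big
  obtain ⟨N7, g7⟩ := Filter.eventually_atTop.1 (ev_log V (s := 1 / 4) (by norm_num) 1)
  refine ⟨N1 + N2 + N3 + N4 + N5 + N6 + N7 + 1, fun N hN n hn hNn => ?_⟩
  have hB := g6 N (by omega)
  obtain ⟨hL1, hLp⟩ := g7 N (by omega)
  have b1 := g1 N (by omega) n hn hNn
  have b2 := g2 N (by omega) n hn hNn
  have b3 := g3 N (by omega) n hn hNn
  have b4 := g4 N (by omega) n hn hNn
  have b5 := g5 N (by omega) n hn hNn
  have hN0 : (0 : ℝ) < N := by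
    have := hB.two
    exact_mod_cast (by omega : 0 < N)
  have hN1 : (1 : ℝ) < N := by
    have := hB.two
    exact_mod_cast (by omega : 1 < N)
  -- the size of `n`
  have hn34 : (N : ℝ) ^ (3 / 4 : ℝ) ≤ n := by
    refine le_trans ?_ hNn
    rw [le_div_iff₀ (by positivity)]
    calc (N : ℝ) ^ (3 / 4 : ℝ) * Real.log N ^ V ≤ (N : ℝ) ^ (3 / 4 : ℝ) * (N : ℝ) ^ (1 / 4 : ℝ) := by gcongr
      _ = N := by
          rw [← Real.rpow_add hN0]
          norm_num
  have hsq : (Nat.sqrt N : ℝ) < n := by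
    refine lt_of_le_of_lt sqrt_half (lt_of_lt_of_le ?_ hn34)
    exact Real.rpow_lt_rpow_of_exponent_lt hN1 (by norm_num)
  have hsq' : Nat.sqrt N < n := by exact_mod_cast hsq
  have hZ : ZZ N < n := lt_of_le_of_lt (ZZ_le_sqrt hB.one) hsq'
  have hn2 : 2 ≤ n := by
    have := hB.Z2
    omega
  have hlogn : 0 < Real.log n := Real.log_pos (by exact_mod_cast (by omega : 1 < n))
  have hlog : Real.log n ≤ Real.log N := Real.log_le_log (by exact_mod_cast (by omega : 0 < n)) (by exact_mod_cast hn)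
  have b0 : 1 ≤ Real.log N * ∑ m ∈ mk N n 0, kap N n m * gg n m := by
    rw [mk_zero (by omega) hZ, sum_singleton]
    have e1 : kap N n 1 = 1 := by
      have c1 : om N 1 = 0 := by unfold om; rw [Nat.primeFactors_one]; rfl
      have c2 : pr N 1 = 0 := by unfold pr prs; rw [Nat.primeFactors_one]; rfl
      have c3 : kp N n 1 = 0 := by unfold kp; rw [Nat.primeFactors_one, sum_empty]
      unfold kap
      rw [c1, c2, c3, if_neg (by rw [one_mul]; omega)]
      norm_num
    have e2 : gg n 1 = 1 / Real.log n := by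
      unfold gg
      rw [Nat.cast_one, div_one, one_mul]
    rw [e1, e2, one_mul, mul_one_div, le_div_iff₀ hlogn, one_mul]
    exact hlog
  unfold Wm
  rw [mm_decomp hB hn, mul_add, mul_add, mul_add, mul_add, mul_add]
  linarith

end Pool.Agent.Helper34.GX
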